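import Pool.Agent.Work.MP_0d2ef4_co.WQ.Stat

/-!
# Rayless graphs with highly connected blocks: definitions used in the statement

`IsMinor`, `Rayless` and `TwoConnected` are defined in `WQ/Stat.lean`.
-/

namespace Pool.MP_0d2ef4_co

open Set

universe u

/-- No set of fewer than `k` vertices separates `S`: whenever fewer than `k` vertices are deleted
from `S`, any two of the remaining vertices are joined by a path in the rest of `S`. -/
def Unsep {V : Type u} (G : SimpleGraph V) (k : ℕ) (S : Set V) : Prop :=
  ∀ F : Finset V, F.card < k → (G.induce (S \ ↑F)).Preconnected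

/-- `C` is (the vertex set of) a component of the graph induced by `S`. -/
def IsComp {V : Type u} (G : SimpleGraph V) (S C : Set V) : Prop :=
  C ⊆ S ∧ (G.induce C).Connected ∧ ∀ C', C' ⊆ S → (G.induce C').Connected → C ⊆ C' → C' = C

/-- `B` is (the vertex set of) a block of the graph induced by `S`: a maximal subset of `S` that
induces a connected subgraph without cut vertex. (A bridge or an isolated vertex is a block.) -/
def IsBlock {V : Type u} (G : SimpleGraph V) (S B : Set V) : Prop :=
  B ⊆ S ∧ TwoConnected G B ∧ ∀ B', B' ⊆ S → TwoConnected G B' → B ⊆ B' → B' = B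

/-- `Red s m G k S`: in `k` rounds the graph induced by `S` is reduced to highly connected finite
graphs. `k = 0`: every component `C` is finite and is not separated by fewer than `s |C|` vertices.
`k + 1`: from every block one can delete at most `m` vertices such that the rest satisfies the
condition for `k`. -/
def Red (s : ℕ → ℕ) (m : ℕ) {V : Type u} (G : SimpleGraph V) : ℕ → Set V → Prop
  | 0, S => ∀ C, IsComp G S C → C.Finite ∧ Unsep G (s C.ncard) C
  | k + 1, S => ∀ B, IsBlock G S B → ∃ F : Finset V, F.card ≤ m ∧ Red s m G k (B \ ↑F)

end Pool.MP_0d2ef4_co
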