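import Pool.Agent.Work.MP_0d2ef4_co.WQ.Defs
import Pool.Agent.Work.MP_0d2ef4_co.HC.Stat

/-!
# Block HC: highly connected blocks (captain helper42, proof note 4750)

Internal definitions. `Cn G S a b` (reachability inside `S`), `cmp`, `TwoCon`, `dom`, `Ch`,
`NB`, `IsArr`, `tl`, `Fam`, `CS` are in `WQ/Defs.lean`.
-/

namespace Pool.MP_0d2ef4_co

open Set

universe u v

/-! ### Classes of pairs (graph, set of vertices) -/

/-- A kind of pairs (graph, set of vertices). -/
abbrev Kd := (V : Type u) → SimpleGraph V → Set V → Prop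

/-- `S` is not separated by fewer than `k` vertices (version with `Cn`). -/
def Un {V : Type u} (G : SimpleGraph V) (k : ℕ) (S : Set V) : Prop :=
  ∀ F : Finset V, F.card < k → ∀ a ∈ S \ ↑F, ∀ b ∈ S \ ↑F, Cn G (S \ ↑F) a b

/-- `B` is a maximal two-connected subset of `S`. -/
def BlkOn {V : Type u} (G : SimpleGraph V) (S B : Set V) : Prop :=
  B ⊆ S ∧ TwoCon G B ∧ ∀ B', B' ⊆ S → TwoCon G B' → B ⊆ B' → B' ⊆ B

/-- Finite and not separated by fewer than `s |S|` vertices. -/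
def HCK (s : ℕ → ℕ) : Kd.{u} := fun _ G S => S.Finite ∧ Un G (s S.ncard) S

/-- At most one vertex is deleted. -/
def Del1K (K : Kd.{u}) : Kd.{u} := fun V G S => K V G S ∨ ∃ v ∈ S, K V G (S \ {v})

/-- At most `m` vertices are deleted. -/
def DelK (m : ℕ) (K : Kd.{u}) : Kd.{u} := fun V G S =>
  ∃ F : Finset V, F.card ≤ m ∧ K V G (S \ ↑F)

/-- All components are of kind `K`. -/
def CompK (K : Kd.{u}) : Kd.{u} := fun V G S => ∀ a ∈ S, K V G (cmp G S a)

/-- All blocks are of kind `K`. -/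
def BlkK (K : Kd.{u}) : Kd.{u} := fun V G S => ∀ B, BlkOn G S B → K V G B

/-- The class of the theorem. -/
def RedK (s : ℕ → ℕ) (m : ℕ) : ℕ → Kd.{u}
  | 0 => CompK (HCK s)
  | k + 1 => BlkK (DelK m (RedK s m k))

/-- The kind depends only on the adjacencies inside the set. -/
def LocalK (K : Kd.{u}) : Prop := ∀ (V : Type u) (G G' : SimpleGraph V) (S : Set V),
  (∀ a ∈ S, ∀ b ∈ S, (G.Adj a b ↔ G'.Adj a b)) → K V G S → K V G' S

/-- Labelled minors: the branch set of `a` contains a vertex with a label above that of `a`. -/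
def CM {L : Type v} (leL : L → L → Prop) (x y : CS.{u} L) : Prop :=
  ∃ M : x.W → Set y.W,
    (∀ a ∈ x.S, M a ⊆ y.S ∧ (∀ p ∈ M a, ∀ q ∈ M a, Cn y.H (M a) p q) ∧
      ∃ p ∈ M a, leL (x.lab a) (y.lab p)) ∧
    (∀ a ∈ x.S, ∀ b ∈ x.S, a ≠ b → Disjoint (M a) (M b)) ∧
    ∀ a ∈ x.S, ∀ b ∈ x.S, x.H.Adj a b → ∃ p ∈ M a, ∃ q ∈ M b, y.H.Adj p q

/-- `K` is good: with labels that have no bad array there is no bad array of labelled graphs of
kind `K` under labelled minors. -/
def Good (K : Kd.{u}) : Prop :=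
  ∀ (L : Type (u + 1)) (leL : L → L → Prop) (P : Set ℕ → L → Prop) (A : Set ℕ), NB leL P A →
    NB (CM.{u} leL) (fun X c => RaylessOn c.H c.S ∧ K c.W c.H c.S ∧ ∀ w ∈ c.S, P X (c.lab w)) A

/-! ### Labelled rooted graphs -/

/-- The graph induced by `dom G r v`, rooted at `v`, with labels. -/
structure LRG (L : Type v) where
  V : Type u
  G : SimpleGraph V
  r : V
  v : V
  lab : V → L

/-- Rooted labelled minors. -/
def LRM {L : Type v} (leL : L → L → Prop) (x y : LRG.{u} L) : Prop :=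
  ∃ M : x.V → Set y.V,
    (∀ a ∈ dom x.G x.r x.v, M a ⊆ dom y.G y.r y.v ∧ (∀ p ∈ M a, ∀ q ∈ M a, Cn y.G (M a) p q) ∧
      ∃ p ∈ M a, leL (x.lab a) (y.lab p)) ∧
    (∀ a ∈ dom x.G x.r x.v, ∀ b ∈ dom x.G x.r x.v, a ≠ b → Disjoint (M a) (M b)) ∧
    (∀ a ∈ dom x.G x.r x.v, ∀ b ∈ dom x.G x.r x.v, x.G.Adj a b →
      ∃ p ∈ M a, ∃ q ∈ M b, y.G.Adj p q) ∧
    y.v ∈ M x.v

/-- Strict domination. -/
def LRG.lt {L : Type v} (x y : LRG.{u} L) : Prop :=
  ∃ w, x = ⟨y.V, y.G, y.r, w, y.lab⟩ ∧ w ∈ dom y.G y.r y.v ∧ w ≠ y.v ∧ RaylessOn y.G univ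

/-- Optional labels, `none` is comparable with `none` only. -/
def OptLe {Q : Type v} (le : Q → Q → Prop) : Option Q → Option Q → Prop
  | none, none => True
  | some a, some b => le a b
  | _, _ => False

open Classical in
/-- The block `insert x.v C` at the root, with the rooted graphs at the other vertices as
labels. -/
noncomputable def LRG.blk {L : Type v} (x : LRG.{u} L) (C : Set x.V) :
    CS.{u} (Option (LRG.{u} L)) :=
  ⟨x.V, x.G, insert x.v C, fun w => if w = x.v then none else some ⟨x.V, x.G, x.r, w, x.lab⟩⟩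

/-- The family of the labelled blocks at the root. -/
noncomputable def LRG.fam {L : Type v} (x : LRG.{u} L) : Fam.{u} (CS.{u} (Option (LRG.{u} L))) where
  I := {C : Set x.V // ∃ c ∈ Ch x.G x.r x.v, C = cmp x.G (Ch x.G x.r x.v) c}
  x := fun C => x.blk C.1

/-- Facts on strict domination of labelled rooted graphs. -/
structure LLtFacts (L : Type v) (leL : L → L → Prop) : Prop where
  wf : WellFounded (LRG.lt : LRG.{u} L → LRG.{u} L → Prop)
  trans : ∀ a b c : LRG.{u} L, LRG.lt a b → LRG.lt b c → LRG.lt a c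
  le : ∀ a b c : LRG.{u} L, LRM leL a b → LRG.lt b c → LRM leL a c

/-- The conditions on labelled rooted graphs: `r` and `v` are joined, there is no ray, the blocks
of the component of `r` are of kind `K`, the labels in this component are in `P X`. -/
def LRP (K : Kd.{u}) {L : Type v} (P : Set ℕ → L → Prop) (X : Set ℕ) (x : LRG.{u} L) : Prop :=
  Cn x.G univ x.r x.v ∧ RaylessOn x.G univ ∧
    (∀ B, BlkOn x.G univ B → (∀ w ∈ B, Cn x.G univ x.r w) → K x.V x.G B) ∧
    ∀ w, Cn x.G univ x.r w → P X (x.lab w)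

/-! ### Finite graphs -/

open Classical in
/-- The number of ordered pairs of adjacent vertices of `S`. -/
noncomputable def ed {V : Type} (G : SimpleGraph V) (S : Finset V) : ℕ :=
  ((S ×ˢ S).filter fun p => G.Adj p.1 p.2).card

open Classical in
/-- The number of neighbours of `v` in `S`. -/
noncomputable def dg {V : Type} (G : SimpleGraph V) (S : Finset V) (v : V) : ℕ :=
  (S.filter fun w => G.Adj v w).card

/-- Branch vertices `b i ∈ S`, `i < r`, and paths `p i j` in `S` from `b i` to `b j` for the pairs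
`(i, j) ∈ E`, which meet only in branch vertices. -/
structure TKp {V : Type} (G : SimpleGraph V) (S : Set V) (r : ℕ) (E : Finset (Fin r × Fin r))
    (b : Fin r → V) (p : Fin r → Fin r → List V) : Prop where
  inj : Function.Injective b
  mem : ∀ i, b i ∈ S
  ch : ∀ i j, (i, j) ∈ E → (p i j).IsChain G.Adj
  nd : ∀ i j, (i, j) ∈ E → (p i j).Nodup
  hd : ∀ i j, (i, j) ∈ E → (p i j).head? = some (b i)
  lt : ∀ i j, (i, j) ∈ E → (p i j).getLast? = some (b j)
  sub : ∀ i j, (i, j) ∈ E → ∀ x ∈ p i j, x ∈ S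
  br : ∀ i j, (i, j) ∈ E → ∀ k, b k ∈ p i j → k = i ∨ k = j
  dis : ∀ i j i' j', (i, j) ∈ E → (i', j') ∈ E → (i, j) ≠ (i', j') → ∀ x ∈ p i j,
    x ∈ p i' j' → ∃ k, x = b k

/-- The pairs `i < j`. -/
def prs (r : ℕ) : Finset (Fin r × Fin r) := Finset.univ.filter fun q => q.1 < q.2

/-- Disjoint paths from `z i` to `U` which meet `U` only in their ends `e i`. -/
structure PthS {V : Type} (G : SimpleGraph V) (n : ℕ) (z : Fin n → V) (U : Set V)
    (e : Fin n → V) (q : Fin n → List V) : Prop where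
  ch : ∀ i, (q i).IsChain G.Adj
  nd : ∀ i, (q i).Nodup
  hd : ∀ i, (q i).head? = some (z i)
  lt : ∀ i, (q i).getLast? = some (e i)
  eU : ∀ i, e i ∈ U
  only : ∀ i, ∀ x ∈ q i, x ∈ U → x = e i
  dis : ∀ i j, i ≠ j → List.Disjoint (q i) (q j)

/-- A complete minor rooted at the vertices `z i`. -/
def RootK {V : Type u} (G : SimpleGraph V) (S : Set V) {I : Type u} (z : I → V) : Prop :=
  ∃ M : I → Set V, (∀ i, z i ∈ M i ∧ M i ⊆ S ∧ ∀ p ∈ M i, ∀ q ∈ M i, Cn G (M i) p q) ∧
    (∀ i j, i ≠ j → Disjoint (M i) (M j)) ∧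
    ∀ i j, i ≠ j → ∃ p ∈ M i, ∃ q ∈ M j, G.Adj p q

end Pool.MP_0d2ef4_co
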