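import Pool.Agent.Work.MP_0d2ef4_co.HC.Stmts
import Pool.Agent.Work.MP_0d2ef4_co.WQ.Top

/-! Item ASM of the block HC: the assembly. -/

namespace Pool.MP_0d2ef4_co

open Set Filter

universe u

theorem HX_ASM.good (hhcn : H_HCN.{u}) (hcmp : H_CMP.{u}) (htopl : H_TOPL.{u})
    (hdel : H_DEL.{u}) (hloc : H_LOC.{u}) (s : ℕ → ℕ) (hs : Tendsto s atTop atTop) (m k : ℕ) :
    Good (RedK.{u} s m k) := by
  induction k with
  | zero => exact hcmp _ (hhcn s hs)
  | succ k ih => exact htopl _ (hdel m _ ih) (hloc s m k).2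

theorem prH_ASM (hhcn : H_HCN.{u}) (hcmp : H_CMP.{u}) (htopl : H_TOPL.{u})
    (hdel : H_DEL.{u}) (hloc : H_LOC.{u}) (heqv : H_EQV.{u}) : H_ASM.{u} := by
  intro s hs m k V G hG
  have key : ∀ c : Set ℕ → ℕ, Measurable c →
      ∃ X : Set ℕ, X.Infinite ∧ IsMinor (G (c X)) (G (c (X \ {sInf X}))) := by
    intro c hc
    have h0 : NB (fun _ _ : PUnit.{u + 2} => True) (fun _ _ => True) univ := by
      intro B _ hB f _ _
      exact ⟨B, Subset.rfl, hB, trivial⟩
    have h1 := HX_ASM.good hhcn hcmp htopl hdel hloc s hs m k PUnit.{u + 2} _ _ univ h0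
    have harr : IsArr (fun X : Set ℕ => CS.mk (L := PUnit.{u + 2}) (V (c X)) (G (c X)) univ
        (fun _ => PUnit.unit)) := by
      have h2 : IsArr c := ⟨to_countable _, fun n => hc (measurableSet_singleton n)⟩
      exact h2.comp (fun n => CS.mk (L := PUnit.{u + 2}) (V n) (G n) univ (fun _ => PUnit.unit))
    obtain ⟨X, _, hXi, M, hM1, hM2, hM3⟩ := h1 univ Subset.rfl infinite_univ _ harr (by
      intro X _ _
      exact ⟨rayless_iff.1 (hG (c X)).1, heqv s m k _ _ _ (hG (c X)).2, fun _ _ => trivial⟩)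
    refine ⟨X, hXi, M, fun a => ?_, fun a b hab => ?_, fun a b hab => ?_⟩
    · obtain ⟨_, h3, p, hp, _⟩ := hM1 a (mem_univ _)
      exact connected_of_cn ⟨p, hp⟩ h3
    · exact hM2 a (mem_univ _) b (mem_univ _) hab
    · exact hM3 a (mem_univ _) b (mem_univ _) hab
  refine ⟨key, ?_⟩
  obtain ⟨X, hX, h⟩ := key (fun X => sInf X) measurable_sInf'
  exact ⟨_, _, sInf_lt_sInf_tl hX, h⟩

end Pool.MP_0d2ef4_co
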