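import Pool.Agent.Work.MP_0d2ef4_co.HC.Stmts
import Pool.Agent.Work.MP_0d2ef4_co.WQ.Basic
import Pool.Agent.Work.MP_0d2ef4_co.WQ.Arr

/-!
# Block HC, item BND: bounded growth on tails makes an array of numbers bounded
-/

set_option autoImplicit false

namespace Pool.MP_0d2ef4_co

open Set

universe u v

namespace HX_BND

theorem tl_insert (t : Set ℕ) (m : ℕ) (Y : Set ℕ) (h1 : ∀ x ∈ t, m < x) (h2 : ∀ y ∈ Y, m < y) :
    tl (insert m t ∪ Y) = t ∪ Y := by
  have hs : sInf (insert m t ∪ Y) = m := by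
    have hm : m ∈ insert m t ∪ Y := Or.inl (mem_insert _ _)
    apply le_antisymm (Nat.sInf_le hm)
    have h3 := Nat.sInf_mem (⟨m, hm⟩ : (insert m t ∪ Y).Nonempty)
    rcases h3 with (h3 | h3) | h3
    · exact h3.ge
    · exact (h1 _ h3).le
    · exact (h2 _ h3).le
  unfold tl
  rw [hs]
  ext x
  constructor
  · rintro ⟨(hx | hx) | hx, hx'⟩
    · exact absurd hx hx'
    · exact Or.inl hx
    · exact Or.inr hx
  · rintro (hx | hx)
    · exact ⟨Or.inl (Or.inr hx), fun h => by
        have := h1 x hx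
        have h : x = m := h
        omega⟩
    · exact ⟨Or.inr hx, fun h => by
        have := h2 x hx
        have h : x = m := h
        omega⟩

theorem step1 (C : Set ℕ) (h : Set ℕ → ℕ) (N : ℕ → ℕ) (hN : Monotone N)
    (hh : ∀ X, X ⊆ C → X.Infinite → h (tl X) < N (h X))
    (H : ∀ D, D ⊆ C → D.Infinite → ∀ c, ∃ X, X ⊆ D ∧ X.Infinite ∧ c < h X) :
    ∀ (n : ℕ) (t : Finset ℕ) (D : Set ℕ) (c : ℕ), t.card = n → D.Infinite → (↑t : Set ℕ) ∪ D ⊆ C →
      (∀ x ∈ t, ∀ y ∈ D, x < y) → ¬ ∀ Y, Y ⊆ D → Y.Infinite → h (↑t ∪ Y) ≤ c := by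
  intro n
  induction n with
  | zero =>
    intro t D c ht hD hC _ hY
    rw [Finset.card_eq_zero] at ht
    subst ht
    obtain ⟨X, hX, hXi, hc⟩ := H D (fun x hx => hC (Or.inr hx)) hD c
    have := hY X hX hXi
    rw [Finset.coe_empty, empty_union] at this
    omega
  | succ n ih =>
    intro t D c ht hD hC hlt hY
    have hne : t.Nonempty := by
      rw [← Finset.card_pos]
      omega
    have hm : t.min' hne ∈ t := Finset.min'_mem t hne
    have hins : (↑t : Set ℕ) = insert (t.min' hne) (↑(t.erase (t.min' hne)) : Set ℕ) := by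
      rw [← Finset.coe_insert, Finset.insert_erase hm]
    refine ih (t.erase (t.min' hne)) D (N c) ?_ hD ?_ ?_ ?_
    · rw [Finset.card_erase_of_mem hm]
      omega
    · intro x hx
      rcases hx with hx | hx
      · exact hC (Or.inl (Finset.mem_of_mem_erase hx))
      · exact hC (Or.inr hx)
    · intro x hx y hy
      exact hlt x (Finset.mem_of_mem_erase hx) y hy
    · intro Y hYD hYi
      have h1 : tl (↑t ∪ Y) = ↑(t.erase (t.min' hne)) ∪ Y := by
        rw [hins]
        refine tl_insert _ _ _ ?_ ?_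
        · intro x hx
          have hx1 : x ∈ t.erase (t.min' hne) := hx
          have hx2 := Finset.min'_le t x (Finset.mem_of_mem_erase hx1)
          have hx3 := Finset.ne_of_mem_erase hx1
          omega
        · intro y hy
          exact hlt _ hm y (hYD hy)
      have h2 := hh (↑t ∪ Y) (fun x hx => by
        rcases hx with hx | hx
        · exact hC (Or.inl hx)
        · exact hC (Or.inr (hYD hx))) (hYi.mono subset_union_right)
      rw [h1] at h2
      exact (h2.le).trans (hN (hY Y hYD hYi))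

theorem meas (t : Set ℕ) : Measurable (fun Y : Set ℕ => t ∪ Y) := by
  rw [measurable_set_iff]
  intro n
  by_cases hn : n ∈ t
  · have : (fun Y : Set ℕ => n ∈ t ∪ Y) = fun _ => True := by
      funext Y
      exact propext ⟨fun _ => trivial, fun _ => Or.inl hn⟩
    rw [this]
    exact measurable_const
  · have : (fun Y : Set ℕ => n ∈ t ∪ Y) = fun Y => n ∈ Y := by
      funext Y
      exact propext ⟨fun h => h.resolve_left hn, Or.inr⟩
    rw [this]
    exact measurable_set_mem n

theorem step2 (C : Set ℕ) (h : Set ℕ → ℕ) (hm : ∀ n, MeasurableSet {X | h X = n}) (N : ℕ → ℕ)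
    (hN : Monotone N) (hh : ∀ X, X ⊆ C → X.Infinite → h (tl X) < N (h X))
    (H : ∀ D, D ⊆ C → D.Infinite → ∀ c, ∃ X, X ⊆ D ∧ X.Infinite ∧ c < h X)
    (t : Finset ℕ) (D : Set ℕ) (c : ℕ) (hD : D.Infinite) (hC : (↑t : Set ℕ) ∪ D ⊆ C)
    (hlt : ∀ x ∈ t, ∀ y ∈ D, x < y) :
    ∃ D', D' ⊆ D ∧ D'.Infinite ∧ ∀ Y, Y ⊆ D' → Y.Infinite → c < h (↑t ∪ Y) := by
  have hmc : MeasurableSet {X | h X ≤ c} := by
    have : {X | h X ≤ c} = ⋃ n ∈ Iic c, {X | h X = n} := by
      ext X
      simp
    rw [this]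
    exact MeasurableSet.biUnion (to_countable _) fun n _ => hm n
  obtain ⟨D', h1, h2, h3⟩ := gp_pred (p := fun Y => h (↑t ∪ Y) ≤ c) (meas (↑t : Set ℕ) hmc) hD
  refine ⟨D', h1, h2, ?_⟩
  rcases h3 with h3 | h3
  · exact absurd h3 (step1 C h N hN hh H t.card t D' c rfl h2
      (fun x hx => hC (hx.imp_right fun hx => h1 hx)) fun x hx y hy => hlt x hx y (h1 hy))
  · intro Y hY hYi
    exact not_le.1 (h3 Y hY hYi)

end HX_BND

theorem prH_BND : H_BND := by
  intro C hC h hm N hN hh
  by_contra hcon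
  have H : ∀ D, D ⊆ C → D.Infinite → ∀ c, ∃ X, X ⊆ D ∧ X.Infinite ∧ c < h X := by
    intro D hD hDi c
    by_contra h1
    apply hcon
    refine ⟨D, hD, hDi, c, ?_⟩
    intro X hX hXi
    by_contra h2
    exact h1 ⟨X, hX, hXi, not_le.1 h2⟩
  -- states
  let S := {p : Finset ℕ × Set ℕ // p.2.Infinite ∧ (↑p.1 : Set ℕ) ∪ p.2 ⊆ C ∧
    ∀ x ∈ p.1, ∀ y ∈ p.2, x < y}
  have hstep : ∀ (p : S) (j : ℕ), ∃ q : S, ∃ b ∈ p.1.2, q.1.1 = insert b p.1.1 ∧
      q.1.2 ⊆ p.1.2 ∧ ∀ Y, Y ⊆ q.1.2 → Y.Infinite → j < h (↑q.1.1 ∪ Y) := by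
    rintro ⟨⟨t, D⟩, hD, hC', hlt⟩ j
    have hne : D.Nonempty := hD.nonempty
    have hb : sInf D ∈ D := Nat.sInf_mem hne
    have hbl : ∀ y ∈ tl D, sInf D < y := by
      intro y hy
      have h1 := Nat.sInf_le hy.1
      have h2 : y ≠ sInf D := hy.2
      omega
    obtain ⟨D', h1, h2, h3⟩ := HX_BND.step2 C h hm N hN hh H (insert (sInf D) t) (tl D) j
      (tl_infinite hD) (by
        intro x hx
        rcases hx with hx | hx
        · have hx' : x ∈ insert (sInf D) t := hx
          rw [Finset.mem_insert] at hx'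
          rcases hx' with rfl | hx'
          · exact hC' (Or.inr hb)
          · exact hC' (Or.inl hx')
        · exact hC' (Or.inr (tl_subset D hx))) (by
        intro x hx y hy
        rw [Finset.mem_insert] at hx
        rcases hx with rfl | hx
        · exact hbl y hy
        · exact hlt x hx y (tl_subset D hy))
    refine ⟨⟨⟨insert (sInf D) t, D'⟩, h2, ?_, ?_⟩, sInf D, hb, rfl,
      h1.trans (tl_subset D), h3⟩
    · intro x hx
      rcases hx with hx | hx
      · have hx' : x ∈ insert (sInf D) t := hx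
        rw [Finset.mem_insert] at hx'
        rcases hx' with rfl | hx'
        · exact hC' (Or.inr hb)
        · exact hC' (Or.inl hx')
      · exact hC' (Or.inr (tl_subset D (h1 hx)))
    · intro x hx y hy
      have hx : x ∈ insert (sInf D) t := hx
      rw [Finset.mem_insert] at hx
      rcases hx with rfl | hx
      · exact hbl y (h1 hy)
      · exact hlt x hx y (tl_subset D (h1 hy))
  choose nx bb hbb hins hsub hgr using hstep
  let s : ℕ → S := fun n => Nat.rec (⟨⟨∅, C⟩, hC, by simp, by simp⟩ : S) (fun j p => nx p j) n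
  have hs : ∀ j, s (j + 1) = nx (s j) j := fun _ => rfl
  let b : ℕ → ℕ := fun j => bb (s j) j
  have hbD : ∀ j, b j ∈ (s j).1.2 := fun j => hbb _ _
  have hT : ∀ j, (s (j + 1)).1.1 = insert (b j) (s j).1.1 := fun j => hins _ _
  have hDs : ∀ j, (s (j + 1)).1.2 ⊆ (s j).1.2 := fun j => hsub _ _
  have hG : ∀ j Y, Y ⊆ (s (j + 1)).1.2 → Y.Infinite → j < h (↑(s (j + 1)).1.1 ∪ Y) :=
    fun j => hgr _ _
  have hTm : Monotone fun j => (s j).1.1 := monotone_nat_of_le_succ fun j => by
    rw [hT]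
    exact Finset.subset_insert _ _
  have hDa : Antitone fun j => (s j).1.2 := antitone_nat_of_succ_le fun j => hDs j
  have hbT : ∀ i j, i < j → b i ∈ (s j).1.1 := by
    intro i j hij
    refine hTm (show i + 1 ≤ j from hij) ?_
    show b i ∈ (s (i + 1)).1.1
    rw [hT]
    exact Finset.mem_insert_self _ _
  have hbm : StrictMono b := strictMono_nat_of_lt_succ fun j =>
    (s (j + 1)).2.2.2 _ (hbT j (j + 1) (Nat.lt_succ_self j)) _ (hbD (j + 1))
  let X : Set ℕ := range b
  have hXi : X.Infinite := infinite_range_of_injective hbm.injective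
  have hTX : ∀ j, (↑(s j).1.1 : Set ℕ) ⊆ X := by
    intro j
    induction j with
    | zero =>
      intro x hx
      have hx : x ∈ (∅ : Finset ℕ) := hx
      simp at hx
    | succ j ih =>
      intro x hx
      have hx : x ∈ (s (j + 1)).1.1 := hx
      rw [hT, Finset.mem_insert] at hx
      rcases hx with rfl | hx
      · exact ⟨j, rfl⟩
      · exact ih hx
  have hXs : ∀ j, X ⊆ ↑(s j).1.1 ∪ (s j).1.2 := by
    rintro j _ ⟨i, rfl⟩
    rcases Nat.lt_or_ge i j with hij | hij
    · exact Or.inl (hbT i j hij)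
    · exact Or.inr (hDa hij (hbD i))
  have hfin : ∀ j, j < h X := by
    intro j
    have h1 : X \ ↑(s (j + 1)).1.1 ⊆ (s (j + 1)).1.2 := fun x hx =>
      (hXs (j + 1) hx.1).resolve_left hx.2
    have h2 : (X \ ↑(s (j + 1)).1.1).Infinite := hXi.sdiff (Finset.finite_toSet _)
    have h3 := hG j _ h1 h2
    rw [union_sdiff_cancel (hTX (j + 1))] at h3
    exact h3
  exact lt_irrefl _ (hfin (h X))

end Pool.MP_0d2ef4_co
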