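import Pool.Agent.Work.MP_0d2ef4_co.HC.Stmts
import Pool.Agent.Work.MP_0d2ef4_co.WQ.Basic
import Pool.Agent.Work.MP_0d2ef4_co.WQ.Arr

/-!
# Block HC, item CMP: components
-/

set_option autoImplicit false

namespace Pool.MP_0d2ef4_co

open Set Filter

universe u v

namespace HX_CMP

/-- the family of the components -/
def fam {L : Type v} (c : CS.{u} L) : Fam.{u} (CS.{u} L) where
  I := {C : Set c.W // ∃ a ∈ c.S, C = cmp c.H c.S a}
  x := fun C => ⟨c.W, c.H, C.1, c.lab⟩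

/-- an injection of the components gives a labelled minor -/
theorem cm_of_fam {L : Type v} {leL : L → L → Prop} {x y : CS.{u} L}
    (h : Fam.le (CM.{u} leL) (fam x) (fam y)) : CM leL x y := by
  classical
  obtain ⟨σ, hσ, hM⟩ := h
  have hM' : ∀ C : {C : Set x.W // ∃ a ∈ x.S, C = cmp x.H x.S a},
      ∃ M : x.W → Set y.W,
        (∀ a ∈ C.1, M a ⊆ (σ C).1 ∧ (∀ p ∈ M a, ∀ q ∈ M a, Cn y.H (M a) p q) ∧
          ∃ p ∈ M a, leL (x.lab a) (y.lab p)) ∧
        (∀ a ∈ C.1, ∀ b ∈ C.1, a ≠ b → Disjoint (M a) (M b)) ∧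
        ∀ a ∈ C.1, ∀ b ∈ C.1, x.H.Adj a b → ∃ p ∈ M a, ∃ q ∈ M b, y.H.Adj p q :=
    fun C => hM C
  choose M hM1 hM2 hM3 using hM'
  let cp : ∀ a, a ∈ x.S → {C : Set x.W // ∃ a ∈ x.S, C = cmp x.H x.S a} :=
    fun a ha => ⟨cmp x.H x.S a, a, ha, rfl⟩
  let N : x.W → Set y.W := fun a => if ha : a ∈ x.S then M (cp a ha) a else ∅
  have hN : ∀ a (ha : a ∈ x.S), N a = M (cp a ha) a := fun a ha => dif_pos ha
  have hself : ∀ a (ha : a ∈ x.S), a ∈ (cp a ha).1 := fun a ha => self_mem_cmp ha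
  refine ⟨N, ?_, ?_, ?_⟩
  · intro a ha
    rw [hN a ha]
    obtain ⟨h1, h2, h3⟩ := hM1 (cp a ha) a (hself a ha)
    refine ⟨fun p hp => ?_, h2, h3⟩
    obtain ⟨b, hb, hbe⟩ := (σ (cp a ha)).2
    have h4 := h1 hp
    rw [hbe] at h4
    exact cmp_subset h4
  · intro a ha b hb hab
    rw [hN a ha, hN b hb]
    by_cases hc : cp a ha = cp b hb
    · have hb' : b ∈ (cp a ha).1 := by
        rw [hc]
        exact hself b hb
      have h1 := hM2 (cp a ha) a (hself a ha) b hb' hab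
      rw [← hc]
      exact h1
    · rw [Set.disjoint_left]
      intro p hp hp'
      have h1 := (hM1 _ _ (hself a ha)).1 hp
      have h2 := (hM1 _ _ (hself b hb)).1 hp'
      apply hc
      apply hσ
      apply Subtype.ext
      obtain ⟨a', ha', hae⟩ := (σ (cp a ha)).2
      obtain ⟨b', hb', hbe⟩ := (σ (cp b hb)).2
      rw [hae] at h1 ⊢
      rw [hbe] at h2 ⊢
      rw [cmp_eq h1, cmp_eq h2]
  · intro a ha b hb hab
    rw [hN a ha, hN b hb]
    have hc : cp a ha = cp b hb := by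
      apply Subtype.ext
      exact cmp_eq (Cn.of_adj ha hb hab)
    have hb' : b ∈ (cp a ha).1 := by
      rw [hc]
      exact hself b hb
    have h1 := hM3 (cp a ha) a (hself a ha) b hb' hab
    rw [← hc]
    exact h1

end HX_CMP

/-- CMP: components. -/
theorem prH_CMP (hf : FamStmt.{u, u + 1}) : H_CMP.{u} := by
  intro K hK L leL P A hNB B hBA hBi f hf' hP
  have h1 := hf (CS.{u} L) (CM.{u} leL) _ A (hK L leL P A hNB)
  obtain ⟨X, hXB, hXi, hle⟩ := h1 B hBA hBi (fun X => HX_CMP.fam (f X))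
    (hf'.comp (fun c => HX_CMP.fam c)) (by
      intro X hXB hXi C
      obtain ⟨hr, hk, hl⟩ := hP X hXB hXi
      obtain ⟨a, ha, hC⟩ := C.2
      have hsub : C.1 ⊆ (f X).S := by
        rw [hC]
        exact cmp_subset
      refine ⟨hr.mono hsub, ?_, fun w hw => hl w (hsub hw)⟩
      have h2 := hk a ha
      rw [← hC] at h2
      exact h2)
  exact ⟨X, hXB, hXi, HX_CMP.cm_of_fam hle⟩

end Pool.MP_0d2ef4_co
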