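import Pool.Agent.Work.MP_0d2ef4_co.HC.Stmts
import Pool.Agent.Work.MP_0d2ef4_co.WQ.Basic
import Pool.Agent.Work.MP_0d2ef4_co.WQ.Arr

/-!
# Item DEL of block HC: deletion of several vertices
-/

namespace Pool.MP_0d2ef4_co

open Set

universe u v

namespace HX_DEL

/-- A kind contained in a good kind is good. -/
theorem good_mono {K K' : Kd.{u}} (hK : Good K)
    (h : ∀ (V : Type u) (G : SimpleGraph V) (S : Set V), K' V G S → K V G S) : Good K' := by
  intro L leL P A hNB
  exact (hK L leL P A hNB).mono' fun X _ q hq => ⟨hq.1, h _ _ _ hq.2.1, hq.2.2⟩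

theorem delK_zero (K : Kd.{u}) (V : Type u) (G : SimpleGraph V) (S : Set V)
    (h : DelK 0 K V G S) : K V G S := by
  obtain ⟨F, hF, hK⟩ := h
  have h1 : F = ∅ := Finset.card_eq_zero.mp (Nat.le_zero.mp hF)
  rw [h1, Finset.coe_empty, Set.sdiff_empty] at hK
  exact hK

theorem delK_succ (m : ℕ) (K : Kd.{u}) (V : Type u) (G : SimpleGraph V) (S : Set V)
    (h : DelK (m + 1) K V G S) : Del1K (DelK m K) V G S := by
  classical
  obtain ⟨F, hF, hK⟩ := h
  rcases Nat.lt_or_ge m F.card with h1 | h1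
  · obtain ⟨v, hv⟩ := Finset.card_pos.mp (lt_of_le_of_lt (Nat.zero_le m) h1)
    have h2 : (F.erase v).card ≤ m := by
      rw [Finset.card_erase_of_mem hv]
      omega
    by_cases hvS : v ∈ S
    · refine Or.inr ⟨v, hvS, F.erase v, h2, ?_⟩
      have h3 : (S \ {v}) \ (↑(F.erase v) : Set V) = S \ ↑F := by
        ext x
        simp only [Set.mem_sdiff, Set.mem_singleton_iff, Finset.mem_coe, Finset.mem_erase]
        constructor
        · rintro ⟨⟨h4, h5⟩, h6⟩
          exact ⟨h4, fun h7 => h6 ⟨h5, h7⟩⟩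
        · rintro ⟨h4, h5⟩
          exact ⟨⟨h4, fun h6 => h5 (h6 ▸ hv)⟩, fun h6 => h5 h6.2⟩
      rw [h3]
      exact hK
    · refine Or.inl ⟨F.erase v, h2, ?_⟩
      have h3 : S \ (↑(F.erase v) : Set V) = S \ ↑F := by
        ext x
        simp only [Set.mem_sdiff, Finset.mem_coe, Finset.mem_erase]
        constructor
        · rintro ⟨h4, h6⟩
          exact ⟨h4, fun h7 => h6 ⟨fun h8 => hvS (h8 ▸ h4), h7⟩⟩
        · rintro ⟨h4, h5⟩
          exact ⟨h4, fun h6 => h5 h6.2⟩
      rw [h3]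
      exact hK
  · exact Or.inl ⟨F, h1, hK⟩

end HX_DEL

theorem prH_DEL (h : H_DEL1.{u}) : H_DEL.{u} := by
  intro m
  induction m with
  | zero =>
    intro K hK
    exact HX_DEL.good_mono hK fun V G S => HX_DEL.delK_zero K V G S
  | succ m ih =>
    intro K hK
    exact HX_DEL.good_mono (h (DelK m K) (ih K hK)) fun V G S => HX_DEL.delK_succ m K V G S

end Pool.MP_0d2ef4_co
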