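import Pool.Agent.Work.MP_0d2ef4_co.HC.Stmts
import Pool.Agent.Work.MP_0d2ef4_co.WQ.Basic
import Pool.Agent.Work.MP_0d2ef4_co.WQ.Arr

/-!
# Block HC, item DEL1: deletion of one vertex
-/

set_option autoImplicit false

namespace Pool.MP_0d2ef4_co

open Set Filter

universe u v

namespace HX_DEL1

/-- the label of a vertex together with the adjacency to the deleted vertex -/
def le2 {L : Type v} (leL : L → L → Prop) (a b : L × Prop) : Prop := leL a.1 b.1 ∧ (a.2 ↔ b.2)

/-- the labelled graph without the vertex `v` -/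
def del {L : Type v} (x : CS.{u} L) (v : x.W) : CS.{u} (L × Prop) :=
  ⟨x.W, x.H, x.S \ {v}, fun w => (x.lab w, x.H.Adj w v)⟩

open Classical in
/-- the deleted vertex is put back -/
theorem glue {L : Type v} (leL : L → L → Prop) (x y : CS.{u} L) (v : x.W)
    (v' : y.W) (hv' : v' ∈ y.S) (hl : leL (x.lab v) (y.lab v'))
    (h : CM (le2 leL) (del x v) (del y v')) : CM leL x y := by
  obtain ⟨M0, h1, h2, h3⟩ := h
  let M : x.W → Set y.W := M0
  have g1 : ∀ a ∈ x.S \ {v}, M a ⊆ y.S \ {v'} ∧ (∀ p ∈ M a, ∀ q ∈ M a, Cn y.H (M a) p q) ∧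
      ∃ p ∈ M a, leL (x.lab a) (y.lab p) ∧ (x.H.Adj a v ↔ y.H.Adj p v') := h1
  have g2 : ∀ a ∈ x.S \ {v}, ∀ b ∈ x.S \ {v}, a ≠ b → Disjoint (M a) (M b) := h2
  have g3 : ∀ a ∈ x.S \ {v}, ∀ b ∈ x.S \ {v}, x.H.Adj a b → ∃ p ∈ M a, ∃ q ∈ M b, y.H.Adj p q :=
    h3
  obtain ⟨M', m1, m2⟩ : ∃ M' : x.W → Set y.W, M' v = {v'} ∧ ∀ a, a ≠ v → M' a = M a :=
    ⟨fun a => if a = v then {v'} else M a, if_pos rfl, fun a ha => if_neg ha⟩
  refine ⟨M', ?_, ?_, ?_⟩
  · intro a ha
    by_cases hav : a = v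
    · rw [hav, m1]
      refine ⟨?_, ?_, v', rfl, hl⟩
      · intro p hp
        have hp' : p = v' := hp
        rw [hp']
        exact hv'
      · intro p hp q hq
        have hp' : p = v' := hp
        have hq' : q = v' := hq
        rw [hp', hq']
        exact Cn.refl rfl
    · rw [m2 a hav]
      obtain ⟨k1, k2, p, hp, hp2, -⟩ := g1 a ⟨ha, hav⟩
      exact ⟨fun z hz => (k1 hz).1, k2, p, hp, hp2⟩
  · intro a ha b hb hab
    have key : ∀ c ∈ x.S, c ≠ v → Disjoint ({v'} : Set y.W) (M c) := by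
      intro c hc hcv
      rw [Set.disjoint_left]
      intro z hz hz'
      have hz2 : z = v' := hz
      exact ((g1 c ⟨hc, hcv⟩).1 hz').2 hz2
    by_cases hav : a = v
    · have hbv : b ≠ v := fun h => hab (hav.trans h.symm)
      rw [hav, m1, m2 b hbv]
      exact key b hb hbv
    · by_cases hbv : b = v
      · rw [hbv, m1, m2 a hav]
        exact (key a ha hav).symm
      · rw [m2 a hav, m2 b hbv]
        exact g2 a ⟨ha, hav⟩ b ⟨hb, hbv⟩ hab
  · intro a ha b hb hab
    by_cases hav : a = v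
    · have hbv : b ≠ v := fun h => x.H.ne_of_adj hab (hav.trans h.symm)
      rw [hav] at hab
      rw [hav, m1, m2 b hbv]
      obtain ⟨-, -, p, hp, -, hp3⟩ := g1 b ⟨hb, hbv⟩
      exact ⟨v', rfl, p, hp, (hp3.1 hab.symm).symm⟩
    · by_cases hbv : b = v
      · rw [hbv] at hab
        rw [hbv, m1, m2 a hav]
        obtain ⟨-, -, p, hp, -, hp3⟩ := g1 a ⟨ha, hav⟩
        exact ⟨p, hp, v', rfl, hp3.1 hab⟩
      · rw [m2 a hav, m2 b hbv]
        exact g3 a ⟨ha, hav⟩ b ⟨hb, hbv⟩ hab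

/-- there is a vertex whose deletion leads to `K` -/
def q {L : Type v} (K : Kd.{u}) (c : CS.{u} L) : Prop := ∃ v ∈ c.S, K c.W c.H (c.S \ {v})

open Classical in
/-- the label of the deleted vertex -/
noncomputable def lab0 {L : Type v} (K : Kd.{u}) (l0 : L) (c : CS.{u} L) : L :=
  if h : q K c then c.lab h.choose else l0

open Classical in
/-- the rest -/
noncomputable def rest {L : Type v} (K : Kd.{u}) (c : CS.{u} L) : CS.{u} (L × Prop) :=
  if h : q K c then del c h.choose else ⟨c.W, c.H, ∅, fun w => (c.lab w, False)⟩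

theorem lab0_pos {L : Type v} (K : Kd.{u}) (l0 : L) (c : CS.{u} L) (h : q K c) :
    lab0 K l0 c = c.lab h.choose := by
  unfold lab0
  rw [dif_pos h]

theorem rest_pos {L : Type v} (K : Kd.{u}) (c : CS.{u} L) (h : q K c) :
    rest K c = del c h.choose := by
  unfold rest
  rw [dif_pos h]

end HX_DEL1

open HX_DEL1 in
theorem prH_DEL1 (hp : H_PRD.{u + 1}) : H_DEL1.{u} := by
  intro K hK L leL P A hNB B hBA hBi f hf hP
  obtain ⟨B1, hB1, hB1i, hB1c⟩ := gp_pred (p := fun X => K (f X).W (f X).H (f X).S)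
    (hf.measurableSet_setOf (fun c : CS.{u} L => K c.W c.H c.S)) hBi
  rcases hB1c with h | h
  · obtain ⟨X, hX, hXi, hX2⟩ := hK L leL P A hNB B1 (hB1.trans hBA) hB1i f hf
      (fun X hX hXi => ⟨(hP X (hX.trans hB1) hXi).1, h X hX hXi, (hP X (hX.trans hB1) hXi).2.2⟩)
    exact ⟨X, hX.trans hB1, hXi, hX2⟩
  · have hq : ∀ X, X ⊆ B1 → X.Infinite → q K (f X) := by
      intro X hX hXi
      rcases (hP X (hX.trans hB1) hXi).2.1 with h' | h'
      · exact absurd h' (h X hX hXi)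
      · exact h'
    have hlab : ∀ X (hX : X ⊆ B1) (hXi : X.Infinite), P X ((f X).lab (hq X hX hXi).choose) := by
      intro X hX hXi
      exact (hP X (hX.trans hB1) hXi).2.2 _ (hq X hX hXi).choose_spec.1
    set l0 : L := (f B1).lab (hq B1 Subset.rfl hB1i).choose with hl0
    obtain ⟨C, hC, hCi, hCp⟩ := hNB.perfect (hB1.trans hBA) hB1i (hf.comp (lab0 K l0))
      (fun X hX hXi => by
        rw [lab0_pos K l0 (f X) (hq X hX hXi)]
        exact hlab X hX hXi)
    obtain ⟨X, hX, hXi, hXm⟩ := hK (L × Prop) (le2 leL) (fun X a => P X a.1) A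
      (hp L leL P A hNB).1 C ((hC.trans hB1).trans hBA) hCi (fun X => rest K (f X))
      (hf.comp (rest K)) (fun X hX hXi => by
        have h1 := hq X (hX.trans hC) hXi
        rw [rest_pos K (f X) h1]
        have h2 := hP X ((hX.trans hC).trans hB1) hXi
        exact ⟨h2.1.mono sdiff_subset, h1.choose_spec.2, fun w hw => h2.2.2 w hw.1⟩)
    have h1 := hq X (hX.trans hC) hXi
    have h2 := hq (tl X) (((tl_subset X).trans hX).trans hC) (tl_infinite hXi)
    have h3 := hCp X hX hXi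
    rw [lab0_pos K l0 (f X) h1, lab0_pos K l0 (f (tl X)) h2] at h3
    rw [rest_pos K (f X) h1, rest_pos K (f (tl X)) h2] at hXm
    exact ⟨X, (hX.trans hC).trans hB1, hXi,
      glue leL (f X) (f (tl X)) h1.choose h2.choose h2.choose_spec.1 h3 hXm⟩

end Pool.MP_0d2ef4_co
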