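import Pool.Agent.Work.MP_0d2ef4_co.HC.Stmts
import Pool.Agent.Work.MP_0d2ef4_co.WQ.Basic
import Pool.Agent.Work.MP_0d2ef4_co.WQ.Top

/-! Block HC, item EQV (helper12): the definitions of the statement and the internal ones. -/

namespace Pool.MP_0d2ef4_co

open Set

universe u v

namespace HX_EQV

lemma isComp_cmp {V : Type u} (G : SimpleGraph V) (S : Set V) (a : V) (ha : a ∈ S) :
    IsComp G S (cmp G S a) := by
  refine ⟨cmp_subset, connected_of_cn ⟨a, self_mem_cmp ha⟩ (fun b hb c hc => cmp_conn hb hc), ?_⟩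
  intro C' h1 h2 h3
  refine Set.Subset.antisymm ?_ h3
  intro x hx
  have hc : Cn G C' a x :=
    cn_of_reachable (h2.preconnected ⟨a, h3 (self_mem_cmp ha)⟩ ⟨x, hx⟩)
  exact hc.mono h1

lemma un_of_unsep {V : Type u} {G : SimpleGraph V} {k : ℕ} {S : Set V} (h : Unsep G k S) :
    Un G k S := by
  intro F hF a ha b hb
  exact cn_of_reachable (h F hF ⟨a, ha⟩ ⟨b, hb⟩)

lemma isBlock_of {V : Type u} {G : SimpleGraph V} {S B : Set V} (h : BlkOn G S B) :
    IsBlock G S B := by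
  obtain ⟨h1, h2, h3⟩ := h
  refine ⟨h1, twoCon_iff.2 h2, ?_⟩
  intro B' g1 g2 g3
  exact Set.Subset.antisymm (h3 B' g1 (twoCon_iff.1 g2) g3) g3

end HX_EQV

theorem prH_EQV : H_EQV.{u} := by
  intro s m k
  induction k with
  | zero =>
    intro V G S h a ha
    obtain ⟨h1, h2⟩ := h _ (HX_EQV.isComp_cmp G S a ha)
    exact ⟨h1, HX_EQV.un_of_unsep h2⟩
  | succ k ih =>
    intro V G S h B hB
    obtain ⟨F, h1, h2⟩ := h B (HX_EQV.isBlock_of hB)
    exact ⟨F, h1, ih V G _ h2⟩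

end Pool.MP_0d2ef4_co
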