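import Pool.Agent.Work.MP_0d2ef4_co.HC.Stmts
import Pool.Agent.Work.MP_0d2ef4_co.WQ.Basic

/-!
# Block HC, item GLU: gluing labelled rooted minors along an injection of the blocks
-/

set_option autoImplicit false

namespace Pool.MP_0d2ef4_co

open Set

universe u v

namespace HX_GLU

variable {L : Type v}

/-- The index of the component of a child. -/
def idx (x : LRG.{u} L) (a : x.V) (ha : a ∈ Ch x.G x.r x.v) : x.fam.I :=
  ⟨cmp x.G (Ch x.G x.r x.v) a, a, ha, rfl⟩

lemma idx_eq (x : LRG.{u} L) {a b : x.V} (ha : a ∈ Ch x.G x.r x.v)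
    (hb : b ∈ Ch x.G x.r x.v) (h : Cn x.G (Ch x.G x.r x.v) a b) :
    idx x a ha = idx x b hb :=
  Subtype.ext (cmp_eq h)

lemma idx_self (x : LRG.{u} L) {a : x.V} (ha : a ∈ Ch x.G x.r x.v) : a ∈ (idx x a ha).1 :=
  self_mem_cmp ha

lemma idx_sub (x : LRG.{u} L) (i : x.fam.I) : i.1 ⊆ Ch x.G x.r x.v := by
  obtain ⟨C, c, hc, rfl⟩ := i
  exact cmp_subset

lemma idx_ne (x : LRG.{u} L) (i j : x.fam.I) (p : x.V) (hi : p ∈ i.1) (hj : p ∈ j.1) : i = j := by
  obtain ⟨C, c, hc, rfl⟩ := i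
  obtain ⟨D, d, hd, rfl⟩ := j
  refine Subtype.ext ?_
  change cmp x.G (Ch x.G x.r x.v) c = cmp x.G (Ch x.G x.r x.v) d
  rw [cmp_eq (mem_cmp.1 hi), cmp_eq (mem_cmp.1 hj)]

/-- The data extracted from an injection of the blocks. -/
structure Dt (leL : L → L → Prop) (x y : LRG.{u} L) (B : x.V → Set y.V) (P : x.V → y.V)
    (A : Set y.V) : Prop where
  PB : ∀ w ∈ Ch x.G x.r x.v, P w ∈ B w
  BCh : ∀ w ∈ Ch x.G x.r x.v, B w ⊆ Ch y.G y.r y.v
  Bc : ∀ w ∈ Ch x.G x.r x.v, ∀ p ∈ B w, ∀ q ∈ B w, Cn y.G (B w) p q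
  min : ∀ w ∈ Ch x.G x.r x.v, LRM leL ⟨x.V, x.G, x.r, w, x.lab⟩ ⟨y.V, y.G, y.r, P w, y.lab⟩
  dis : ∀ w ∈ Ch x.G x.r x.v, ∀ w' ∈ Ch x.G x.r x.v, w ≠ w' → Disjoint (B w) (B w')
  ACh : A ⊆ insert y.v (Ch y.G y.r y.v)
  vA : y.v ∈ A
  Ac : ∀ p ∈ A, ∀ q ∈ A, Cn y.G A p q
  AB : ∀ w ∈ Ch x.G x.r x.v, Disjoint A (B w)
  adj : ∀ w ∈ Ch x.G x.r x.v, ∀ w' ∈ Ch x.G x.r x.v, x.G.Adj w w' →
    ∃ p ∈ B w, ∃ q ∈ B w', y.G.Adj p q
  vadj : ∀ w ∈ Ch x.G x.r x.v, x.G.Adj x.v w → ∃ p ∈ A, ∃ q ∈ B w, y.G.Adj p q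

lemma ch_ne {V : Type u} {G : SimpleGraph V} {r v w : V} (h : w ∈ Ch G r v) : w ≠ v := h.2.1

lemma data (leL : L → L → Prop) (x y : LRG.{u} L)
    (h : Fam.le (CM.{u} (OptLe (LRM leL))) x.fam y.fam) :
    ∃ B P A, Dt leL x y B P A := by
  classical
  obtain ⟨σ, hσ, h⟩ := h
  choose N h1 h2 h3 using h
  -- the root is in the branch set of the root
  have hv : ∀ i : x.fam.I, y.v ∈ N i x.v := by
    intro i
    obtain ⟨_, _, p, hp, hle⟩ := h1 i x.v (Or.inl rfl)
    have e1 : (x.fam.x i).lab x.v = none := if_pos rfl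
    rw [e1] at hle
    by_cases hpv : p = y.v
    · rwa [hpv] at hp
    · exfalso
      have e2 : (y.fam.x (σ i)).lab p = some ⟨y.V, y.G, y.r, p, y.lab⟩ := if_neg hpv
      rw [e2] at hle
      exact hle
  have hsub : ∀ (i : x.fam.I) (a : x.V), a ∈ insert x.v i.1 → N i a ⊆ insert y.v (σ i).1 :=
    fun i a ha => (h1 i a ha).1
  have hcon : ∀ (i : x.fam.I) (a : x.V), a ∈ insert x.v i.1 →
      ∀ p ∈ N i a, ∀ q ∈ N i a, Cn y.G (N i a) p q :=
    fun i a ha => (h1 i a ha).2.1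
  have hne : ∀ (i : x.fam.I) (a : x.V), a ∈ i.1 → a ≠ x.v :=
    fun i a ha => ch_ne (idx_sub x i ha)
  have hsub' : ∀ (i : x.fam.I) (a : x.V), a ∈ i.1 → N i a ⊆ (σ i).1 := by
    intro i a ha p hp
    rcases hsub i a (Or.inr ha) hp with h4 | h4
    · exfalso
      have h5 := h2 i a (Or.inr ha) x.v (Or.inl rfl) (hne i a ha)
      rw [Set.disjoint_left] at h5
      refine h5 hp ?_
      rw [h4]
      exact hv i
    · exact h4
  have hlab : ∀ (i : x.fam.I) (a : x.V), a ∈ i.1 → ∃ p : y.V, p ∈ N i a ∧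
      LRM leL ⟨x.V, x.G, x.r, a, x.lab⟩ ⟨y.V, y.G, y.r, p, y.lab⟩ := by
    intro i a ha
    obtain ⟨_, _, p, hp, hle⟩ := h1 i a (Or.inr ha)
    have e1 : (x.fam.x i).lab a = some ⟨x.V, x.G, x.r, a, x.lab⟩ := if_neg (hne i a ha)
    have hpv : p ≠ y.v := by
      have h5 := idx_sub y (σ i) (hsub' i a ha hp)
      exact ch_ne h5
    have e2 : (y.fam.x (σ i)).lab p = some ⟨y.V, y.G, y.r, p, y.lab⟩ := if_neg hpv
    rw [e1, e2] at hle
    exact ⟨p, hp, hle⟩
  have : Nonempty y.V := ⟨y.v⟩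
  choose! Pf hP1 hP2 using hlab
  let B : x.V → Set y.V := fun a => if ha : a ∈ Ch x.G x.r x.v then N (idx x a ha) a else ∅
  let P : x.V → y.V := fun a => if ha : a ∈ Ch x.G x.r x.v then Pf (idx x a ha) a else y.v
  have hB : ∀ a (ha : a ∈ Ch x.G x.r x.v), B a = N (idx x a ha) a := fun a ha => dif_pos ha
  have hP : ∀ a (ha : a ∈ Ch x.G x.r x.v), P a = Pf (idx x a ha) a := fun a ha => dif_pos ha
  have hBσ : ∀ a (ha : a ∈ Ch x.G x.r x.v), B a ⊆ (σ (idx x a ha)).1 := by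
    intro a ha
    rw [hB a ha]
    exact hsub' _ a (idx_self x ha)
  refine ⟨B, P, {y.v} ∪ ⋃ i, N i x.v, ?_⟩
  constructor
  · intro w hw
    rw [hB w hw, hP w hw]
    exact hP1 _ w (idx_self x hw)
  · intro w hw
    exact (hBσ w hw).trans (idx_sub y _)
  · intro w hw
    rw [hB w hw]
    exact hcon _ w (Or.inr (idx_self x hw))
  · intro w hw
    rw [hP w hw]
    exact hP2 _ w (idx_self x hw)
  · intro w hw w' hw' hww
    by_cases hi : idx x w hw = idx x w' hw'
    · rw [hB w hw, hB w' hw', ← hi]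
      refine h2 _ w (Or.inr (idx_self x hw)) w' (Or.inr ?_) hww
      rw [hi]
      exact idx_self x hw'
    · rw [Set.disjoint_left]
      intro p hp hq
      exact hi (hσ (idx_ne y _ _ p (hBσ w hw hp) (hBσ w' hw' hq)))
  · rintro p (hp | hp)
    · exact Or.inl hp
    · obtain ⟨i, hi⟩ := Set.mem_iUnion.1 hp
      rcases hsub i x.v (Or.inl rfl) hi with h4 | h4
      · exact Or.inl h4
      · exact Or.inr (idx_sub y _ h4)
  · exact Or.inl rfl
  · have key : ∀ p ∈ ({y.v} ∪ ⋃ i, N i x.v : Set y.V),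
        Cn y.G ({y.v} ∪ ⋃ i, N i x.v : Set y.V) y.v p := by
      rintro p (hp | hp)
      · rw [show p = y.v from hp]
        exact Cn.refl (Or.inl rfl)
      · obtain ⟨i, hi⟩ := Set.mem_iUnion.1 hp
        refine (hcon i x.v (Or.inl rfl) y.v (hv i) p hi).mono ?_
        exact fun z hz => Or.inr (Set.mem_iUnion.2 ⟨i, hz⟩)
    intro p hp q hq
    exact (key p hp).symm.trans (key q hq)
  · intro w hw
    rw [Set.disjoint_left]
    rintro p (hp | hp) hq
    · have h5 := idx_sub y _ (hBσ w hw hq)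
      exact ch_ne h5 hp
    · obtain ⟨i, hi⟩ := Set.mem_iUnion.1 hp
      by_cases hiw : i = idx x w hw
      · subst hiw
        rw [hB w hw] at hq
        have h5 := h2 (idx x w hw) x.v (Or.inl rfl) w (Or.inr (idx_self x hw))
          (fun h => hne _ w (idx_self x hw) h.symm)
        rw [Set.disjoint_left] at h5
        exact h5 hi hq
      · rcases hsub i x.v (Or.inl rfl) hi with h4 | h4
        · have h5 := idx_sub y _ (hBσ w hw hq)
          exact ch_ne h5 h4
        · exact hiw (hσ (idx_ne y _ _ p h4 (hBσ w hw hq)))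
  · intro w hw w' hw' hww
    have hi : idx x w hw = idx x w' hw' := idx_eq x hw hw' (Cn.of_adj hw hw' hww)
    rw [hB w hw, hB w' hw', ← hi]
    refine h3 _ w (Or.inr (idx_self x hw)) w' (Or.inr ?_) hww
    rw [hi]
    exact idx_self x hw'
  · intro w hw hvw
    obtain ⟨p, hp, q, hq, hpq⟩ := h3 (idx x w hw) x.v (Or.inl rfl) w (Or.inr (idx_self x hw)) hvw
    refine ⟨p, Or.inr (Set.mem_iUnion.2 ⟨_, hp⟩), q, ?_, hpq⟩
    rw [hB w hw]
    exact hq

end HX_GLU

open HX_GLU in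
theorem prH_GLU (hd : DomFacts.{u}) : H_GLU.{u} := by
  classical
  intro L leL x y hx hy hlab hF
  obtain ⟨B, P, A, D⟩ := data leL x y hF
  have hR := D.min
  choose! R hR using hR
  have hR1 : ∀ w ∈ Ch x.G x.r x.v, ∀ a ∈ dom x.G x.r w, R w a ⊆ dom y.G y.r (P w) ∧
      (∀ p ∈ R w a, ∀ q ∈ R w a, Cn y.G (R w a) p q) ∧
      ∃ p ∈ R w a, leL (x.lab a) (y.lab p) := fun w hw => (hR w hw).1
  have hR2 : ∀ w ∈ Ch x.G x.r x.v, ∀ a ∈ dom x.G x.r w, ∀ b ∈ dom x.G x.r w, a ≠ b →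
      Disjoint (R w a) (R w b) := fun w hw => (hR w hw).2.1
  have hR3 : ∀ w ∈ Ch x.G x.r x.v, ∀ a ∈ dom x.G x.r w, ∀ b ∈ dom x.G x.r w, x.G.Adj a b →
      ∃ p ∈ R w a, ∃ q ∈ R w b, y.G.Adj p q := fun w hw => (hR w hw).2.2.1
  have hR4 : ∀ w ∈ Ch x.G x.r x.v, P w ∈ R w w := fun w hw => (hR w hw).2.2.2
  have ht : ∀ u : x.V, ∃ w, u ∈ dom x.G x.r x.v → u ≠ x.v →
      w ∈ Ch x.G x.r x.v ∧ u ∈ dom x.G x.r w := by
    intro u
    by_cases hu : u ∈ dom x.G x.r x.v ∧ u ≠ x.v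
    · obtain ⟨w, hw, hw'⟩ := hd.child x.G x.r x.v u hu.1 hu.2
      exact ⟨w, fun _ _ => ⟨hw, hw'⟩⟩
    · exact ⟨u, fun h1 h2 => absurd ⟨h1, h2⟩ hu⟩
  choose t ht using ht
  have hselfx : ∀ w ∈ Ch x.G x.r x.v, w ∈ dom x.G x.r w :=
    fun w hw => hd.self x.G x.r w hw.1.1
  have hselfy : ∀ w ∈ Ch y.G y.r y.v, w ∈ dom y.G y.r w :=
    fun w hw => hd.self y.G y.r w hw.1.1
  have htch : ∀ w ∈ Ch x.G x.r x.v, t w = w := by
    intro w hw
    have h1 := ht w hw.1 (ch_ne hw)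
    exact hd.child_unique x.G x.r x.v (t w) w w h1.1 hw h1.2 (hselfx w hw)
  have hPch : ∀ w ∈ Ch x.G x.r x.v, P w ∈ Ch y.G y.r y.v := fun w hw => D.BCh w hw (D.PB w hw)
  have hdomv : ∀ a, a ∈ Ch y.G y.r y.v → dom y.G y.r a ⊆ dom y.G y.r y.v :=
    fun a ha p hp => hd.trans y.G y.r y.v a p hp ha.1
  have hvnot : ∀ a, a ∈ Ch y.G y.r y.v → y.v ∉ dom y.G y.r a := by
    intro a ha hva
    exact ha.2.1 (hd.antisymm y.G y.r y.v a ha.1 hva).symm
  -- a child in a dominated set of `P w` is `P w`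
  have hPu : ∀ w ∈ Ch x.G x.r x.v, ∀ p ∈ Ch y.G y.r y.v, p ∈ dom y.G y.r (P w) → p = P w := by
    intro w hw p hp hpw
    exact hd.child_unique y.G y.r y.v p (P w) p hp (hPch w hw) (hselfy p hp) hpw
  let M : x.V → Set y.V := fun u =>
    if u = x.v then A else R (t u) u ∪ {p | u ∈ Ch x.G x.r x.v ∧ p ∈ B u}
  have hMv : M x.v = A := if_pos rfl
  have hMu : ∀ u, u ≠ x.v → M u = R (t u) u ∪ {p | u ∈ Ch x.G x.r x.v ∧ p ∈ B u} :=
    fun u hu => if_neg hu
  have hroot : ∀ u, u ∈ dom x.G x.r x.v → (huv : u ≠ x.v) → ∀ z, x.G.Adj u z →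
      z ∉ dom x.G x.r (t u) → u ∈ Ch x.G x.r x.v := by
    intro u hu huv z huz hz
    have h1 : t u = u := by
      by_contra hne
      exact hz (hd.bdry x.G x.r (t u) u z (ht u hu huv).2 (fun h => hne h.symm) huz)
    have := (ht u hu huv).1
    rwa [h1] at this
  have hvt : ∀ u, u ∈ dom x.G x.r x.v → u ≠ x.v → x.v ∉ dom x.G x.r (t u) := by
    intro u hu huv hv
    exact (ht u hu huv).1.2.1 (hd.antisymm x.G x.r x.v (t u) (ht u hu huv).1.1 hv).symm
  have hve : ∀ u, u ∈ dom x.G x.r x.v → u ≠ x.v → x.G.Adj x.v u →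
      ∃ p ∈ A, ∃ q ∈ M u, y.G.Adj p q := by
    intro u hu huv hvu
    have h1 : u ∈ Ch x.G x.r x.v := hroot u hu huv x.v hvu.symm (hvt u hu huv)
    obtain ⟨p, hp, q, hq, hpq⟩ := D.vadj u h1 hvu
    refine ⟨p, hp, q, ?_, hpq⟩
    rw [hMu u huv]
    exact Or.inr ⟨h1, hq⟩
  refine ⟨M, ?_, ?_, ?_, ?_⟩
  · intro a ha
    by_cases hav : a = x.v
    · subst hav
      rw [hMv]
      refine ⟨?_, D.Ac, y.v, D.vA, hlab⟩
      intro p hp
      rcases D.ACh hp with h1 | h1
      · rw [h1]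
        exact hd.self y.G y.r y.v hy
      · exact h1.1
    · have h1 := hR1 (t a) (ht a ha hav).1 a (ht a ha hav).2
      rw [hMu a hav]
      refine ⟨?_, ?_, ?_⟩
      · rintro p (hp | ⟨hc, hp⟩)
        · exact hdomv _ (hPch _ (ht a ha hav).1) (h1.1 hp)
        · exact (D.BCh a hc hp).1
      · by_cases hc : a ∈ Ch x.G x.r x.v
        · have hta := htch a hc
          have e : (R (t a) a ∪ {p | a ∈ Ch x.G x.r x.v ∧ p ∈ B a}) = R a a ∪ B a := by
            rw [hta]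
            ext p
            simp [hc]
          rw [e]
          rw [hta] at h1
          have key : ∀ p ∈ R a a ∪ B a, Cn y.G (R a a ∪ B a) (P a) p := by
            rintro p (hp | hp)
            · exact (h1.2.1 (P a) (hR4 a hc) p hp).mono subset_union_left
            · exact (D.Bc a hc (P a) (D.PB a hc) p hp).mono subset_union_right
          intro p hp q hq
          exact (key p hp).symm.trans (key q hq)
        · have e : (R (t a) a ∪ {p | a ∈ Ch x.G x.r x.v ∧ p ∈ B a}) = R (t a) a := by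
            ext p
            simp [hc]
          rw [e]
          exact h1.2.1
      · obtain ⟨p, hp, hle⟩ := h1.2.2
        exact ⟨p, Or.inl hp, hle⟩
  · have hdis : ∀ b, b ∈ dom x.G x.r x.v → b ≠ x.v → Disjoint (M x.v) (M b) := by
      intro b hb hbv
      rw [hMv, hMu b hbv, Set.disjoint_left]
      rintro p hp (hq | ⟨hc, hq⟩)
      · have h1 := (hR1 (t b) (ht b hb hbv).1 b (ht b hb hbv).2).1 hq
        rcases D.ACh hp with h2 | h2
        · rw [h2] at h1
          exact hvnot _ (hPch _ (ht b hb hbv).1) h1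
        · have h3 := hPu (t b) (ht b hb hbv).1 p h2 h1
          rw [h3] at hp
          exact Set.disjoint_left.1 (D.AB (t b) (ht b hb hbv).1) hp (D.PB _ (ht b hb hbv).1)
      · exact Set.disjoint_left.1 (D.AB b hc) hp hq
    have hBR : ∀ a b, a ∈ dom x.G x.r x.v → a ≠ x.v → b ∈ dom x.G x.r x.v → b ≠ x.v → a ≠ b →
        a ∈ Ch x.G x.r x.v → ∀ p, p ∈ B a → p ∉ R (t b) b := by
      intro a b ha hav hb hbv hab hc p hp hq
      have h1 := (hR1 (t b) (ht b hb hbv).1 b (ht b hb hbv).2).1 hq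
      have h3 := hPu (t b) (ht b hb hbv).1 p (D.BCh a hc hp) h1
      by_cases hatb : a = t b
      · have h4 := hR2 (t b) (ht b hb hbv).1 a (by rw [← hatb]; exact hselfx a hc) b
          (ht b hb hbv).2 hab
        refine Set.disjoint_left.1 h4 ?_ hq
        rw [h3, hatb]
        exact hR4 (t b) (ht b hb hbv).1
      · have h4 := D.dis a hc (t b) (ht b hb hbv).1 hatb
        refine Set.disjoint_left.1 h4 hp ?_
        rw [h3]
        exact D.PB _ (ht b hb hbv).1
    intro a ha b hb hab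
    by_cases hav : a = x.v
    · subst hav
      exact hdis b hb (fun h => hab h.symm)
    · by_cases hbv : b = x.v
      · subst hbv
        exact (hdis a ha hav).symm
      · rw [hMu a hav, hMu b hbv, Set.disjoint_left]
        rintro p (hp | ⟨hc, hp⟩) (hq | ⟨hc', hq⟩)
        · by_cases htt : t a = t b
          · have h1 := hR2 (t a) (ht a ha hav).1 a (ht a ha hav).2 b
              (by rw [htt]; exact (ht b hb hbv).2) hab
            rw [← htt] at hq
            exact Set.disjoint_left.1 h1 hp hq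
          · have hp' := (hR1 (t a) (ht a ha hav).1 a (ht a ha hav).2).1 hp
            have hq' := (hR1 (t b) (ht b hb hbv).1 b (ht b hb hbv).2).1 hq
            have h1 := hd.child_unique y.G y.r y.v (P (t a)) (P (t b)) p
              (hPch _ (ht a ha hav).1) (hPch _ (ht b hb hbv).1) hp' hq'
            refine Set.disjoint_left.1 (D.dis (t a) (ht a ha hav).1 (t b) (ht b hb hbv).1 htt)
              (D.PB _ (ht a ha hav).1) ?_
            rw [h1]
            exact D.PB _ (ht b hb hbv).1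
        · exact hBR b a hb hbv ha hav (fun h => hab h.symm) hc' p hq hp
        · exact hBR a b ha hav hb hbv hab hc p hp hq
        · exact Set.disjoint_left.1 (D.dis a hc b hc' hab) hp hq
  · intro a ha b hb hab
    by_cases hav : a = x.v
    · subst hav
      have hbv : b ≠ x.v := fun h => by
        rw [h] at hab
        exact x.G.irrefl hab
      obtain ⟨p, hp, q, hq, hpq⟩ := hve b hb hbv hab
      exact ⟨p, by rw [hMv]; exact hp, q, hq, hpq⟩
    · by_cases hbv : b = x.v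
      · subst hbv
        obtain ⟨p, hp, q, hq, hpq⟩ := hve a ha hav hab.symm
        exact ⟨q, hq, p, by rw [hMv]; exact hp, hpq.symm⟩
      · by_cases htt : t a = t b
        · obtain ⟨p, hp, q, hq, hpq⟩ := hR3 (t a) (ht a ha hav).1 a (ht a ha hav).2 b
            (by rw [htt]; exact (ht b hb hbv).2) hab
          refine ⟨p, ?_, q, ?_, hpq⟩
          · rw [hMu a hav]
            exact Or.inl hp
          · rw [hMu b hbv, ← htt]
            exact Or.inl hq
        · have hca : a ∈ Ch x.G x.r x.v := by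
            refine hroot a ha hav b hab ?_
            intro h
            exact htt (hd.child_unique x.G x.r x.v (t a) (t b) b (ht a ha hav).1
              (ht b hb hbv).1 h (ht b hb hbv).2)
          have hcb : b ∈ Ch x.G x.r x.v := by
            refine hroot b hb hbv a hab.symm ?_
            intro h
            exact htt (hd.child_unique x.G x.r x.v (t a) (t b) a (ht a ha hav).1
              (ht b hb hbv).1 (ht a ha hav).2 h)
          obtain ⟨p, hp, q, hq, hpq⟩ := D.adj a hca b hcb hab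
          refine ⟨p, ?_, q, ?_, hpq⟩
          · rw [hMu a hav]
            exact Or.inr ⟨hca, hp⟩
          · rw [hMu b hbv]
            exact Or.inr ⟨hcb, hq⟩
  · rw [hMv]
    exact D.vA

end Pool.MP_0d2ef4_co
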