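import Pool.Agent.Work.MP_0d2ef4_co.HC.Stmts
import Pool.Agent.Work.MP_0d2ef4_co.WQ.Basic
import Pool.Agent.Work.MP_0d2ef4_co.WQ.Arr

/-!
# Block HC, item HCN: highly connected finite sets are good
-/

set_option autoImplicit false

namespace Pool.MP_0d2ef4_co

open Set Filter

universe u v

namespace HX_HCN

/-- The family of the labels. -/
def labs {L : Type (u + 1)} (c : CS.{u} L) : Fam.{u} L := ⟨c.S, fun a => c.lab a⟩

/-- A rooted complete minor at the images of the vertices gives a labelled minor. -/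
theorem cm_of_root {L : Type (u + 1)} (leL : L → L → Prop) (x y : CS.{u} L)
    (σ : x.S → y.S) (hle : ∀ a : x.S, leL (x.lab a) (y.lab (σ a)))
    (hr : RootK y.H y.S (fun a : x.S => ((σ a : y.S) : y.W))) : CM leL x y := by
  classical
  obtain ⟨M, h1, h2, h3⟩ := hr
  refine ⟨fun a => if h : a ∈ x.S then M ⟨a, h⟩ else ∅, ?_, ?_, ?_⟩
  · intro a ha
    simp only [ha, dif_pos]
    obtain ⟨h4, h5, h6⟩ := h1 ⟨a, ha⟩
    exact ⟨h5, h6, _, h4, hle ⟨a, ha⟩⟩
  · intro a ha b hb hab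
    simp only [ha, hb, dif_pos]
    exact h2 _ _ fun h => hab (congrArg Subtype.val h)
  · intro a ha b hb hab
    simp only [ha, hb, dif_pos]
    exact h3 _ _ fun h => hab.ne (congrArg Subtype.val h)

/-- Enumerations of the two sets with the same adjacencies give a labelled minor. -/
theorem cm_of_enum {L : Type (u + 1)} (leL : L → L → Prop) (x y : CS.{u} L) (n : ℕ)
    (e : Fin n → x.W) (e' : Fin n → y.W) (he : Function.Injective e) (he' : Function.Injective e')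
    (hr : range e = x.S) (hr' : range e' = y.S)
    (hadj : ∀ i j, x.H.Adj (e i) (e j) → y.H.Adj (e' i) (e' j))
    (hle : ∀ i, leL (x.lab (e i)) (y.lab (e' i))) : CM leL x y := by
  have hM : ∀ i, {w | ∃ j, e j = e i ∧ w = e' j} = {e' i} := by
    intro i
    ext w
    constructor
    · rintro ⟨j, hj, rfl⟩
      rw [he hj]; rfl
    · intro hw
      exact ⟨i, rfl, hw⟩
  refine ⟨fun a => {w | ∃ j, e j = a ∧ w = e' j}, ?_, ?_, ?_⟩
  · intro a ha
    rw [← hr] at ha
    obtain ⟨i, rfl⟩ := ha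
    show {w | ∃ j, e j = e i ∧ w = e' j} ⊆ y.S ∧ (∀ p ∈ {w | ∃ j, e j = e i ∧ w = e' j},
      ∀ q ∈ {w | ∃ j, e j = e i ∧ w = e' j}, Cn y.H {w | ∃ j, e j = e i ∧ w = e' j} p q) ∧
      ∃ p ∈ {w | ∃ j, e j = e i ∧ w = e' j}, leL (x.lab (e i)) (y.lab p)
    rw [hM i]
    refine ⟨?_, ?_, e' i, rfl, hle i⟩
    · rintro w hw
      rw [← hr', hw]
      exact mem_range_self i
    · intro p hp q hq
      have h1 : p = e' i := hp
      have h2 : q = e' i := hq
      rw [h1, h2]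
      exact Cn.refl rfl
  · intro a ha b hb hab
    rw [← hr] at ha hb
    obtain ⟨i, rfl⟩ := ha
    obtain ⟨j, rfl⟩ := hb
    show Disjoint {w | ∃ k, e k = e i ∧ w = e' k} {w | ∃ k, e k = e j ∧ w = e' k}
    rw [hM i, hM j, Set.disjoint_singleton]
    intro h
    exact hab (congrArg e (he' h))
  · intro a ha b hb hab
    rw [← hr] at ha hb
    obtain ⟨i, rfl⟩ := ha
    obtain ⟨j, rfl⟩ := hb
    exact ⟨e' i, ⟨i, rfl, rfl⟩, e' j, ⟨j, rfl, rfl⟩, hadj i j hab⟩

/-- The growth function. -/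
theorem exists_growth (s : ℕ → ℕ) (hs : Tendsto s atTop atTop) (K : ℕ → ℕ) :
    ∃ N : ℕ → ℕ, Monotone N ∧ ∀ n t, N n ≤ t → K n ≤ t ∧ K n ≤ s t := by
  have h1 : ∀ n, ∃ N0, ∀ t, N0 ≤ t → K n ≤ s t := fun n => tendsto_atTop_atTop.1 hs (K n)
  choose N0 hN0 using h1
  refine ⟨fun n => ∑ i ∈ Finset.range (n + 1), (K i + N0 i), ?_, ?_⟩
  · intro a b hab
    exact Finset.sum_le_sum_of_subset (Finset.range_mono (by omega))
  · intro n t ht
    have h2 : K n + N0 n ≤ ∑ i ∈ Finset.range (n + 1), (K i + N0 i) :=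
      Finset.single_le_sum (f := fun i => K i + N0 i) (fun _ _ => Nat.zero_le _)
        (Finset.self_mem_range_succ n)
    have h3 : K n + N0 n ≤ t := h2.trans ht
    exact ⟨by omega, hN0 n t (by omega)⟩

/-- A finite set with `n` elements has an enumeration. -/
theorem exists_enum {W : Type u} (S : Set W) (hS : S.Finite) (n : ℕ) (hn : S.ncard = n) :
    ∃ e : Fin n → W, Function.Injective e ∧ range e = S := by
  have := hS.to_subtype
  have h1 : Nat.card S = n := hn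
  let e := (Finite.equivFinOfCardEq h1).symm
  refine ⟨fun i => (e i : W), fun i j h => e.injective (Subtype.ext h), ?_⟩
  ext w
  constructor
  · rintro ⟨i, rfl⟩
    exact (e i).2
  · intro hw
    exact ⟨e.symm ⟨w, hw⟩, by simp⟩

end HX_HCN

open HX_HCN in
theorem prH_HCN (hf : FamStmt.{u, u + 1}) (hb : H_BND) (ht : H_TUP.{u + 1})
    (hl : H_LNK.{u}) : H_HCN.{u} := by
  classical
  intro s hs L leL P A hNB B hBA hBi f hfa hP
  by_contra hcon
  have hbad : ∀ X, X ⊆ B → X.Infinite → ¬ CM leL (f X) (f (tl X)) :=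
    fun X h1 h2 h3 => hcon ⟨X, h1, h2, h3⟩
  -- (1) the labels
  obtain ⟨C, hCB, hCi, hC⟩ := (hf L leL P A hNB).perfect hBA hBi (hfa.comp labs)
    (fun X hX hXi i => (hP X hX hXi).2.2 i.1 i.2)
  -- (2) growth
  choose K hK using hl
  obtain ⟨N, hN1, hN2⟩ := exists_growth s hs K
  have hgrow : ∀ X, X ⊆ C → X.Infinite → (f (tl X)).S.ncard < N (f X).S.ncard := by
    intro X hX hXi
    by_contra hc
    push Not at hc
    obtain ⟨h1, h2⟩ := hN2 _ _ hc
    obtain ⟨-, ⟨hfin, -⟩, -⟩ := hP X (hX.trans hCB) hXi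
    obtain ⟨-, ⟨hfin', hun⟩, -⟩ := hP (tl X) (((tl_subset X).trans hX).trans hCB) (tl_infinite hXi)
    obtain ⟨σ, hσ, hle⟩ := hC X hX hXi
    have := hfin.to_subtype
    refine hbad X (hX.trans hCB) hXi (cm_of_root leL _ _ σ hle ?_)
    refine hK _ _ _ _ hfin' h1 ?_ _ rfl _ ?_ ?_
    · intro F hF
      exact hun F (lt_of_lt_of_le hF h2)
    · intro a b hab
      exact hσ (Subtype.ext hab)
    · intro a
      exact (σ a).2
  -- (3) boundedness
  obtain ⟨D, hDC, hDi, c, hD⟩ := hb C hCi (fun X => (f X).S.ncard)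
    (fun n => hfa.measurableSet_setOf (fun q => q.S.ncard = n)) N hN1 hgrow
  obtain ⟨E, hED, hEi, k, hE⟩ := exists_const (K := Fin (c + 1))
    (c := fun X => Fin.ofNat (c + 1) (f X).S.ncard)
    (fun k => hfa.measurableSet_setOf (fun q => Fin.ofNat (c + 1) q.S.ncard = k)) hDi
  have hEn : ∀ X, X ⊆ E → X.Infinite → (f X).S.ncard = (k : ℕ) := by
    intro X hX hXi
    have h1 := hE X hX hXi
    have h2 : (f X).S.ncard ≤ c := hD X (hX.trans hED) hXi
    rw [← h1, Fin.val_ofNat, Nat.mod_eq_of_lt (by omega)]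
  -- (4) enumerations
  have hEB : E ⊆ B := (hED.trans hDC).trans hCB
  have hdata : ∀ q : CS.{u} L, (q.S.Finite ∧ q.S.ncard = (k : ℕ)) →
      ∃ d : (Fin k → L) × (Fin k → Fin k → Prop), ∃ e : Fin k → q.W,
        Function.Injective e ∧ range e = q.S ∧ (∀ i, d.1 i = q.lab (e i)) ∧
          ∀ i j, d.2 i j ↔ q.H.Adj (e i) (e j) := by
    intro q hq
    obtain ⟨e, he1, he2⟩ := exists_enum q.S hq.1 k hq.2
    exact ⟨(fun i => q.lab (e i), fun i j => q.H.Adj (e i) (e j)), e, he1, he2,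
      fun _ => rfl, fun _ _ => Iff.rfl⟩
  have hgood : ∀ X, X ⊆ E → X.Infinite → (f X).S.Finite ∧ (f X).S.ncard = (k : ℕ) :=
    fun X hX hXi => ⟨(hP X (hX.trans hEB) hXi).2.1.1, hEn X hX hXi⟩
  obtain ⟨d0, -⟩ := hdata (f E) (hgood E Subset.rfl hEi)
  have hdata' : ∀ q : CS.{u} L, ∃ d : (Fin k → L) × (Fin k → Fin k → Prop),
      (q.S.Finite ∧ q.S.ncard = (k : ℕ)) → ∃ e : Fin k → q.W,
        Function.Injective e ∧ range e = q.S ∧ (∀ i, d.1 i = q.lab (e i)) ∧
          ∀ i j, d.2 i j ↔ q.H.Adj (e i) (e j) := by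
    intro q
    by_cases hq : q.S.Finite ∧ q.S.ncard = (k : ℕ)
    · obtain ⟨d, hd⟩ := hdata q hq
      exact ⟨d, fun _ => hd⟩
    · exact ⟨d0, fun h => absurd h hq⟩
  choose g hg using hdata'
  obtain ⟨E', hEE', hEi', r, hr⟩ := exists_const (K := Fin k → Fin k → Prop)
    (c := fun X => (g (f X)).2) (fun r => hfa.measurableSet_setOf (fun q => (g q).2 = r)) hEi
  obtain ⟨X, hX, hXi, hXle⟩ := ht k L leL P A hNB E' ((hEE'.trans hEB).trans hBA) hEi'
    (fun X => (g (f X)).1) (hfa.comp (fun q => (g q).1)) (by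
      intro X hX hXi i
      obtain ⟨e, -, he2, he3, -⟩ := hg (f X) (hgood X (hX.trans hEE') hXi)
      rw [he3 i]
      exact (hP X ((hX.trans hEE').trans hEB) hXi).2.2 _ (he2 ▸ mem_range_self i))
  have htX : tl X ⊆ E' := (tl_subset X).trans hX
  have htXi := tl_infinite hXi
  obtain ⟨e, he1, he2, he3, he4⟩ := hg (f X) (hgood X (hX.trans hEE') hXi)
  obtain ⟨e', he1', he2', he3', he4'⟩ := hg (f (tl X)) (hgood (tl X) (htX.trans hEE') htXi)
  refine hbad X ((hX.trans hEE').trans hEB) hXi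
    (cm_of_enum leL _ _ k e e' he1 he1' he2 he2' ?_ ?_)
  · intro i j hij
    rw [← he4', hr (tl X) htX htXi, ← hr X hX hXi]
    exact (he4 i j).2 hij
  · intro i
    rw [← he3 i, ← he3' i]
    exact hXle i

end Pool.MP_0d2ef4_co
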