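import Pool.Agent.Work.MP_0d2ef4_co.HC.Stmts
import Pool.Agent.Work.MP_0d2ef4_co.WQ.Basic

/-!
# Block HC, item L2: topological complete graphs

The theorem of Mader by induction on the set of the pairs that are already joined.
-/

set_option autoImplicit false

namespace Pool.MP_0d2ef4_co

open Set Filter

universe u v

namespace HX_L2

/-- A nodup chain inside `U`. -/
theorem chain_of_cn {V : Type u} (G : SimpleGraph V) (U : Set V) (x y : V) (h : Cn G U x y) :
    ∃ l : List V, l.IsChain G.Adj ∧ l.Nodup ∧ l.head? = some x ∧ l.getLast? = some y ∧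
      ∀ z ∈ l, z ∈ U := by
  obtain ⟨hx, h⟩ := h
  induction h using Relation.ReflTransGen.head_induction_on with
  | refl =>
    refine ⟨[y], List.isChain_singleton y, List.nodup_singleton y, rfl, rfl, ?_⟩
    intro z hz
    rw [List.mem_singleton] at hz
    rw [hz]
    exact hx
  | head hac hrest ih =>
    rename_i a c
    obtain ⟨l, l1, l2, l3, l4, l5⟩ := ih hac.2
    by_cases ha : a ∈ l
    · obtain ⟨s, t, rfl⟩ := List.append_of_mem ha
      refine ⟨a :: t, l1.right_of_append, (List.nodup_append.1 l2).2.1, rfl, ?_, ?_⟩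
      · rw [← l4]
        exact (List.getLast?_append_of_ne_nil s (List.cons_ne_nil a t)).symm
      · intro z hz
        exact l5 z (List.mem_append_right _ hz)
    · refine ⟨a :: l, ?_, List.nodup_cons.2 ⟨ha, l2⟩, rfl, ?_, ?_⟩
      · rw [List.isChain_cons]
        refine ⟨?_, l1⟩
        intro z hz
        rw [l3, Option.mem_some_iff] at hz
        rw [← hz]
        exact hac.1
      · rw [List.getLast?_cons, l4]
        rfl
      · intro z hz
        rcases List.mem_cons.1 hz with h | h
        · rw [h]
          exact hx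
        · exact l5 z h

theorem ed_eq {V : Type} (G : SimpleGraph V) (S : Finset V) : ed G S = ∑ x ∈ S, dg G S x := by
  classical
  unfold ed dg
  rw [Finset.card_filter, Finset.sum_product]
  refine Finset.sum_congr rfl fun x _ => ?_
  rw [Finset.card_filter]

theorem ed_le {V : Type} (G : SimpleGraph V) (S : Finset V) : ed G S ≤ S.card * S.card := by
  classical
  unfold ed
  refine (Finset.card_filter_le _ _).trans ?_
  rw [Finset.card_product]

/-- The induction. -/
theorem aux (h1 : H_L1) (r : ℕ) (E : Finset (Fin r × Fin r)) (hE : E ⊆ prs r) :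
    ∀ {V : Type} [Finite V] (G : SimpleGraph V) (S : Finset V), S.Nonempty →
      2 * (r + 1) * 2 ^ E.card * S.card ≤ ed G S →
      ∃ (b : Fin r → V) (p : Fin r → Fin r → List V), TKp G ↑S r E b p := by
  classical
  induction E using Finset.induction_on with
  | empty =>
    intro V _ G S hS hd
    have hc : 0 < S.card := Finset.card_pos.2 hS
    have h2 : 2 * (r + 1) * S.card ≤ S.card * S.card := by
      have := hd.trans (ed_le G S)
      simpa using this
    have h3 : 2 * (r + 1) ≤ S.card := Nat.le_of_mul_le_mul_right h2 hc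
    have h4 : r ≤ S.card := by omega
    refine ⟨fun i => (S.equivFin.symm (Fin.castLE h4 i) : V), fun _ _ => [], ?_⟩
    constructor
    · intro i j hij
      have h5 := S.equivFin.symm.injective (Subtype.ext hij)
      exact (Fin.castLE_injective h4) h5
    · intro i
      exact (S.equivFin.symm (Fin.castLE h4 i)).2
    · exact fun i j hij => absurd hij (Finset.notMem_empty _)
    · exact fun i j hij => absurd hij (Finset.notMem_empty _)
    · exact fun i j hij => absurd hij (Finset.notMem_empty _)
    · exact fun i j hij => absurd hij (Finset.notMem_empty _)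
    · exact fun i j hij => absurd hij (Finset.notMem_empty _)
    · exact fun i j hij => absurd hij (Finset.notMem_empty _)
    · exact fun i j i' j' hij => absurd hij (Finset.notMem_empty _)
  | insert a E ha ih =>
    obtain ⟨i0, j0⟩ := a
    intro V _ G S hS hd
    have hlt : i0 < j0 := by
      have := hE (Finset.mem_insert_self _ _)
      unfold prs at this
      exact (Finset.mem_filter.1 this).2
    rw [Finset.card_insert_of_notMem ha] at hd
    have hd1 : 1 ≤ (r + 1) * 2 ^ (E.card + 1) :=
      Nat.mul_pos (Nat.succ_pos r) (pow_pos (by norm_num) _)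
    obtain ⟨U, H, hUS, hHS, hUH, _, hHn, hUc, hHU, hHd⟩ :=
      h1 G ((r + 1) * 2 ^ (E.card + 1)) S hd1 hS (by
        have e : 2 * ((r + 1) * 2 ^ (E.card + 1)) * S.card =
          2 * (r + 1) * 2 ^ (E.card + 1) * S.card := by ring
        rw [e]
        exact hd)
    have hH : 2 * (r + 1) * 2 ^ E.card * H.card ≤ ed G H := by
      rw [ed_eq]
      have h5 : H.card • ((r + 1) * 2 ^ (E.card + 1)) ≤ ∑ x ∈ H, dg G H x :=
        Finset.card_nsmul_le_sum _ _ _ hHd
      refine le_trans (le_of_eq ?_) h5
      rw [smul_eq_mul]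
      ring
    obtain ⟨b, p, hp⟩ := ih (fun x hx => hE (Finset.mem_insert_of_mem hx)) G H hHn hH
    have hbH : ∀ k, b k ∈ H := fun k => Finset.mem_coe.1 (hp.mem k)
    have hij : b i0 ≠ b j0 := fun h => hlt.ne (hp.inj h)
    obtain ⟨x, hxU, hx⟩ := hHU (b i0) (hbH i0)
    obtain ⟨y, hyU, hy⟩ := hHU (b j0) (hbH j0)
    obtain ⟨l, l1, l2, l3, l4, l5⟩ := chain_of_cn G ↑U x y (hUc x hxU y hyU)
    have hlH : ∀ z ∈ l, z ∉ H := by
      intro z hz hzH
      exact Finset.disjoint_left.1 hUH (Finset.mem_coe.1 (l5 z hz)) hzH
    set q : List V := b i0 :: (l ++ [b j0]) with hq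
    have hqm : ∀ z, z ∈ q ↔ z = b i0 ∨ z ∈ l ∨ z = b j0 := by
      intro z
      rw [hq, List.mem_cons, List.mem_append, List.mem_singleton]
    have hqH : ∀ z ∈ q, z ∈ H → z = b i0 ∨ z = b j0 := by
      intro z hz hzH
      rcases (hqm z).1 hz with h | h | h
      · exact Or.inl h
      · exact absurd hzH (hlH z h)
      · exact Or.inr h
    have hqc : q.IsChain G.Adj := by
      rw [hq, List.isChain_cons]
      constructor
      · intro z hz
        rw [List.head?_append, l3] at hz
        have : z = x := by
          simpa using hz.symm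
        rw [this]
        exact hx
      · rw [List.isChain_append]
        refine ⟨l1, List.isChain_singleton _, ?_⟩
        intro z hz w hw
        rw [l4, Option.mem_some_iff] at hz
        have hw' : w = b j0 := by simpa using hw.symm
        rw [← hz, hw']
        exact hy.symm
    have hqn : q.Nodup := by
      rw [hq, List.nodup_cons]
      constructor
      · rw [List.mem_append, List.mem_singleton, not_or]
        exact ⟨fun h => hlH _ h (hbH i0), hij⟩
      · rw [List.nodup_append]
        refine ⟨l2, List.nodup_singleton _, ?_⟩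
        intro z hz w hw
        rw [List.mem_singleton] at hw
        rintro rfl
        exact hlH _ hz (hw ▸ hbH j0)
    have hqh : q.head? = some (b i0) := rfl
    have hql : q.getLast? = some (b j0) := by
      rw [hq, List.getLast?_cons, List.getLast?_append]
      simp
    have hqS : ∀ z ∈ q, z ∈ S := by
      intro z hz
      rcases (hqm z).1 hz with h | h | h
      · rw [h]; exact hHS (hbH i0)
      · exact hUS (Finset.mem_coe.1 (l5 z h))
      · rw [h]; exact hHS (hbH j0)
    set P : Fin r → Fin r → List V := fun i j => if (i, j) = (i0, j0) then q else p i j with hP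
    have hP0 : P i0 j0 = q := by simp only [hP, if_true]
    have hP1 : ∀ i j, (i, j) ∈ E → P i j = p i j := by
      intro i j hijE
      have : (i, j) ≠ (i0, j0) := fun h => ha (h ▸ hijE)
      simp only [hP, if_neg this]
    have hcase : ∀ i j, (i, j) ∈ insert (i0, j0) E →
        (i = i0 ∧ j = j0 ∧ P i j = q) ∨ ((i, j) ∈ E ∧ P i j = p i j) := by
      intro i j hijE
      rcases Finset.mem_insert.1 hijE with h | h
      · have e1 : i = i0 := congrArg Prod.fst h
        have e2 : j = j0 := congrArg Prod.snd h
        refine Or.inl ⟨e1, e2, ?_⟩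
        rw [e1, e2]
        exact hP0
      · exact Or.inr ⟨h, hP1 i j h⟩
    refine ⟨b, P, ?_⟩
    constructor
    · exact hp.inj
    · intro i
      exact Finset.mem_coe.2 (hHS (hbH i))
    · intro i j hijE
      rcases hcase i j hijE with ⟨e1, e2, e3⟩ | ⟨e1, e3⟩
      · rw [e3]; exact hqc
      · rw [e3]; exact hp.ch i j e1
    · intro i j hijE
      rcases hcase i j hijE with ⟨e1, e2, e3⟩ | ⟨e1, e3⟩
      · rw [e3]; exact hqn
      · rw [e3]; exact hp.nd i j e1
    · intro i j hijE
      rcases hcase i j hijE with ⟨e1, e2, e3⟩ | ⟨e1, e3⟩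
      · rw [e3, e1]
        exact hqh
      · rw [e3]; exact hp.hd i j e1
    · intro i j hijE
      rcases hcase i j hijE with ⟨e1, e2, e3⟩ | ⟨e1, e3⟩
      · rw [e3, e2]; exact hql
      · rw [e3]; exact hp.lt i j e1
    · intro i j hijE z hz
      rcases hcase i j hijE with ⟨e1, e2, e3⟩ | ⟨e1, e3⟩
      · rw [e3] at hz
        exact Finset.mem_coe.2 (hqS z hz)
      · rw [e3] at hz
        exact Finset.mem_coe.2 (hHS (Finset.mem_coe.1 (hp.sub i j e1 z hz)))
    · intro i j hijE k hk
      rcases hcase i j hijE with ⟨e1, e2, e3⟩ | ⟨e1, e3⟩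
      · rw [e3] at hk
        rcases hqH _ hk (hbH k) with h | h
        · exact Or.inl ((hp.inj h).trans e1.symm)
        · exact Or.inr ((hp.inj h).trans e2.symm)
      · rw [e3] at hk
        exact hp.br i j e1 k hk
    · intro i j i' j' hijE hijE' hne z hz hz'
      rcases hcase i j hijE with ⟨e1, e2, e3⟩ | ⟨e1, e3⟩
      · rcases hcase i' j' hijE' with ⟨e1', e2', e3'⟩ | ⟨e1', e3'⟩
        · exact absurd (by rw [e1, e2, e1', e2']) hne
        · rw [e3] at hz
          rw [e3'] at hz'
          rcases hqH z hz (Finset.mem_coe.1 (hp.sub i' j' e1' z hz')) with h | h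
          · exact ⟨i0, h⟩
          · exact ⟨j0, h⟩
      · rcases hcase i' j' hijE' with ⟨e1', e2', e3'⟩ | ⟨e1', e3'⟩
        · rw [e3] at hz
          rw [e3'] at hz'
          rcases hqH z hz' (Finset.mem_coe.1 (hp.sub i j e1 z hz)) with h | h
          · exact ⟨i0, h⟩
          · exact ⟨j0, h⟩
        · rw [e3] at hz
          rw [e3'] at hz'
          exact hp.dis i j i' j' e1 e1' hne z hz hz'

end HX_L2

/-- **L2**: topological complete graphs. -/
theorem prH_L2 (h1 : H_L1) : H_L2 := by
  intro r
  refine ⟨2 * (r + 1) * 2 ^ (prs r).card, ?_⟩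
  intro V _ G S hS hd
  exact HX_L2.aux h1 r (prs r) (Finset.Subset.refl _) G S hS hd

end Pool.MP_0d2ef4_co
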