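import Pool.Agent.Work.MP_0d2ef4_co.HC.Stmts
import Pool.Agent.Work.MP_0d2ef4_co.WQ.Basic

/-!
# Block HC, item L3: unseparable graphs have large degrees
-/

namespace Pool.MP_0d2ef4_co

open Set

universe u v

namespace HX_L3

theorem ed_eq {V : Type} [Fintype V] (G : SimpleGraph V) :
    ed G Finset.univ = ∑ v : V, dg G Finset.univ v := by
  classical
  unfold ed dg
  rw [Finset.card_filter, Finset.sum_product]
  refine Finset.sum_congr rfl fun v _ => ?_
  rw [Finset.card_filter]

theorem deg_ge {V : Type} [Fintype V] (G : SimpleGraph V) (K : ℕ) (hK : K ≤ Fintype.card V)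
    (h : Un G K univ) (v : V) : K - 1 ≤ dg G Finset.univ v := by
  classical
  by_contra hlt
  push Not at hlt
  set F : Finset V := Finset.univ.filter fun w => G.Adj v w with hF
  have hFc : F.card < K - 1 := by
    have : dg G Finset.univ v = F.card := by
      unfold dg
      rw [hF]
    omega
  have h1 : (insert v F).card < Fintype.card V := by
    have := Finset.card_insert_le v F
    omega
  obtain ⟨u, hu⟩ : ∃ u, u ∉ insert v F := by
    by_contra hcon
    push Not at hcon
    have : insert v F = Finset.univ := Finset.eq_univ_iff_forall.2 hcon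
    rw [this, Finset.card_univ] at h1
    exact lt_irrefl _ h1
  rw [Finset.mem_insert, not_or] at hu
  have hv : v ∈ (univ : Set V) \ ↑F := by
    refine ⟨mem_univ _, ?_⟩
    simp [hF]
  have hu' : u ∈ (univ : Set V) \ ↑F := ⟨mem_univ _, by simpa using hu.2⟩
  have h2 := h F (by omega) v hv u hu'
  obtain ⟨c, hc1, hc2⟩ := h2.last_exit (Ne.symm hu.1)
  have hc3 := hc2.left
  apply hc3.1.2
  simp [hF, hc1]

end HX_L3

theorem prH_L3 : H_L3 := by
  intro V _ G K hK h
  rw [HX_L3.ed_eq]
  calc (K - 1) * Fintype.card V = ∑ _v : V, (K - 1) := by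
        rw [Finset.sum_const, Finset.card_univ, smul_eq_mul, mul_comm]
    _ ≤ _ := Finset.sum_le_sum fun v _ => HX_L3.deg_ge G K hK h v

end Pool.MP_0d2ef4_co
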