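import Pool.Agent.Work.MP_0d2ef4_co.HC.Stmts
import Pool.Agent.Work.MP_0d2ef4_co.WQ.Basic
import Pool.Agent.Work.MP_d76268_co.Menger

/-!
# Block HC, item L4: Menger
-/

set_option autoImplicit false

namespace Pool.MP_0d2ef4_co

open Set

namespace HX_L4

open BiP4 BiP4.Menger

/-- a connection inside `S` gives a walk with all vertices in `S` -/
lemma cn_wk {V : Type} {G : SimpleGraph V} {S : Set V} {a b : V} (h : Cn G S a b) :
    ∃ l : List V, Wk G.Adj a b l ∧ ∀ x ∈ l, x ∈ S := by
  obtain ⟨ha, h⟩ := h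
  induction h with
  | refl =>
    refine ⟨[a], ⟨List.isChain_singleton a, rfl, rfl⟩, ?_⟩
    intro x hx
    rw [List.mem_singleton] at hx
    exact hx ▸ ha
  | @tail b c _ hbc ih =>
    obtain ⟨l, hl, hS⟩ := ih
    refine ⟨l ++ [c], ⟨?_, ?_, by simp⟩, ?_⟩
    · rw [List.isChain_append]
      refine ⟨hl.1, List.isChain_singleton c, ?_⟩
      intro x hx y hy
      rw [hl.2.2] at hx
      have hx' : b = x := by simpa using hx
      have hy' : c = y := by simpa using hy
      rw [← hx', ← hy']
      exact hbc.1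
    · rw [List.head?_append, hl.2.1]
      rfl
    · intro x hx
      rcases List.mem_append.mp hx with hx | hx
      · exact hS x hx
      · rw [List.mem_singleton] at hx
        exact hx ▸ hbc.2

lemma sep {V : Type} [Fintype V] (G : SimpleGraph V) (n : ℕ) (z : Fin n → V) (U : Set V)
    (hz : Function.Injective z) (hU : Un G n univ) (hn : n ≤ U.ncard) (T : Finset V)
    (hT : ∀ l, IsAB G.Adj (range z) U l → ∃ x ∈ l, x ∈ T) : n ≤ T.card := by
  classical
  by_contra hlt
  push Not at hlt
  -- a root outside `T`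
  have h1 : ∃ i, z i ∉ T := by
    by_contra hc
    push Not at hc
    have h2 : (Finset.univ.image z).card ≤ T.card := by
      apply Finset.card_le_card
      intro x hx
      obtain ⟨i, -, rfl⟩ := Finset.mem_image.mp hx
      exact hc i
    rw [Finset.card_image_of_injective _ hz, Finset.card_univ, Fintype.card_fin] at h2
    omega
  have h3 : ∃ u ∈ U, u ∉ T := by
    by_contra hc
    push Not at hc
    have h4 : U.ncard ≤ (T : Set V).ncard := Set.ncard_le_ncard (fun x hx => hc x hx) (Finset.finite_toSet T)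
    rw [Set.ncard_coe_finset] at h4
    omega
  obtain ⟨i, hi⟩ := h1
  obtain ⟨u, hu, huT⟩ := h3
  have h5 := hU T hlt (z i) ⟨mem_univ _, by simpa using hi⟩ u ⟨mem_univ _, by simpa using huT⟩
  obtain ⟨l, hl, hlS⟩ := cn_wk h5
  obtain ⟨l', hnd, hsub, hl'⟩ := Wk.simple l hl
  obtain ⟨x, hx, hxT⟩ := hT l' (isAB_iff.mpr ⟨z i, mem_range_self i, u, hu, hl', hnd⟩)
  exact (hlS x (hsub x hx)).2 (by simpa using hxT)

end HX_L4

open BiP4 BiP4.Menger HX_L4 in
theorem prH_L4 : H_L4 := by
  classical
  intro V _ G n z U hz hU hn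
  obtain ⟨P, hP, hdis⟩ := BiP4.menger V G.Adj (range z) U n (sep G n z U hz hU hn)
  have hP' : ∀ i, ∃ j : Fin n, ∃ b ∈ U, Wk G.Adj (z j) b (P i) ∧ (P i).Nodup := by
    intro i
    obtain ⟨a, ⟨j, rfl⟩, b, hb, hw, hnd⟩ := isAB_iff.mp (hP i)
    exact ⟨j, b, hb, hw, hnd⟩
  choose σ β hβU hw hnd using hP'
  have hσ : Function.Injective σ := by
    intro i j hij
    by_contra hne
    have h1 := (hw i).head_mem
    have h2 := (hw j).head_mem
    rw [← hij] at h2
    exact hdis i j hne h1 h2
  have hbij : Function.Bijective σ := (Finite.injective_iff_bijective).mp hσ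
  let τ := Equiv.ofBijective σ hbij
  have hτ : ∀ i, σ (τ.symm i) = i := fun i => τ.apply_symm_apply i
  -- cut the paths
  have hcut : ∀ i, ∃ (l1 : List V) (c : V) (l2 : List V), P (τ.symm i) = l1 ++ c :: l2 ∧ c ∈ U ∧ ∀ y ∈ l1, y ∉ U := by
    intro i
    exact first_mem U _ ⟨β (τ.symm i), (hw _).last_mem, hβU _⟩
  choose l1 c l2 hPe hcU hl1 using hcut
  have hwk : ∀ i, Wk G.Adj (z i) (c i) (l1 i ++ [c i]) := by
    intro i
    have h1 := hw (τ.symm i)
    rw [hPe i, hτ i] at h1
    exact (Wk.split.mp h1).1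
  have hsub : ∀ i, ∀ x ∈ l1 i ++ [c i], x ∈ P (τ.symm i) := by
    intro i x hx
    rw [hPe i]
    rcases List.mem_append.mp hx with hx | hx
    · exact List.mem_append_left _ hx
    · rw [List.mem_singleton] at hx
      rw [hx]
      exact List.mem_append_right _ List.mem_cons_self
  refine ⟨c, fun i => l1 i ++ [c i], ?_⟩
  exact
    { ch := fun i => (hwk i).1
      nd := fun i => by
        have h1 := hnd (τ.symm i)
        rw [hPe i] at h1
        refine h1.sublist ?_
        exact List.Sublist.append (List.Sublist.refl _) (List.Sublist.cons_cons _ (List.nil_sublist _))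
      hd := fun i => (hwk i).2.1
      lt := fun i => (hwk i).2.2
      eU := hcU
      only := fun i x hx hxU => by
        rcases List.mem_append.mp hx with hx | hx
        · exact absurd hxU (hl1 i x hx)
        · exact List.mem_singleton.mp hx
      dis := fun i j hij => by
        intro x hx hx'
        exact hdis (τ.symm i) (τ.symm j) (fun h => hij (τ.symm.injective h)) (hsub i x hx) (hsub j x hx') }

end Pool.MP_0d2ef4_co
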