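import Pool.Agent.Work.MP_0d2ef4_co.HC.Stmts
import Pool.Agent.Work.MP_0d2ef4_co.WQ.Basic

/-! Item L5 of the block HC: rerouting through a topological complete graph. -/

set_option autoImplicit false

namespace Pool.MP_0d2ef4_co

open Set

namespace HX_L5

variable {V : Type} {G : SimpleGraph V}

/-! ### Lists -/

/-- consecutive elements of a list -/
def Nx (l : List V) (x y : V) : Prop := ∃ s t, l = s ++ x :: y :: t

lemma Nx.left {l : List V} {x y : V} (h : Nx l x y) : x ∈ l := by
  obtain ⟨s, t, rfl⟩ := h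
  simp

lemma Nx.right {l : List V} {x y : V} (h : Nx l x y) : y ∈ l := by
  obtain ⟨s, t, rfl⟩ := h
  simp

lemma Nx.rev {l : List V} {x y : V} (h : Nx l.reverse x y) : Nx l y x := by
  obtain ⟨s, t, h⟩ := h
  refine ⟨t.reverse, s.reverse, ?_⟩
  have h1 : l = (s ++ x :: y :: t).reverse := by rw [← h, List.reverse_reverse]
  rw [h1]
  simp

lemma Nx.cons {l : List V} {a x y : V} (h : Nx l x y) : Nx (a :: l) x y := by
  obtain ⟨s, t, h⟩ := h
  exact ⟨a :: s, t, by rw [h]; rfl⟩

lemma Nx.append_left {l l' : List V} {x y : V} (h : Nx l x y) : Nx (l' ++ l) x y := by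
  obtain ⟨s, t, h⟩ := h
  exact ⟨l' ++ s, t, by rw [h]; simp⟩

lemma Nx.append_right {l l' : List V} {x y : V} (h : Nx l x y) : Nx (l ++ l') x y := by
  obtain ⟨s, t, h⟩ := h
  exact ⟨s, t ++ l', by rw [h]; simp⟩

/-- A consecutive pair of `l1 ++ y :: l2` is a pair of `l1 ++ [y]` or of `y :: l2`. -/
lemma Nx.split : ∀ {l1 : List V} {l2 : List V} {y x x' : V}, Nx (l1 ++ y :: l2) x x' →
    (x ∈ l1 ∧ Nx (l1 ++ [y]) x x') ∨ Nx (y :: l2) x x' := by
  intro l1
  induction l1 with
  | nil => intro l2 y x x' h; exact Or.inr h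
  | cons a t ih =>
    intro l2 y x x' h
    obtain ⟨s, u, h⟩ := h
    rcases s with _ | ⟨a', s'⟩
    · left
      have h1 : a = x ∧ t ++ y :: l2 = x' :: u := by
        simpa using h
      obtain ⟨rfl, h2⟩ := h1
      refine ⟨List.mem_cons_self, [], ?_⟩
      rcases t with _ | ⟨c, t'⟩
      · have h3 : y = x' := by simp at h2; exact h2.1
        exact ⟨[], by rw [← h3]; rfl⟩
      · have h3 : c = x' := by simp at h2; exact h2.1
        exact ⟨t' ++ [y], by rw [← h3]; rfl⟩
    · have h1 : a = a' ∧ t ++ y :: l2 = s' ++ x :: x' :: u := by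
        simpa using h
      rcases ih (l2 := l2) (y := y) (x := x) (x' := x') ⟨s', u, h1.2⟩ with h2 | h2
      · exact Or.inl ⟨List.mem_cons_of_mem _ h2.1, h2.2.cons⟩
      · exact Or.inr h2

lemma last_occ (T : V → Prop) : ∀ l : List V, (∃ x ∈ l, T x) →
    ∃ l1 y l2, l = l1 ++ y :: l2 ∧ T y ∧ ∀ x ∈ l2, ¬ T x := by
  intro l
  induction l with
  | nil =>
    rintro ⟨x, hx, _⟩
    exact absurd hx List.not_mem_nil
  | cons a t ih =>
    intro h
    by_cases ht : ∃ x ∈ t, T x
    · obtain ⟨l1, y, l2, h1, h2, h3⟩ := ih ht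
      exact ⟨a :: l1, y, l2, by rw [h1]; rfl, h2, h3⟩
    · obtain ⟨x, hx, hTx⟩ := h
      rcases List.mem_cons.1 hx with rfl | hx
      · exact ⟨[], x, t, rfl, hTx, fun y hy hTy => ht ⟨y, hy, hTy⟩⟩
      · exact absurd ⟨x, hx, hTx⟩ ht

lemma all_of_step (I : V → Prop) : ∀ L : List V, (∀ x, L.head? = some x → I x) →
    (∀ x y, Nx L x y → I x → I y) → ∀ x ∈ L, I x := by
  intro L
  induction L with
  | nil => intro _ _ x hx; exact absurd hx List.not_mem_nil
  | cons a t ih =>
    intro h0 hs x hx
    have ha : I a := h0 a rfl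
    rcases List.mem_cons.1 hx with rfl | hx
    · exact ha
    · refine ih ?_ (fun x y h => hs x y h.cons) x hx
      intro c hc
      rcases t with _ | ⟨c', t'⟩
      · simp at hc
      · have h1 : c' = c := by simpa using hc
        subst h1
        exact hs a c' ⟨[], t', rfl⟩ ha

lemma chain_cn : ∀ (l : List V) (a : V), l.IsChain G.Adj → l.head? = some a →
    ∀ x ∈ l, Cn G {u | u ∈ l} a x := by
  intro l
  induction l with
  | nil => intro a _ h; simp at h
  | cons c t ih =>
    intro a hc ha x hx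
    have h1 : c = a := by simpa using ha
    subst h1
    rcases List.mem_cons.1 hx with rfl | hx
    · exact Cn.refl List.mem_cons_self
    · rcases t with _ | ⟨d, t'⟩
      · simp at hx
      · rw [List.isChain_cons_cons] at hc
        have h2 := ih d hc.2 rfl x hx
        have h3 : Cn G {u | u ∈ c :: d :: t'} d x :=
          h2.mono (fun u hu => List.mem_cons_of_mem _ hu)
        exact (Cn.of_adj (S := {u | u ∈ c :: d :: t'}) List.mem_cons_self
          (List.mem_cons_of_mem _ List.mem_cons_self) hc.1).trans h3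

lemma chain_cn' {l : List V} (hc : l.IsChain G.Adj) : ∀ x ∈ l, ∀ y ∈ l,
    Cn G {u | u ∈ l} x y := by
  intro x hx y hy
  obtain ⟨a, ha⟩ : ∃ a, l.head? = some a := by
    rcases l with _ | ⟨a, t⟩
    · exact absurd hx List.not_mem_nil
    · exact ⟨a, rfl⟩
  exact (chain_cn l a hc ha x hx).symm.trans (chain_cn l a hc ha y hy)

/-! ### The paths of the topological complete graph, in both directions -/

section tk

variable {R : ℕ} {b : Fin R → V} {p : Fin R → Fin R → List V}

/-- the path from `b a` to `b c` -/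
def pp (p : Fin R → Fin R → List V) (a c : Fin R) : List V :=
  if a < c then p a c else (p c a).reverse

lemma mem_prs {a c : Fin R} : (a, c) ∈ prs R ↔ a < c := by
  simp [prs]

lemma pp_cases (_h : TKp G univ R (prs R) b p) {a c : Fin R} (hac : a ≠ c) :
    (a < c ∧ pp p a c = p a c) ∨ (c < a ∧ pp p a c = (p c a).reverse) := by
  rcases lt_or_gt_of_ne hac with h1 | h1
  · left; exact ⟨h1, if_pos h1⟩
  · right; exact ⟨h1, if_neg (not_lt.2 h1.le)⟩

lemma pp_chain (h : TKp G univ R (prs R) b p) {a c : Fin R} (hac : a ≠ c) :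
    (pp p a c).IsChain G.Adj := by
  rcases pp_cases h hac with ⟨h1, h2⟩ | ⟨h1, h2⟩
  · rw [h2]; exact h.ch a c (mem_prs.2 h1)
  · rw [h2, List.isChain_reverse]
    exact (h.ch c a (mem_prs.2 h1)).imp fun _ _ h' => h'.symm

lemma pp_nodup (h : TKp G univ R (prs R) b p) {a c : Fin R} (hac : a ≠ c) :
    (pp p a c).Nodup := by
  rcases pp_cases h hac with ⟨h1, h2⟩ | ⟨h1, h2⟩
  · rw [h2]; exact h.nd a c (mem_prs.2 h1)
  · rw [h2]; exact List.nodup_reverse.2 (h.nd c a (mem_prs.2 h1))

lemma pp_head (h : TKp G univ R (prs R) b p) {a c : Fin R} (hac : a ≠ c) :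
    (pp p a c).head? = some (b a) := by
  rcases pp_cases h hac with ⟨h1, h2⟩ | ⟨h1, h2⟩
  · rw [h2]; exact h.hd a c (mem_prs.2 h1)
  · rw [h2, List.head?_reverse]; exact h.lt c a (mem_prs.2 h1)

lemma pp_last (h : TKp G univ R (prs R) b p) {a c : Fin R} (hac : a ≠ c) :
    (pp p a c).getLast? = some (b c) := by
  rcases pp_cases h hac with ⟨h1, h2⟩ | ⟨h1, h2⟩
  · rw [h2]; exact h.lt a c (mem_prs.2 h1)
  · rw [h2, List.getLast?_reverse]; exact h.hd c a (mem_prs.2 h1)

lemma pp_br (h : TKp G univ R (prs R) b p) {a c : Fin R} (hac : a ≠ c) {k : Fin R}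
    (hk : b k ∈ pp p a c) : k = a ∨ k = c := by
  rcases pp_cases h hac with ⟨h1, h2⟩ | ⟨h1, h2⟩
  · rw [h2] at hk; exact h.br a c (mem_prs.2 h1) k hk
  · rw [h2, List.mem_reverse] at hk; exact (h.br c a (mem_prs.2 h1) k hk).symm

lemma pp_dis (h : TKp G univ R (prs R) b p) {a c a' c' : Fin R} (hac : a ≠ c) (hac' : a' ≠ c')
    {x : V} (hx : x ∈ pp p a c) (hx' : x ∈ pp p a' c') (hb : ∀ k, x ≠ b k) :
    (a' = a ∧ c' = c) ∨ (a' = c ∧ c' = a) := by
  rcases pp_cases h hac with ⟨h1, h2⟩ | ⟨h1, h2⟩ <;>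
  rcases pp_cases h hac' with ⟨h3, h4⟩ | ⟨h3, h4⟩
  · rw [h2] at hx
    rw [h4] at hx'
    left
    by_contra hne
    obtain ⟨k, hk⟩ := h.dis a c a' c' (mem_prs.2 h1) (mem_prs.2 h3)
      (fun h5 => hne ⟨(Prod.ext_iff.1 h5).1.symm, (Prod.ext_iff.1 h5).2.symm⟩) x hx hx'
    exact hb k hk
  · rw [h2] at hx
    rw [h4, List.mem_reverse] at hx'
    right
    by_contra hne
    obtain ⟨k, hk⟩ := h.dis a c c' a' (mem_prs.2 h1) (mem_prs.2 h3)
      (fun h5 => hne ⟨(Prod.ext_iff.1 h5).2.symm, (Prod.ext_iff.1 h5).1.symm⟩) x hx hx'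
    exact hb k hk
  · rw [h2, List.mem_reverse] at hx
    rw [h4] at hx'
    right
    by_contra hne
    obtain ⟨k, hk⟩ := h.dis c a a' c' (mem_prs.2 h1) (mem_prs.2 h3)
      (fun h5 => hne ⟨(Prod.ext_iff.1 h5).1.symm, (Prod.ext_iff.1 h5).2.symm⟩) x hx hx'
    exact hb k hk
  · rw [h2, List.mem_reverse] at hx
    rw [h4, List.mem_reverse] at hx'
    left
    by_contra hne
    obtain ⟨k, hk⟩ := h.dis c a c' a' (mem_prs.2 h1) (mem_prs.2 h3)
      (fun h5 => hne ⟨(Prod.ext_iff.1 h5).2.symm, (Prod.ext_iff.1 h5).1.symm⟩) x hx hx'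
    exact hb k hk

/-- marked pairs -/
def Mk (p : Fin R → Fin R → List V) (x y : V) : Prop :=
  ∃ a c : Fin R, a < c ∧ (Nx (p a c) x y ∨ Nx (p a c) y x)

lemma mk_of_nx (h : TKp G univ R (prs R) b p) {a c : Fin R} (hac : a ≠ c) {x y : V}
    (hx : Nx (pp p a c) x y) : Mk p x y := by
  rcases pp_cases h hac with ⟨h1, h2⟩ | ⟨h1, h2⟩
  · rw [h2] at hx; exact ⟨a, c, h1, Or.inl hx⟩
  · rw [h2] at hx; exact ⟨c, a, h1, Or.inr hx.rev⟩

lemma mk_mem {x y : V} (hx : Mk p x y) : ∃ a c : Fin R, a ≠ c ∧ x ∈ pp p a c ∧ y ∈ pp p a c := by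
  obtain ⟨a, c, hac, h1⟩ := hx
  refine ⟨a, c, hac.ne, ?_⟩
  have h2 : pp p a c = p a c := if_pos hac
  rw [h2]
  rcases h1 with h1 | h1
  · exact ⟨h1.left, h1.right⟩
  · exact ⟨h1.right, h1.left⟩

/-- the unmarked pairs of a system -/
def Cst {n : ℕ} (p : Fin R → Fin R → List V) (q : Fin n → List V) : Set (V × V) :=
  {u | (∃ i, Nx (q i) u.1 u.2) ∧ ¬ Mk p u.1 u.2}

variable {n : ℕ} {z : Fin n → V} {e : Fin n → V} {q : Fin n → List V}

lemma e_mem (hq : PthS G n z (range b) e q) (i : Fin n) : e i ∈ q i :=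
  List.mem_of_getLast? (hq.lt i)

/-- The exchange: the last vertex on the system belongs to the path of `i`. -/
lemma exch [Finite V] (h : TKp G univ R (prs R) b p) (hq : PthS G n z (range b) e q)
    (hmin : ∀ e' q', PthS G n z (range b) e' q' → (Cst p q).ncard ≤ (Cst p q').ncard)
    {i : Fin n} {a w : Fin R} (ha : e i = b a) (hw : ∀ j, e j ≠ b w) {l1 l2 : List V} {y : V}
    (hl : pp p a w = l1 ++ y :: l2) {j : Fin n} (hy : y ∈ q j)
    (hl2 : ∀ x ∈ l2, ∀ k, x ∉ q k) : j = i := by
  classical
  by_contra hji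
  have haw : a ≠ w := by
    rintro rfl
    exact hw i ha
  -- branch vertices of the path on `q j`
  have hbr : ∀ x, x ∈ pp p a w → x ∈ q j → ∀ k, x ≠ b k := by
    rintro x hx hxq k rfl
    rcases pp_br h haw hx with rfl | rfl
    · have h1 : b k ∈ q i := ha ▸ e_mem hq i
      exact (hq.dis j i hji) hxq h1
    · exact hw j (hq.only j _ hxq (mem_range_self _)).symm
  have hyl : y ∈ pp p a w := by rw [hl]; simp
  have hyb := hbr y hyl hy
  obtain ⟨m1, m2, hm⟩ := List.append_of_mem hy
  -- an unmarked pair after `y`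
  have hun : ∃ x x', Nx (y :: m2) x x' ∧ ¬ Mk p x x' := by
    by_contra hcon
    have h1 : ∀ x ∈ y :: m2, x ∈ pp p a w := by
      refine all_of_step (fun x => x ∈ pp p a w) (y :: m2) ?_ ?_
      · intro x hx
        have : y = x := by simpa using hx
        rw [← this]; exact hyl
      · intro x x' hx hxl
        have hxq : x ∈ q j := by
          rw [hm]; exact List.mem_append_right _ hx.left
        have h2 : Mk p x x' := by
          by_contra h3
          exact hcon ⟨x, x', hx, h3⟩
        obtain ⟨a', c', hac', h4, h5⟩ := mk_mem h2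
        rcases pp_dis h haw hac' hxl h4 (hbr x hxl hxq) with ⟨rfl, rfl⟩ | ⟨rfl, rfl⟩
        · exact h5
        · rcases pp_cases h haw with ⟨h6, h7⟩ | ⟨h6, h7⟩
          · rw [h7]
            rcases pp_cases h hac' with ⟨h8, _⟩ | ⟨_, h9⟩
            · exact absurd h6 (not_lt.2 h8.le)
            · rw [h9, List.mem_reverse] at h5; exact h5
          · rw [h7, List.mem_reverse]
            rcases pp_cases h hac' with ⟨_, h9⟩ | ⟨h8, _⟩
            · rw [h9] at h5; exact h5
            · exact absurd h6 (not_lt.2 h8.le)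
    have h2 : e j ∈ y :: m2 := by
      have h3 := hq.lt j
      rw [hm, List.getLast?_append_cons] at h3
      exact List.mem_of_getLast? h3
    obtain ⟨k, hk⟩ := hq.eU j
    exact hbr (e j) (h1 _ h2) (e_mem hq j) k hk.symm
  -- the new system
  have hqnd := hq.nd j
  rw [hm] at hqnd
  have hqch := hq.ch j
  rw [hm, List.isChain_split] at hqch
  have hlnd := pp_nodup h haw
  rw [hl] at hlnd
  have hlch := pp_chain h haw
  rw [hl, List.isChain_split] at hlch
  have hm1 : ∀ x ∈ m1, x ∈ q j := fun x hx => by rw [hm]; exact List.mem_append_left _ hx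
  have hej : e j ∈ y :: m2 := by
    have h3 := hq.lt j
    rw [hm, List.getLast?_append_cons] at h3
    exact List.mem_of_getLast? h3
  have hwl : (y :: l2).getLast? = some (b w) := by
    have h3 := pp_last h haw
    rwa [hl, List.getLast?_append_cons] at h3
  have hnew : PthS G n z (range b) (Function.update e j (b w))
      (Function.update q j (m1 ++ y :: l2)) := by
    refine ⟨?_, ?_, ?_, ?_, ?_, ?_, ?_⟩
    · intro k
      by_cases hk : k = j
      · subst hk
        rw [Function.update_self, List.isChain_split]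
        exact ⟨hqch.1, hlch.2⟩
      · rw [Function.update_of_ne hk]; exact hq.ch k
    · intro k
      by_cases hk : k = j
      · subst hk
        rw [Function.update_self, List.nodup_append]
        rw [List.nodup_append] at hqnd hlnd
        refine ⟨hqnd.1, hlnd.2.1, ?_⟩
        intro x hx x' hx' hxx
        subst hxx
        rcases List.mem_cons.1 hx' with h3 | h3
        · exact hqnd.2.2 x hx x (by rw [h3]; exact List.mem_cons_self) rfl
        · exact hl2 x h3 k (hm1 x hx)
      · rw [Function.update_of_ne hk]; exact hq.nd k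
    · intro k
      by_cases hk : k = j
      · subst hk
        rw [Function.update_self]
        have h3 := hq.hd k
        rw [hm] at h3
        rw [← h3]
        cases m1 <;> rfl
      · rw [Function.update_of_ne hk]; exact hq.hd k
    · intro k
      by_cases hk : k = j
      · subst hk
        rw [Function.update_self, Function.update_self, List.getLast?_append_cons]
        exact hwl
      · rw [Function.update_of_ne hk, Function.update_of_ne hk]; exact hq.lt k
    · intro k
      by_cases hk : k = j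
      · subst hk
        rw [Function.update_self]
        exact mem_range_self _
      · rw [Function.update_of_ne hk]; exact hq.eU k
    · intro k
      by_cases hk : k = j
      · subst hk
        rw [Function.update_self, Function.update_self]
        rintro x hx ⟨c, rfl⟩
        rcases List.mem_append.1 hx with h3 | h3
        · exfalso
          have h4 := hq.only k _ (hm1 _ h3) (mem_range_self c)
          rw [List.nodup_append] at hqnd
          exact hqnd.2.2 _ h3 _ hej h4
        · have h4 : b c ∈ pp p a w := by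
            rw [hl]; exact List.mem_append_right _ h3
          rcases pp_br h haw h4 with h5 | h5
          · exfalso
            subst h5
            have h6 := pp_head h haw
            rw [hl] at h6
            rw [List.nodup_append] at hlnd
            rcases l1 with _ | ⟨d, l1'⟩
            · have h7 : y = b c := by simpa using h6
              exact hyb c h7
            · have h7 : d = b c := by simpa using h6
              exact hlnd.2.2 d List.mem_cons_self (b c) h3 h7
          · rw [h5]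
      · rw [Function.update_of_ne hk, Function.update_of_ne hk]; exact hq.only k
    · intro k k' hkk'
      have hdj : ∀ k', k' ≠ j → List.Disjoint (m1 ++ y :: l2) (q k') := by
        intro k' hk' x hx hx'
        rcases List.mem_append.1 hx with h3 | h3
        · exact hq.dis j k' (Ne.symm hk') (hm1 x h3) hx'
        · rcases List.mem_cons.1 h3 with h3 | h3
          · subst h3
            exact hq.dis j k' (Ne.symm hk') hy hx'
          · exact hl2 x h3 k' hx'
      by_cases hk : k = j
      · subst hk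
        rw [Function.update_self, Function.update_of_ne (Ne.symm hkk')]
        exact hdj k' (Ne.symm hkk')
      · by_cases hk' : k' = j
        · subst hk'
          rw [Function.update_self, Function.update_of_ne hk]
          exact (hdj k hk).symm
        · rw [Function.update_of_ne hk, Function.update_of_ne hk']
          exact hq.dis k k' hkk'
  -- its cost is smaller
  have hsub : Cst p (Function.update q j (m1 ++ y :: l2)) ⊂ Cst p q := by
    rw [Set.ssubset_iff_of_subset]
    · obtain ⟨x, x', h3, h4⟩ := hun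
      refine ⟨(x, x'), ⟨⟨j, ?_⟩, h4⟩, ?_⟩
      · show Nx (q j) x x'
        rw [hm]
        exact h3.append_left
      · rintro ⟨⟨k, hk⟩, _⟩
        change Nx (Function.update q j (m1 ++ y :: l2) k) x x' at hk
        by_cases hkj : k = j
        · subst hkj
          rw [Function.update_self] at hk
          rcases hk.split with ⟨h5, _⟩ | h5
          · rw [List.nodup_append] at hqnd
            exact hqnd.2.2 x h5 x h3.left rfl
          · apply h4
            refine mk_of_nx h haw ?_
            rw [hl]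
            exact h5.append_left
        · rw [Function.update_of_ne hkj] at hk
          refine hq.dis k j hkj hk.left ?_
          rw [hm]
          exact List.mem_append_right _ h3.left
    · rintro ⟨x, x'⟩ ⟨⟨k, hk⟩, h4⟩
      change Nx (Function.update q j (m1 ++ y :: l2) k) x x' at hk
      refine ⟨?_, h4⟩
      by_cases hkj : k = j
      · subst hkj
        rw [Function.update_self] at hk
        rcases hk.split with ⟨_, h5⟩ | h5
        · refine ⟨k, ?_⟩
          show Nx (q k) x x'
          rw [hm]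
          have h6 := h5.append_right (l' := m2)
          simpa using h6
        · exfalso
          apply h4
          refine mk_of_nx h haw ?_
          rw [hl]
          exact h5.append_left
      · rw [Function.update_of_ne hkj] at hk
        exact ⟨k, hk⟩
  have h3 := Set.ncard_lt_ncard hsub (Set.toFinite _)
  have h4 := hmin _ _ hnew
  omega

/-- The rest of a path: a connected set that is attached to the path of `i` and to `b w`. -/
lemma rest [Finite V] (h : TKp G univ R (prs R) b p) (hq : PthS G n z (range b) e q)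
    (hmin : ∀ e' q', PthS G n z (range b) e' q' → (Cst p q).ncard ≤ (Cst p q').ncard)
    {i : Fin n} {a w : Fin R} (ha : e i = b a) (hw : ∀ j, e j ≠ b w) :
    ∃ A : Set V, (∃ y, y ∈ A ∧ y ∈ q i ∧ (∀ x ∈ A, Cn G A y x) ∧ ∀ x ∈ A, x = y ∨ ∀ k, x ∉ q k) ∧
      (∃ x ∈ A, G.Adj x (b w)) ∧ ∀ x ∈ A, x ∈ pp p a w ∧ x ≠ b w := by
  have haw : a ≠ w := by
    rintro rfl
    exact hw i ha
  obtain ⟨l1, y, l2, hl, ⟨j, hy⟩, hl2⟩ := last_occ (fun x => ∃ k, x ∈ q k) (pp p a w)
    ⟨b a, List.mem_of_head? (pp_head h haw), i, ha ▸ e_mem hq i⟩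
  have hji : j = i := exch h hq hmin ha hw hl hy (fun x hx k hk => hl2 x hx ⟨k, hk⟩)
  subst hji
  have hyw : y ≠ b w := by
    rintro rfl
    exact hw j (hq.only j _ hy (mem_range_self _)).symm
  have hwl : (y :: l2).getLast? = some (b w) := by
    have h3 := pp_last h haw
    rwa [hl, List.getLast?_append_cons] at h3
  have hlch := pp_chain h haw
  rw [hl, List.isChain_split] at hlch
  have hlnd := pp_nodup h haw
  rw [hl, List.nodup_append] at hlnd
  obtain ⟨l3, hl3⟩ : ∃ l3, l2 = l3 ++ [b w] := by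
    rcases List.eq_nil_or_concat l2 with h1 | ⟨l3, c, h1⟩
    · rw [h1] at hwl
      exact absurd (by simpa using hwl) hyw
    · refine ⟨l3, ?_⟩
      rw [h1, List.concat_eq_append, ← List.cons_append, List.getLast?_append] at hwl
      have h2 : c = b w := by simpa using hwl
      rw [h1, h2, List.concat_eq_append]
  have hch : (y :: l3).IsChain G.Adj ∧ ∀ x ∈ (y :: l3).getLast?, G.Adj x (b w) := by
    have h1 := hlch.2
    rw [hl3, ← List.cons_append, List.isChain_append] at h1
    exact ⟨h1.1, fun x hx => h1.2.2 x hx (b w) (by simp)⟩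
  have hbw : b w ∉ y :: l3 := by
    have h1 := hlnd.2.1
    rw [hl3, ← List.cons_append, List.nodup_append] at h1
    intro h2
    exact h1.2.2 _ h2 _ (by simp) rfl
  refine ⟨{x | x ∈ y :: l3}, ⟨y, List.mem_cons_self, hy, ?_, ?_⟩, ?_, ?_⟩
  · intro x hx
    exact chain_cn (y :: l3) y hch.1 rfl x hx
  · intro x hx
    rcases List.mem_cons.1 hx with h1 | h1
    · exact Or.inl h1
    · right
      intro k hk
      exact hl2 x (by rw [hl3]; exact List.mem_append_left _ h1) ⟨k, hk⟩
  · obtain ⟨x, hx⟩ : ∃ x, (y :: l3).getLast? = some x := by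
      rw [List.getLast?_cons]
      exact ⟨_, rfl⟩
    exact ⟨x, List.mem_of_getLast? hx, hch.2 x hx⟩
  · intro x hx
    refine ⟨?_, ?_⟩
    · rw [hl, hl3, ← List.cons_append]
      exact List.mem_append_right _ (List.mem_append_left _ hx)
    · rintro rfl
      exact hbw hx

end tk

end HX_L5

open HX_L5 in
theorem prH_L5 : H_L5 := by
  classical
  intro V _ G n z b p h hex
  -- a minimal system
  obtain ⟨e, q, hq, hmin⟩ : ∃ (e : Fin n → V) (q : Fin n → List V), PthS G n z (range b) e q ∧
      ∀ e' q', PthS G n z (range b) e' q' → (Cst p q).ncard ≤ (Cst p q').ncard := by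
    have hne : {c : ℕ | ∃ (e : Fin n → V) (q : Fin n → List V), PthS G n z (range b) e q ∧
        (Cst p q).ncard = c}.Nonempty := by
      obtain ⟨e, q, hq⟩ := hex
      exact ⟨_, e, q, hq, rfl⟩
    obtain ⟨e, q, hq, hc⟩ := Nat.sInf_mem hne
    refine ⟨e, q, hq, fun e' q' hq' => ?_⟩
    rw [hc]
    exact Nat.sInf_le ⟨e', q', hq', rfl⟩
  have hε : ∀ i, ∃ a, e i = b a := fun i => by
    obtain ⟨a, ha⟩ := hq.eU i
    exact ⟨a, ha.symm⟩
  choose ε hε using hε
  have hεi : Function.Injective ε := by
    intro i j hij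
    by_contra hne
    have h1 : e i ∈ q j := by
      rw [hε i, hij, ← hε j]
      exact e_mem hq j
    exact hq.dis i j hne (e_mem hq i) h1
  -- unused branch vertices
  obtain ⟨f, hf1, hf2⟩ : ∃ f : Fin n × Fin n → Fin (n + n ^ 2), Function.Injective f ∧
      ∀ u j, f u ≠ ε j := by
    have hcard : Fintype.card (Fin n × Fin n) ≤
        Fintype.card ↥((Finset.univ.image ε)ᶜ : Finset (Fin (n + n ^ 2))) := by
      rw [Fintype.card_coe, Finset.card_compl, Finset.card_image_of_injective _ hεi,
        Fintype.card_prod, Fintype.card_fin, Fintype.card_fin, Finset.card_univ, Fintype.card_fin]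
      rw [Nat.add_sub_cancel_left, sq]
    obtain ⟨g⟩ := Function.Embedding.nonempty_of_card_le hcard
    refine ⟨fun u => (g u).1, fun u v huv => g.injective (Subtype.ext huv), ?_⟩
    intro u j huj
    have h1 := (g u).2
    rw [Finset.mem_compl] at h1
    exact h1 (Finset.mem_image.2 ⟨j, Finset.mem_univ _, huj.symm⟩)
  let W : Fin n → Fin n → Fin (n + n ^ 2) := fun i j => f (min i j, max i j)
  have hWu : ∀ i j k, e k ≠ b (W i j) := by
    intro i j k hk
    rw [hε k] at hk
    exact hf2 _ k (h.inj hk).symm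
  have hWε : ∀ i j k, W i j ≠ ε k := fun i j k => hf2 _ k
  have hWs : ∀ i j, W i j = W j i := fun i j => by
    show f (min i j, max i j) = f (min j i, max j i)
    rw [min_comm, max_comm]
  have hrest := fun i j => rest h hq hmin (hε i) (hWu i j)
  choose A hA1 hA2 hA3 using hrest
  let M : Fin n → Set V := fun i =>
    {x | x ∈ q i} ∪ {x | ∃ j, x ∈ A i j} ∪ {x | ∃ j, i < j ∧ x = b (W i j)}
  have hMq : ∀ i, {x | x ∈ q i} ⊆ M i := fun i x hx => Or.inl (Or.inl hx)
  have hMA : ∀ i j, A i j ⊆ M i := fun i j x hx => Or.inl (Or.inr ⟨j, hx⟩)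
  have hMb : ∀ i j, i < j → b (W i j) ∈ M i := fun i j hij => Or.inr ⟨j, hij, rfl⟩
  have hz : ∀ i, z i ∈ q i := fun i => List.mem_of_head? (hq.hd i)
  have hcon : ∀ i, ∀ x ∈ M i, Cn G (M i) (z i) x := by
    intro i x hx
    have hA : ∀ j, ∀ x ∈ A i j, Cn G (M i) (z i) x := by
      intro j x hx
      obtain ⟨y, hy1, hy2, hy3, _⟩ := hA1 i j
      exact ((chain_cn' (hq.ch i) _ (hz i) y hy2).mono (hMq i)).trans ((hy3 x hx).mono (hMA i j))
    rcases hx with (hx | ⟨j, hx⟩) | ⟨j, hij, rfl⟩
    · exact (chain_cn' (hq.ch i) _ (hz i) x hx).mono (hMq i)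
    · exact hA j x hx
    · obtain ⟨x', hx', hadj⟩ := hA2 i j
      exact (hA j x' hx').tail hadj (hMb i j hij)
  -- description of the members
  have hdesc : ∀ i, ∀ x ∈ M i, x ∈ q i ∨
      ((∀ k, x ∉ q k) ∧ ∃ j, x ∈ pp p (ε i) (W i j) ∧ x ≠ b (W i j)) ∨
      ∃ j, i < j ∧ x = b (W i j) := by
    intro i x hx
    rcases hx with (hx | ⟨j, hx⟩) | hx
    · exact Or.inl hx
    · obtain ⟨y, _, hy2, _, hy4⟩ := hA1 i j
      rcases hy4 x hx with rfl | h1
      · exact Or.inl hy2
      · exact Or.inr (Or.inl ⟨h1, j, hA3 i j x hx⟩)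
    · exact Or.inr (Or.inr hx)
  have hdab : ∀ i j, ∀ x, x ∈ q i → ((∀ k, x ∉ q k) ∧ ∃ j', x ∈ pp p (ε j) (W j j') ∧
      x ≠ b (W j j')) → False := fun i j x hx hx' => hx'.1 i hx
  have hdac : ∀ i j, ∀ x, x ∈ q i → (∃ j', j < j' ∧ x = b (W j j')) → False := by
    rintro i j x hx ⟨j', _, rfl⟩
    exact hWu j j' i (hq.only i _ hx (mem_range_self _)).symm
  have hdbc : ∀ i j, ∀ x, ((∀ k, x ∉ q k) ∧ ∃ j', x ∈ pp p (ε i) (W i j') ∧ x ≠ b (W i j')) →
      (∃ j', j < j' ∧ x = b (W j j')) → False := by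
    rintro i j x ⟨_, j', h2, h3⟩ ⟨j'', _, rfl⟩
    rcases pp_br h (fun h4 => hWε i j' i h4.symm) h2 with h5 | h5
    · exact hWε _ _ _ h5
    · exact h3 (by rw [h5])
  refine ⟨M, fun i => ⟨hMq i (hz i), subset_univ _, fun x hx y hy =>
    (hcon i x hx).symm.trans (hcon i y hy)⟩, ?_, ?_⟩
  · intro i j hij
    rw [Set.disjoint_left]
    intro x hx hx'
    rcases hdesc i x hx with h1 | h1 | h1 <;> rcases hdesc j x hx' with h2 | h2 | h2
    · exact hq.dis i j hij h1 h2
    · exact hdab i j x h1 h2
    · exact hdac i j x h1 h2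
    · exact hdab j i x h2 h1
    · obtain ⟨h3, k, h4, h5⟩ := h1
      obtain ⟨_, k', h6, h7⟩ := h2
      have hb : ∀ c, x ≠ b c := by
        rintro c rfl
        rcases pp_br h (fun h8 => hWε i k i h8.symm) h4 with rfl | rfl
        · exact h3 i (by rw [← hε i]; exact e_mem hq i)
        · exact h5 rfl
      rcases pp_dis h (fun h8 => hWε i k i h8.symm) (fun h8 => hWε j k' j h8.symm) h4 h6 hb
        with ⟨h8, _⟩ | ⟨h8, _⟩
      · exact hij (hεi h8.symm)
      · exact hWε i k j h8.symm
    · exact hdbc i j x h1 h2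
    · exact hdac j i x h2 h1
    · exact hdbc j i x h2 h1
    · obtain ⟨k, hk, rfl⟩ := h1
      obtain ⟨k', hk', h3⟩ := h2
      have h4 := hf1 (h.inj h3)
      have h5 : min i k = min j k' := (Prod.ext_iff.1 h4).1
      rw [min_eq_left hk.le, min_eq_left hk'.le] at h5
      exact hij h5
  · have key : ∀ i j, i < j → ∃ x ∈ M i, ∃ y ∈ M j, G.Adj x y := by
      intro i j hij
      obtain ⟨x, hx, hadj⟩ := hA2 j i
      refine ⟨b (W i j), hMb i j hij, x, hMA j i hx, ?_⟩
      rw [hWs i j]
      exact hadj.symm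
    intro i j hij
    rcases lt_or_gt_of_ne hij with h1 | h1
    · exact key i j h1
    · obtain ⟨x, hx, y, hy, hxy⟩ := key j i h1
      exact ⟨y, hy, x, hx, hxy.symm⟩

end Pool.MP_0d2ef4_co
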