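import Pool.Agent.Work.MP_0d2ef4_co.HC.Stmts
import Pool.Agent.Work.MP_0d2ef4_co.WQ.Basic

/-!
# Block HC, item LNK: assembly of the linkage
-/

set_option autoImplicit false

namespace Pool.MP_0d2ef4_co

open Set

universe u v

namespace HX_LNK

variable {V : Type u} {W : Type v}

/-- reachability goes to the image -/
theorem cn_image (G : SimpleGraph V) (ψ : W → V) {T : Set W} {a b : W}
    (h : Cn (G.comap ψ) T a b) : Cn G (ψ '' T) (ψ a) (ψ b) := by
  refine Cn.induct (p := fun x => Cn G (ψ '' T) (ψ a) (ψ x)) h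
    (Cn.refl (mem_image_of_mem ψ h.left)) ?_
  intro x y _ hxy hy hx
  exact hx.tail (SimpleGraph.comap_adj.1 hxy) (mem_image_of_mem ψ hy)

/-- reachability in the image comes from reachability -/
theorem cn_of_image (G : SimpleGraph V) (ψ : W → V) (hψ : Function.Injective ψ) {T : Set W}
    {a b : W} (h : Cn G (ψ '' T) (ψ a) (ψ b)) : Cn (G.comap ψ) T a b := by
  have ha : a ∈ T := by
    obtain ⟨c, hc, h1⟩ := h.left
    rw [← hψ h1]; exact hc
  have key := Cn.induct (p := fun y => ∀ b, ψ b = y → Cn (G.comap ψ) T a b) h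
    (fun b hb => by rw [hψ hb]; exact Cn.refl ha) (by
      intro x y hx hxy hy hp b hb
      obtain ⟨x0, _, h1⟩ := hx.right
      obtain ⟨y0, hy0, h2⟩ := hy
      have hby : b = y0 := hψ (by rw [hb, h2])
      refine (hp x0 h1).tail ?_ (by rw [hby]; exact hy0)
      rw [SimpleGraph.comap_adj, h1, hb]
      exact hxy)
  exact key b rfl

end HX_LNK

open HX_LNK in
theorem prH_LNK (h2 : H_L2) (h3 : H_L3) (h4 : H_L4) (h5 : H_L5) : H_LNK.{u} := by
  intro n
  obtain ⟨D, hD⟩ := h2 (n + n ^ 2)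
  refine ⟨D + n + 2 + (n + n ^ 2), ?_⟩
  intro V G S hfin hK hU I _ hI z hz hzS
  classical
  haveI : Fintype S := hfin.fintype
  have hcard : Fintype.card S = S.ncard := by
    rw [← Nat.card_eq_fintype_card, Nat.card_coe_set_eq]
  let e : S ≃ Fin (Fintype.card S) := Fintype.equivFin S
  let ψ : Fin (Fintype.card S) → V := fun i => (e.symm i : V)
  have hψ : Function.Injective ψ := fun i j h => e.symm.injective (Subtype.ext h)
  have hψe : ∀ s : S, ψ (e s) = s := fun s => by
    show ((e.symm (e s) : S) : V) = s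
    rw [Equiv.symm_apply_apply]
  have hψS : ∀ i, ψ i ∈ S := fun i => (e.symm i).2
  let G0 : SimpleGraph (Fin (Fintype.card S)) := G.comap ψ
  have hU0 : Un G0 (D + n + 2 + (n + n ^ 2)) univ := by
    intro F hF a ha b hb
    have himg : ψ '' (univ \ (F : Set (Fin (Fintype.card S)))) =
        S \ ((F.image ψ : Finset V) : Set V) := by
      ext x
      constructor
      · rintro ⟨i, hi, rfl⟩
        refine ⟨hψS i, ?_⟩
        intro hx
        rw [Finset.mem_coe, Finset.mem_image] at hx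
        obtain ⟨j, hj, hji⟩ := hx
        rw [hψ hji] at hj
        exact hi.2 hj
      · rintro ⟨hx, hx'⟩
        refine ⟨e ⟨x, hx⟩, ⟨mem_univ _, ?_⟩, hψe ⟨x, hx⟩⟩
        intro h
        apply hx'
        rw [Finset.mem_coe, Finset.mem_image]
        exact ⟨_, h, hψe ⟨x, hx⟩⟩
    apply cn_of_image G ψ hψ
    rw [himg]
    apply hU
    · rw [Finset.card_image_of_injective _ hψ]; exact hF
    · rw [← himg]; exact mem_image_of_mem ψ ha
    · rw [← himg]; exact mem_image_of_mem ψ hb
  have hK0 : D + n + 2 + (n + n ^ 2) ≤ Fintype.card (Fin (Fintype.card S)) := by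
    rw [Fintype.card_fin, hcard]; exact hK
  have h3' := h3 G0 (D + n + 2 + (n + n ^ 2)) hK0 hU0
  have hne : (Finset.univ : Finset (Fin (Fintype.card S))).Nonempty := by
    rw [← Finset.card_pos, Finset.card_univ]
    omega
  obtain ⟨b, p, hbp⟩ := hD G0 Finset.univ hne (by
    rw [Finset.card_univ]
    refine le_trans (Nat.mul_le_mul_right _ ?_) h3'
    omega)
  rw [Finset.coe_univ] at hbp
  let τ : I ≃ Fin n := Finite.equivFinOfCardEq hI
  let z0 : Fin n → Fin (Fintype.card S) := fun j => e ⟨z (τ.symm j), hzS _⟩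
  have hz0 : Function.Injective z0 := by
    intro j k h
    have h1 := e.injective h
    rw [Subtype.mk.injEq] at h1
    exact τ.symm.injective (hz h1)
  have hUn : Un G0 n univ := by
    intro F hF
    exact hU0 F (by omega)
  have hnb : n ≤ (range b).ncard := by
    rw [← Nat.card_coe_set_eq, Nat.card_range_of_injective hbp.inj, Nat.card_fin]
    omega
  obtain ⟨M0, hM1, hM2, hM3⟩ := h5 G0 n z0 b p hbp (h4 G0 n z0 (range b) hz0 hUn hnb)
  refine ⟨fun i => ψ '' M0 (τ i), ?_, ?_, ?_⟩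
  · intro i
    obtain ⟨g1, _, g3⟩ := hM1 (τ i)
    refine ⟨⟨z0 (τ i), g1, ?_⟩, ?_, ?_⟩
    · show ψ (e ⟨z (τ.symm (τ i)), _⟩) = z i
      rw [hψe]
      show z (τ.symm (τ i)) = z i
      rw [Equiv.symm_apply_apply]
    · rintro x ⟨j, _, rfl⟩
      exact hψS j
    · rintro x ⟨x0, hx0, rfl⟩ y ⟨y0, hy0, rfl⟩
      exact cn_image G ψ (g3 x0 hx0 y0 hy0)
  · intro i j hij
    exact (disjoint_image_iff hψ).2 (hM2 (τ i) (τ j) (fun h => hij (τ.injective h)))
  · intro i j hij
    obtain ⟨x, hx, y, hy, hxy⟩ := hM3 (τ i) (τ j) (fun h => hij (τ.injective h))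
    exact ⟨ψ x, mem_image_of_mem ψ hx, ψ y, mem_image_of_mem ψ hy, hxy⟩

end Pool.MP_0d2ef4_co
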