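import Pool.Agent.Work.MP_0d2ef4_co.HC.Stmts
import Pool.Agent.Work.MP_0d2ef4_co.WQ.Basic

/-! Block HC, item MAXB: blocks at the root are maximal. -/

set_option autoImplicit false

namespace Pool.MP_0d2ef4_co

open Set

universe u

/-- A connection that starts in `dom G r w` and avoids `w` stays in `dom G r w`. -/
lemma HX_MAXB.stay (hd : DomFacts.{u}) {V : Type u} {G : SimpleGraph V} {r w : V} {T : Set V}
    {a b : V} (hw : w ∉ T) (ha : a ∈ dom G r w) (h : Cn G T a b) : b ∈ dom G r w := by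
  refine Cn.induct (p := fun y => y ∈ dom G r w) h ha ?_
  intro x y hx hxy _ hxd
  refine hd.bdry G r w x y hxd ?_ hxy
  intro hxw
  exact hw (hxw ▸ hx.right)

theorem prH_MAXB (hd : DomFacts.{u}) (h2 : TwoConStmt.{u}) : H_MAXB.{u} := by
  intro V G r v c hc
  refine ⟨subset_univ _, h2 V G r v c hc, ?_⟩
  intro B' _ hB' hsub
  have hvB : v ∈ B' := hsub (mem_insert _ _)
  have hcC : c ∈ cmp G (Ch G r v) c := self_mem_cmp hc
  have hcB : c ∈ B' := hsub (mem_insert_of_mem _ hcC)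
  obtain ⟨hcd, hcv, -⟩ := hc
  obtain ⟨-, hconn, hcut⟩ := hB'
  have h1 : ∀ x ∈ B', x ≠ v → Cn G (B' \ {v}) c x := by
    intro x hx hxv
    exact hcut v hvB c ⟨hcB, hcv⟩ x ⟨hx, hxv⟩
  have hch : ∀ x ∈ B', x ≠ v → x ∈ Ch G r v := by
    intro x hx hxv
    have hxd : x ∈ dom G r v :=
      HX_MAXB.stay hd (T := B' \ {v}) (fun h => h.2 rfl) hcd (h1 x hx hxv)
    obtain ⟨w, hw, hxw⟩ := hd.child G r v x hxd hxv
    by_cases hxw' : x = w
    · rw [hxw']
      exact hw
    · exfalso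
      have hwv : w ≠ v := hw.2.1
      have hvw : v ∈ dom G r w := by
        by_cases hwB : w ∈ B'
        · exact HX_MAXB.stay hd (T := B' \ {w}) (fun h => h.2 rfl) hxw
            (hcut w hwB x ⟨hx, hxw'⟩ v ⟨hvB, fun h => hwv h.symm⟩)
        · exact HX_MAXB.stay hd hwB hxw (hconn x hx v hvB)
      exact hwv (hd.antisymm G r v w hw.1 hvw).symm
  intro x hx
  by_cases hxv : x = v
  · rw [hxv]
    exact mem_insert _ _
  · refine mem_insert_of_mem _ ?_
    exact (h1 x hx hxv).mono fun y hy => hch y hy.1 hy.2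

end Pool.MP_0d2ef4_co
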