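import Pool.Agent.Work.MP_0d2ef4_co.HC.Stmts
import Pool.Agent.Work.MP_0d2ef4_co.WQ.Arr

/-!
# Block HC, item PRD: products with a finite set and optional elements

Author: helper57.
-/

set_option autoImplicit false

namespace Pool.MP_0d2ef4_co

open Set

universe u v

theorem prH_PRD : H_PRD.{v} := by
  intro Q le P A h
  constructor
  · intro B hB hBi f hf hP
    obtain ⟨C, hC1, hC2, hC3⟩ := gp_pred (p := fun X => (f X).2)
      (hf.measurableSet_setOf (fun q => q.2)) hBi
    have h2 : ∀ X, X ⊆ C → X.Infinite → ((f X).2 ↔ (f (tl X)).2) := by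
      intro X hX hXi
      rcases hC3 with h3 | h3
      · exact ⟨fun _ => h3 _ ((tl_subset X).trans hX) (tl_infinite hXi), fun _ => h3 X hX hXi⟩
      · exact ⟨fun h4 => absurd h4 (h3 X hX hXi),
          fun h4 => absurd h4 (h3 _ ((tl_subset X).trans hX) (tl_infinite hXi))⟩
    obtain ⟨X, hX, hXi, h3⟩ := h C (hC1.trans hB) hC2 (fun X => (f X).1) (hf.comp Prod.fst)
      (fun X hX hXi => hP X (hX.trans hC1) hXi)
    exact ⟨X, hX.trans hC1, hXi, h3, h2 X hX hXi⟩
  · intro B hB hBi f hf hP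
    obtain ⟨C, hC1, hC2, hC3⟩ := gp_pred (p := fun X => f X = none)
      (hf.measurableSet_setOf (fun q => q = none)) hBi
    rcases hC3 with h3 | h3
    · refine ⟨C, hC1, hC2, ?_⟩
      rw [h3 C Subset.rfl hC2, h3 _ (tl_subset C) (tl_infinite hC2)]
      trivial
    · obtain ⟨q0, hq0⟩ := Option.ne_none_iff_exists'.1 (h3 C Subset.rfl hC2)
      have hs : ∀ X, X ⊆ C → X.Infinite → f X = some ((f X).getD q0) := by
        intro X hX hXi
        obtain ⟨q, hq⟩ := Option.ne_none_iff_exists'.1 (h3 X hX hXi)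
        rw [hq]
        rfl
      obtain ⟨X, hX, hXi, h4⟩ := h C (hC1.trans hB) hC2 (fun X => (f X).getD q0)
        (hf.comp (fun o => o.getD q0))
        (fun X hX hXi => hP X (hX.trans hC1) hXi _ (hs X hX hXi))
      refine ⟨X, hX.trans hC1, hXi, ?_⟩
      rw [hs X hX hXi, hs _ ((tl_subset X).trans hX) (tl_infinite hXi)]
      exact h4

end Pool.MP_0d2ef4_co
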