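import Pool.Agent.Work.MP_0d2ef4_co.HC.Stmts
import Pool.Agent.Work.MP_0d2ef4_co.WQ.Basic
import Pool.Agent.Work.MP_0d2ef4_co.WQ.Arr

/-! Block HC, item RGL: labelled rooted graphs. -/

set_option autoImplicit false

namespace Pool.MP_0d2ef4_co

open Set

universe u v

namespace HX_RGL

/-- The conditions are inherited. -/
theorem inherit (K : Kd.{u}) {L : Type v} (P : Set ℕ → L → Prop) (X : Set ℕ) (a b : LRG.{u} L)
    (h : LRP K P X b) (hab : LRG.lt a b) : LRP K P X a := by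
  obtain ⟨w, rfl, h4, -, -⟩ := hab
  exact ⟨h4.1, h.2.1, h.2.2.1, h.2.2.2⟩

/-- The labels of a block. -/
theorem labeq {L : Type v} (x : LRG.{u} L) (C : Set x.V) (w : x.V) (q : LRG.{u} L)
    (h : (x.blk C).lab w = some q) : w ≠ x.v ∧ q = ⟨x.V, x.G, x.r, w, x.lab⟩ := by
  unfold LRG.blk at h
  dsimp only at h
  split_ifs at h with h1
  exact ⟨h1, (Option.some.inj h).symm⟩

/-- The blocks at the root satisfy the conditions. -/
theorem block (hb : H_MAXB.{u}) (K : Kd.{u}) {L : Type v} (P : Set ℕ → L → Prop) (X : Set ℕ)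
    (x : LRG.{u} L) (h : LRP K P X x) (c : x.V) (hc : c ∈ Ch x.G x.r x.v) :
    RaylessOn (x.blk (cmp x.G (Ch x.G x.r x.v) c)).H (x.blk (cmp x.G (Ch x.G x.r x.v) c)).S ∧
    K (x.blk (cmp x.G (Ch x.G x.r x.v) c)).W (x.blk (cmp x.G (Ch x.G x.r x.v) c)).H
      (x.blk (cmp x.G (Ch x.G x.r x.v) c)).S ∧
    ∀ w ∈ (x.blk (cmp x.G (Ch x.G x.r x.v) c)).S, ∀ q,
      (x.blk (cmp x.G (Ch x.G x.r x.v) c)).lab w = some q → LRG.lt q x := by
  obtain ⟨h1, h2, h3, -⟩ := h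
  refine ⟨?_, ?_, ?_⟩
  · exact h2.mono (subset_univ _)
  · refine h3 (insert x.v (cmp x.G (Ch x.G x.r x.v) c)) (hb _ _ _ _ _ hc) ?_
    rintro w (rfl | hw)
    · exact h1
    · exact (cmp_subset hw).1.1
  · intro w hw q hq
    have hw' : w = x.v ∨ w ∈ cmp x.G (Ch x.G x.r x.v) c := hw
    obtain ⟨hwv, hq2⟩ := labeq x _ w q hq
    have hw2 := cmp_subset (hw'.resolve_left hwv)
    exact ⟨w, hq2, hw2.1, hwv, h2⟩

end HX_RGL

theorem prH_RGL (hm : MBAStmt.{u + 1}) (hf : FamStmt.{u, u + 1}) (hp : H_PRD.{u + 1})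
    (hb : H_MAXB.{u}) (hg : H_GLU.{u}) (hl : H_LTL.{u}) : H_RGL.{u} := by
  intro K hK L leL P A hNB
  by_contra hcon
  obtain ⟨B, hBA, hBi, g, hga, hgP, hgbad, hgNB⟩ := hm (LRG.{u} L) (LRM.{u} leL) LRG.lt
    (hl L leL).wf (hl L leL).trans (hl L leL).le (LRP K P)
    (fun X a b h hab => HX_RGL.inherit K P X a b h hab) A hcon
  obtain ⟨C, hCB, hCi, hroot⟩ := hNB.perfect hBA hBi
    (f := fun X => (g X).lab (g X).v) (hga.comp (fun x => x.lab x.v))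
    (fun X hX hXi => (hgP X hX hXi).2.2.2 _ (hgP X hX hXi).1)
  have h0 := (hp (LRG.{u} L) (LRM.{u} leL) (fun X q => LRG.lt q (g X)) B hgNB).2
  have h1 := hK (Option (LRG.{u} L)) (OptLe (LRM.{u} leL)) _ B h0
  have h2 := hf (CS.{u} (Option (LRG.{u} L))) (CM.{u} (OptLe (LRM.{u} leL))) _ B h1
  obtain ⟨X, hX, hXi, hle⟩ := h2 C hCB hCi (fun X => (g X).fam) (hga.comp LRG.fam) (by
    rintro X hX hXi ⟨D, c, hc, rfl⟩
    exact HX_RGL.block hb K P X (g X) (hgP X (hX.trans hCB) hXi) c hc)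
  refine hgbad X (hX.trans hCB) hXi (hg L leL (g X) (g (tl X))
    (hgP X (hX.trans hCB) hXi).1 ?_ (hroot X hX hXi) hle)
  exact (hgP (tl X) ((tl_subset X).trans (hX.trans hCB)) (tl_infinite hXi)).1

end Pool.MP_0d2ef4_co
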