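import Pool.Agent.Work.MP_0d2ef4_co.HC.Stmts
import Pool.Agent.Work.MP_0d2ef4_co.WQ.Basic
import Pool.Agent.Work.MP_0d2ef4_co.WQ.Arr

/-!
# Block HC, item TOPL: from rooted graphs to sets
-/

set_option autoImplicit false

namespace Pool.MP_0d2ef4_co

open Set

universe u v

namespace HX_TOPL

/-- the edges inside `S` -/
def rs {V : Type u} (H : SimpleGraph V) (S : Set V) : SimpleGraph V where
  Adj a b := H.Adj a b ∧ a ∈ S ∧ b ∈ S
  symm := ⟨fun _ _ h => ⟨h.1.symm, h.2.2, h.2.1⟩⟩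
  loopless := ⟨fun _ h => H.loopless.irrefl _ h.1⟩

section graph

variable {V : Type u} {H : SimpleGraph V} {S T : Set V} {a b : V}

lemma cn_to (h : Cn (rs H S) T a b) : Cn H T a b := by
  refine Cn.induct (p := fun b => Cn H T a b) h (Cn.refl h.left) ?_
  intro x y _ hxy hy ih
  exact ih.tail hxy.1 hy

lemma cn_of (hT : T ⊆ S) (h : Cn H T a b) : Cn (rs H S) T a b := by
  refine Cn.induct (p := fun b => Cn (rs H S) T a b) h (Cn.refl h.left) ?_
  intro x y hx hxy hy ih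
  exact ih.tail ⟨hxy, hT hx.right, hT hy⟩ hy

lemma cn_univ (ha : a ∈ S) : Cn (rs H S) univ a b ↔ Cn H S a b := by
  constructor
  · intro h
    refine Cn.induct (p := fun b => Cn H S a b) h (Cn.refl ha) ?_
    intro x y _ hxy _ ih
    exact ih.tail hxy.1 hxy.2.2
  · intro h
    exact (cn_of Subset.rfl h).mono (subset_univ _)

lemma twoCon_iff' (hT : T ⊆ S) : TwoCon (rs H S) T ↔ TwoCon H T := by
  constructor
  · rintro ⟨h1, h2, h3⟩
    exact ⟨h1, fun a ha b hb => cn_to (h2 a ha b hb),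
      fun w hw a ha b hb => cn_to (h3 w hw a ha b hb)⟩
  · rintro ⟨h1, h2, h3⟩
    exact ⟨h1, fun a ha b hb => cn_of hT (h2 a ha b hb),
      fun w hw a ha b hb => cn_of (sdiff_subset.trans hT) (h3 w hw a ha b hb)⟩

lemma dom_self' (G : SimpleGraph V) (r : V) : dom G r r = cmp G univ r := by
  ext y
  constructor
  · intro h
    exact h.1
  · intro h
    exact ⟨h, fun h' => h'.left rfl⟩

lemma dom_rs (ha : a ∈ S) : dom (rs H S) a a = cmp H S a := by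
  rw [dom_self']
  ext b
  exact cn_univ ha

end graph

/-- the family of the components, with roots -/
noncomputable def fam {L : Type v} (c : CS.{u} L) : Fam.{u} (LRG.{u} L) where
  I := {C : Set c.W // ∃ a ∈ c.S, C = cmp c.H c.S a}
  x := fun C => ⟨c.W, rs c.H c.S, C.2.choose, C.2.choose, c.lab⟩

lemma hmem {L : Type v} (c : CS.{u} L) (C : {C : Set c.W // ∃ a ∈ c.S, C = cmp c.H c.S a}) :
    dom (rs c.H c.S) C.2.choose C.2.choose = C.1 := by
  rw [dom_rs C.2.choose_spec.1, ← C.2.choose_spec.2]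

lemma lrp {L : Type v} (K : Kd.{u}) (hL : LocalK K) (P : Set ℕ → L → Prop) (X : Set ℕ)
    (c : CS.{u} L) (h1 : RaylessOn c.H c.S) (h2 : BlkK K c.W c.H c.S)
    (h3 : ∀ w ∈ c.S, P X (c.lab w)) (a : c.W) (ha : a ∈ c.S) :
    LRP K P X (⟨c.W, rs c.H c.S, a, a, c.lab⟩ : LRG.{u} L) := by
  refine ⟨Cn.refl (mem_univ _), ?_, ?_, ?_⟩
  · rintro ⟨f, hf1, -, hf3⟩
    exact h1 ⟨f, hf1, fun n => (hf3 n).2.1, fun n => (hf3 n).1⟩
  · intro B hB hBc
    have hBS : B ⊆ c.S := fun w hw => ((cn_univ ha).1 (hBc w hw)).right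
    have hB' : BlkOn c.H c.S B := by
      refine ⟨hBS, (twoCon_iff' hBS).1 hB.2.1, ?_⟩
      intro B' hB'S hB'2 hBB'
      exact hB.2.2 B' (subset_univ _) ((twoCon_iff' hB'S).2 hB'2) hBB'
    refine hL c.W c.H (rs c.H c.S) B ?_ (h2 B hB')
    intro x hx y hy
    exact ⟨fun h => ⟨h, hBS hx, hBS hy⟩, fun h => h.1⟩
  · intro w hw
    exact h3 w ((cn_univ ha).1 hw).right

lemma cm_of_fam {L : Type v} {leL : L → L → Prop} {x y : CS.{u} L}
    (h : Fam.le (LRM leL) (fam x) (fam y)) : CM leL x y := by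
  classical
  obtain ⟨σ, hσ, hM⟩ := h
  have hM' : ∀ C : {C : Set x.W // ∃ a ∈ x.S, C = cmp x.H x.S a},
      ∃ (D : {C : Set y.W // ∃ a ∈ y.S, C = cmp y.H y.S a}) (M : x.W → Set y.W), D = σ C ∧
      (∀ a ∈ C.1, M a ⊆ D.1 ∧ (∀ p ∈ M a, ∀ q ∈ M a, Cn y.H (M a) p q) ∧
        ∃ p ∈ M a, leL (x.lab a) (y.lab p)) ∧
      (∀ a ∈ C.1, ∀ b ∈ C.1, a ≠ b → Disjoint (M a) (M b)) ∧
      (∀ a ∈ C.1, ∀ b ∈ C.1, x.H.Adj a b → ∃ p ∈ M a, ∃ q ∈ M b, y.H.Adj p q) := by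
    intro C
    obtain ⟨M, h1, h2, h3, -⟩ := hM C
    have hC : ∀ a ∈ C.1, a ∈ dom (rs x.H x.S) C.2.choose C.2.choose := fun a ha => by
      rw [hmem x C]
      exact ha
    have hCS : ∀ a ∈ C.1, a ∈ x.S := fun a ha => by
      obtain ⟨a', ha', e⟩ := C.2
      rw [e] at ha
      exact cmp_subset ha
    refine ⟨σ C, M, rfl, ?_, ?_, ?_⟩
    · intro a ha
      obtain ⟨g1, g2, g3⟩ := h1 a (hC a ha)
      refine ⟨?_, fun p hp q hq => cn_to (g2 p hp q hq), g3⟩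
      rw [← hmem y (σ C)]
      exact g1
    · intro a ha b hb hab
      exact h2 a (hC a ha) b (hC b hb) hab
    · intro a ha b hb hab
      obtain ⟨p, hp, q, hq, hpq⟩ := h3 a (hC a ha) b (hC b hb) ⟨hab, hCS a ha, hCS b hb⟩
      exact ⟨p, hp, q, hq, hpq.1⟩
  choose D M hD hM1 hM2 hM3 using hM'
  let cp : (a : x.W) → a ∈ x.S → {C : Set x.W // ∃ a ∈ x.S, C = cmp x.H x.S a} :=
    fun a ha => ⟨cmp x.H x.S a, a, ha, rfl⟩
  have hself : ∀ a (ha : a ∈ x.S), a ∈ (cp a ha).1 := fun a ha => Cn.refl ha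
  have hcp : ∀ a b (ha : a ∈ x.S) (hb : b ∈ x.S), x.H.Adj a b → cp a ha = cp b hb := by
    intro a b ha hb hab
    apply Subtype.ext
    exact cmp_eq (Cn.of_adj ha hb hab)
  obtain ⟨N, hN⟩ : ∃ N : x.W → Set y.W, ∀ a (ha : a ∈ x.S), N a = M (cp a ha) a :=
    ⟨fun a => if ha : a ∈ x.S then M (cp a ha) a else ∅, fun a ha => dif_pos ha⟩
  have hDS : ∀ C, (D C).1 ⊆ y.S := by
    intro C
    obtain ⟨b, hb, e⟩ := (D C).2
    rw [e]
    exact cmp_subset
  refine ⟨N, ?_, ?_, ?_⟩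
  · intro a ha
    obtain ⟨g1, g2, g3⟩ := hM1 (cp a ha) a (hself a ha)
    rw [hN a ha]
    exact ⟨g1.trans (hDS _), g2, g3⟩
  · intro a ha b hb hab
    rw [hN a ha, hN b hb]
    by_cases h : cp a ha = cp b hb
    · rw [← h]
      exact hM2 (cp a ha) a (hself a ha) b (h ▸ hself b hb) hab
    · rw [Set.disjoint_left]
      intro p hp hp'
      have h1 := (hM1 _ _ (hself a ha)).1 hp
      have h2 := (hM1 _ _ (hself b hb)).1 hp'
      apply h
      apply hσ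
      rw [← hD, ← hD]
      apply Subtype.ext
      obtain ⟨a', -, ha'⟩ := (D (cp a ha)).2
      obtain ⟨b', -, hb'⟩ := (D (cp b hb)).2
      rw [ha'] at h1 ⊢
      rw [hb'] at h2 ⊢
      rw [cmp_eq h1, cmp_eq h2]
  · intro a ha b hb hab
    have h := hcp a b ha hb hab
    rw [hN a ha, hN b hb, ← h]
    exact hM3 (cp a ha) a (hself a ha) b (h ▸ hself b hb) hab

end HX_TOPL

open HX_TOPL in
theorem prH_TOPL (hf : FamStmt.{u, u + 1}) (hr : H_RGL.{u}) : H_TOPL.{u} := by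
  intro K hK hL L leL P A hNB B hBA hB f hf1 hf2
  have h1 := hf (LRG.{u} L) (LRM.{u} leL) (LRP K P) A (hr K hK L leL P A hNB)
  obtain ⟨X, hXB, hX, hle⟩ := h1 B hBA hB (fun X => fam (f X)) (hf1.comp fam) (by
    intro X hXB hX C
    obtain ⟨g1, g2, g3⟩ := hf2 X hXB hX
    exact lrp K hL P X (f X) g1 g2 g3 _ C.2.choose_spec.1)
  exact ⟨X, hXB, hX, cm_of_fam hle⟩

end Pool.MP_0d2ef4_co
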