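import Pool.Agent.Work.MP_0d2ef4_co.HC.Stmts
import Pool.Agent.Work.MP_0d2ef4_co.WQ.Arr

/-!
# HC, item TUP: tuples of fixed length
-/

set_option autoImplicit false

namespace Pool.MP_0d2ef4_co

open Set Filter

universe u v

namespace HX_TUP

/-- Any finite set of coordinates is perfect on a smaller set. -/
theorem coords {n : ℕ} {Q : Type v} {le : Q → Q → Prop} {P : Set ℕ → Q → Prop} {A B : Set ℕ}
    (h : NB le P A) (hBA : B ⊆ A) (hB : B.Infinite) {f : Set ℕ → (Fin n → Q)} (hf : IsArr f)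
    (hP : ∀ X, X ⊆ B → X.Infinite → ∀ i, P X (f X i)) (s : Finset (Fin n)) :
    ∃ C, C ⊆ B ∧ C.Infinite ∧ ∀ X, X ⊆ C → X.Infinite → ∀ i ∈ s, le (f X i) (f (tl X) i) := by
  classical
  induction s using Finset.induction_on with
  | empty => exact ⟨B, Subset.rfl, hB, fun X _ _ i hi => absurd hi (Finset.notMem_empty i)⟩
  | insert k s hks ih =>
    obtain ⟨C, hC1, hC2, hC3⟩ := ih
    obtain ⟨D, hD1, hD2, hD3⟩ := NB.perfect h (hC1.trans hBA) hC2 (hf.comp fun a => a k)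
      (fun X hX hXi => hP X (hX.trans hC1) hXi k)
    refine ⟨D, hD1.trans hC1, hD2, fun X hX hXi i hi => ?_⟩
    rcases Finset.mem_insert.1 hi with h1 | h1
    · rw [h1]; exact hD3 X hX hXi
    · exact hC3 X (hX.trans hD1) hXi i h1

end HX_TUP

/-- **TUP.** -/
theorem prH_TUP : H_TUP.{v} := by
  intro n Q le P A h B hBA hB f hf hP
  obtain ⟨C, hC1, hC2, hC3⟩ := HX_TUP.coords h hBA hB hf hP Finset.univ
  exact ⟨C, hC1, hC2, fun i => hC3 C Subset.rfl hC2 i (Finset.mem_univ i)⟩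

end Pool.MP_0d2ef4_co
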