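import Pool.Agent.Work.MP_0d2ef4_co.WQ.I_MBA
import Pool.Agent.Work.MP_0d2ef4_co.WQ.I_TSEQ
import Pool.Agent.Work.MP_0d2ef4_co.WQ.I_FAM
import Pool.Agent.Work.MP_0d2ef4_co.WQ.I_RAY
import Pool.Agent.Work.MP_0d2ef4_co.WQ.I_DOM
import Pool.Agent.Work.MP_0d2ef4_co.WQ.I_TWO
import Pool.Agent.Work.MP_0d2ef4_co.HC.I_BND
import Pool.Agent.Work.MP_0d2ef4_co.HC.I_TUP
import Pool.Agent.Work.MP_0d2ef4_co.HC.I_PRD
import Pool.Agent.Work.MP_0d2ef4_co.HC.I_L1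
import Pool.Agent.Work.MP_0d2ef4_co.HC.I_L2
import Pool.Agent.Work.MP_0d2ef4_co.HC.I_L3
import Pool.Agent.Work.MP_0d2ef4_co.HC.I_L4
import Pool.Agent.Work.MP_0d2ef4_co.HC.I_L5
import Pool.Agent.Work.MP_0d2ef4_co.HC.I_LNK
import Pool.Agent.Work.MP_0d2ef4_co.HC.I_HCN
import Pool.Agent.Work.MP_0d2ef4_co.HC.I_DEL1
import Pool.Agent.Work.MP_0d2ef4_co.HC.I_DEL
import Pool.Agent.Work.MP_0d2ef4_co.HC.I_CMP
import Pool.Agent.Work.MP_0d2ef4_co.HC.I_LOC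
import Pool.Agent.Work.MP_0d2ef4_co.HC.I_MAXB
import Pool.Agent.Work.MP_0d2ef4_co.HC.I_GLU
import Pool.Agent.Work.MP_0d2ef4_co.HC.I_LTL
import Pool.Agent.Work.MP_0d2ef4_co.HC.I_RGL
import Pool.Agent.Work.MP_0d2ef4_co.HC.I_TOPL
import Pool.Agent.Work.MP_0d2ef4_co.HC.I_EQV
import Pool.Agent.Work.MP_0d2ef4_co.HC.I_ASM

/-! Assembly of the block HC. -/

namespace Pool.MP_0d2ef4_co

universe u

theorem hc_holds : H_ASM.{u} := by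
  have hfam : FamStmt.{u, u + 1} := fam_holds (tseq_holds mba_holds)
  have hray : RayStmt.{u} := ray_holds
  have hdom : DomFacts.{u} := dom_holds
  have hlnk : H_LNK.{u} := prH_LNK (prH_L2 prH_L1) prH_L3 prH_L4 prH_L5
  have hhcn : H_HCN.{u} := prH_HCN hfam prH_BND prH_TUP hlnk
  have hrgl : H_RGL.{u} := prH_RGL mba_holds hfam prH_PRD
    (prH_MAXB hdom (twocon_holds hdom)) (prH_GLU hdom) (prH_LTL hdom hray)
  exact prH_ASM hhcn (prH_CMP hfam) (prH_TOPL hfam hrgl) (prH_DEL (prH_DEL1 prH_PRD)) prH_LOC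
    prH_EQV

end Pool.MP_0d2ef4_co
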