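import Pool.Agent.Work.MP_0d2ef4_co.HC.Stmts
import Pool.Agent.Work.MP_0d2ef4_co.WQ.Basic

/-!
# Block HC, item L1: the step of Mader
-/

set_option autoImplicit false

namespace Pool.MP_0d2ef4_co

open Set

universe u v

namespace HX_L1

variable {V : Type} (G : SimpleGraph V)

open Classical in
/-- the neighbours of `U` in `S \ U` -/
noncomputable def nb (S U : Finset V) : Finset V :=
  (S \ U).filter fun x => ∃ y ∈ U, G.Adj x y

open Classical in
theorem ed_sum (T : Finset V) :
    ed G T = ∑ x ∈ T, ∑ y ∈ T, if G.Adj x y then 1 else 0 := by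
  unfold ed
  rw [Finset.card_filter, Finset.sum_product]

open Classical in
theorem dg_sum (T : Finset V) (v : V) : dg G T v = ∑ y ∈ T, if G.Adj v y then 1 else 0 := by
  unfold dg
  rw [Finset.card_filter]

open Classical in
theorem ed_erase (T : Finset V) (v : V) (hv : v ∈ T) :
    ed G T = ed G (T.erase v) + 2 * dg G (T.erase v) v := by
  have hT : insert v (T.erase v) = T := Finset.insert_erase hv
  have hn : v ∉ T.erase v := Finset.notMem_erase v T
  have h1 : ed G T = ed G (insert v (T.erase v)) := by rw [hT]
  rw [h1, ed_sum, ed_sum, dg_sum, Finset.sum_insert hn, Finset.sum_insert hn]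
  have h2 : ∑ x ∈ T.erase v, ∑ y ∈ insert v (T.erase v), (if G.Adj x y then 1 else 0) =
      ∑ x ∈ T.erase v, ((if G.Adj v x then 1 else 0) +
        ∑ y ∈ T.erase v, (if G.Adj x y then 1 else 0)) := by
    refine Finset.sum_congr rfl fun x _ => ?_
    rw [Finset.sum_insert hn]
    simp only [G.adj_comm x v]
  rw [h2, Finset.sum_add_distrib]
  have h3 : ¬ G.Adj v v := G.irrefl
  rw [if_neg h3]
  ring

/-- fine sets -/
def Fine (d : ℕ) (S U : Finset V) : Prop :=
  open Classical in
  U ⊆ S ∧ U.Nonempty ∧ (∀ a ∈ U, ∀ b ∈ U, Cn G ↑U a b) ∧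
    2 * d * ((S \ U).card + 1) ≤ ed G (S \ U) + 2 * (nb G S U).card

open Classical in
theorem step (d : ℕ) (S U : Finset V) (hU : Fine G d S U) (v : V) (hv : v ∈ nb G S U)
    (hd : dg G (nb G S U) v < d) : Fine G d S (insert v U) := by
  obtain ⟨hUS, hUn, hUc, hUi⟩ := hU
  obtain ⟨hvW, y, hyU, hvy⟩ := Finset.mem_filter.mp hv
  obtain ⟨hvS, hvU⟩ := Finset.mem_sdiff.mp hvW
  have hW : S \ insert v U = (S \ U).erase v := by
    ext x
    simp only [Finset.mem_sdiff, Finset.mem_insert, Finset.mem_erase, not_or]
    tauto
  refine ⟨Finset.insert_subset hvS hUS, Finset.insert_nonempty _ _, ?_, ?_⟩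
  · have hsub : (↑U : Set V) ⊆ ↑(insert v U) := by
      intro x hx
      exact Finset.mem_coe.mpr (Finset.mem_insert_of_mem (Finset.mem_coe.mp hx))
    have key : ∀ a ∈ insert v U, Cn G (↑(insert v U) : Set V) a y := by
      intro a ha
      rcases Finset.mem_insert.mp ha with h | h
      · subst h
        exact Cn.of_adj (Finset.mem_coe.mpr (Finset.mem_insert_self a U))
          (hsub (Finset.mem_coe.mpr hyU)) hvy
      · exact (hUc a h y hyU).mono hsub
    exact fun a ha b hb => (key a ha).trans (key b hb).symm
  · rw [hW]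
    have h2 := ed_erase G (S \ U) v hvW
    have h6 : (S \ U).card = ((S \ U).erase v).card + 1 := by
      have := Finset.card_erase_add_one hvW
      omega
    -- the new neighbours
    have h4 : dg G ((S \ U).erase v) v = dg G (nb G S U) v +
        (((S \ U).erase v).filter fun x => G.Adj v x ∧ x ∉ nb G S U).card := by
      unfold dg
      have e1 : (nb G S U).filter (fun w => G.Adj v w) =
          ((S \ U).erase v).filter (fun x => G.Adj v x ∧ x ∈ nb G S U) := by
        ext x
        simp only [Finset.mem_filter, Finset.mem_erase]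
        constructor
        · rintro ⟨h1, h2⟩
          refine ⟨⟨?_, (Finset.mem_filter.mp h1).1⟩, h2, h1⟩
          rintro rfl
          exact G.irrefl h2
        · rintro ⟨_, h2, h3⟩
          exact ⟨h3, h2⟩
      rw [e1, ← Finset.card_union_of_disjoint]
      · congr 1
        ext x
        simp only [Finset.mem_filter, Finset.mem_union]
        tauto
      · rw [Finset.disjoint_left]
        intro x hx hx'
        exact (Finset.mem_filter.mp hx').2.2 (Finset.mem_filter.mp hx).2.2
    have h3 : (nb G S (insert v U)).card + 1 = (nb G S U).card +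
        (((S \ U).erase v).filter fun x => G.Adj v x ∧ x ∉ nb G S U).card := by
      have e2 : nb G S (insert v U) = (nb G S U).erase v ∪
          ((S \ U).erase v).filter fun x => G.Adj v x ∧ x ∉ nb G S U := by
        ext x
        constructor
        · intro hx
          obtain ⟨hx1, z, hz, hxz⟩ := Finset.mem_filter.mp hx
          rw [hW] at hx1
          have hxv : x ≠ v := (Finset.mem_erase.mp hx1).1
          by_cases hxN : x ∈ nb G S U
          · exact Finset.mem_union_left _ (Finset.mem_erase.mpr ⟨hxv, hxN⟩)
          · refine Finset.mem_union_right _ (Finset.mem_filter.mpr ⟨hx1, ?_, hxN⟩)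
            rcases Finset.mem_insert.mp hz with h | h
            · rw [h] at hxz
              exact hxz.symm
            · exact absurd (Finset.mem_filter.mpr ⟨(Finset.mem_erase.mp hx1).2, z, h, hxz⟩) hxN
        · intro hx
          rcases Finset.mem_union.mp hx with h | h
          · obtain ⟨hxv, hxN⟩ := Finset.mem_erase.mp h
            obtain ⟨hx1, z, hz, hxz⟩ := Finset.mem_filter.mp hxN
            refine Finset.mem_filter.mpr ⟨?_, z, Finset.mem_insert_of_mem hz, hxz⟩
            rw [hW]
            exact Finset.mem_erase.mpr ⟨hxv, hx1⟩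
          · obtain ⟨hx1, hx2, _⟩ := Finset.mem_filter.mp h
            refine Finset.mem_filter.mpr ⟨?_, v, Finset.mem_insert_self v U, hx2.symm⟩
            rw [hW]
            exact hx1
      rw [e2, Finset.card_union_of_disjoint]
      · have := Finset.card_erase_add_one hv
        omega
      · rw [Finset.disjoint_left]
        intro x hx hx'
        exact (Finset.mem_filter.mp hx').2.2 (Finset.mem_erase.mp hx).2
    rw [h6] at hUi
    have h7 : 2 * d * (((S \ U).erase v).card + 1 + 1) =
        2 * d * (((S \ U).erase v).card + 1) + 2 * d := by ring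
    rw [h7] at hUi
    omega

open Classical in
theorem main (d : ℕ) (hd : 1 ≤ d) (N : ℕ) : ∀ S : Finset V, S.card = N → S.Nonempty →
    2 * d * S.card ≤ ed G S →
    ∃ U H : Finset V, U ⊆ S ∧ H ⊆ S ∧ Disjoint U H ∧ U.Nonempty ∧ H.Nonempty ∧
      (∀ a ∈ U, ∀ b ∈ U, Cn G ↑U a b) ∧ (∀ x ∈ H, ∃ y ∈ U, G.Adj x y) ∧
      ∀ x ∈ H, d ≤ dg G H x := by
  induction N using Nat.strong_induction_on with
  | _ N ih =>
    intro S hN hS hed
    obtain ⟨v, hv⟩ := hS
    -- a single vertex is fine
    have hfine : Fine G d S {v} := by
      refine ⟨Finset.singleton_subset_iff.mpr hv, Finset.singleton_nonempty v, ?_, ?_⟩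
      · intro a ha b hb
        rw [Finset.mem_singleton] at ha hb
        subst ha
        subst hb
        exact Cn.refl (by simp)
      · have h1 := ed_erase G S v hv
        have h2 : S \ {v} = S.erase v := Finset.sdiff_singleton_eq_erase v S
        have h3 : (nb G S {v}).card = dg G (S.erase v) v := by
          unfold nb dg
          rw [h2]
          congr 1
          refine Finset.filter_congr fun x _ => ?_
          simp only [Finset.mem_singleton, exists_eq_left]
          exact G.adj_comm x v
        rw [h3, h2, Finset.card_erase_add_one hv]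
        omega
    obtain ⟨U, hU, hmax⟩ := Finset.exists_max_image (S.powerset.filter fun U => Fine G d S U)
      Finset.card ⟨{v}, Finset.mem_filter.mpr ⟨Finset.mem_powerset.mpr hfine.1, hfine⟩⟩
    have hUf : Fine G d S U := (Finset.mem_filter.mp hU).2
    obtain ⟨hUS, hUn, hUc, hUi⟩ := hUf
    by_cases hN0 : (nb G S U).Nonempty
    · refine ⟨U, nb G S U, hUS, (Finset.filter_subset _ _).trans Finset.sdiff_subset, ?_, hUn,
        hN0, hUc, fun x hx => (Finset.mem_filter.mp hx).2, fun x hx => ?_⟩
      · rw [Finset.disjoint_right]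
        intro x hx
        exact (Finset.mem_sdiff.mp (Finset.mem_filter.mp hx).1).2
      · by_contra hlt
        push Not at hlt
        have h1 := step G d S U ⟨hUS, hUn, hUc, hUi⟩ x hx hlt
        have h2 := hmax (insert x U)
          (Finset.mem_filter.mpr ⟨Finset.mem_powerset.mpr h1.1, h1⟩)
        have h3 : x ∉ U := (Finset.mem_sdiff.mp (Finset.mem_filter.mp hx).1).2
        rw [Finset.card_insert_of_notMem h3] at h2
        omega
    · rw [Finset.not_nonempty_iff_eq_empty] at hN0
      rw [hN0, Finset.card_empty] at hUi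
      have hW : (S \ U).Nonempty := by
        rw [Finset.nonempty_iff_ne_empty]
        intro h0
        rw [h0] at hUi
        have h1 : ed G (∅ : Finset V) = 0 := by
          rw [ed_sum]
          simp
        rw [h1, Finset.card_empty] at hUi
        omega
      have hlt : (S \ U).card < N := by
        rw [← hN]
        refine Finset.card_lt_card ?_
        rw [Finset.ssubset_iff_of_subset Finset.sdiff_subset]
        obtain ⟨x, hx⟩ := hUn
        exact ⟨x, hUS hx, fun h => (Finset.mem_sdiff.mp h).2 hx⟩
      have hle : 2 * d * (S \ U).card ≤ ed G (S \ U) := by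
        have : 2 * d * ((S \ U).card + 1) = 2 * d * (S \ U).card + 2 * d := by ring
        omega
      obtain ⟨U', H', h1, h2, h3⟩ := ih _ hlt (S \ U) rfl hW hle
      exact ⟨U', H', h1.trans Finset.sdiff_subset, h2.trans Finset.sdiff_subset, h3⟩

end HX_L1

theorem prH_L1 : H_L1 := by
  intro V _ G d S hd hS hed
  exact HX_L1.main G d hd S.card S rfl hS hed

end Pool.MP_0d2ef4_co
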