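import Pool.Agent.Work.MP_0d2ef4_co.HC.Stmts
import Pool.Agent.Work.MP_0d2ef4_co.WQ.Basic

/-!
# Block HC, item LOC (helper58): locality
-/

set_option autoImplicit false

namespace Pool.MP_0d2ef4_co

open Set Filter

universe u v

namespace HX_LOC

variable {V : Type u} {G G' : SimpleGraph V} {S T : Set V}

theorem cn (h : ∀ a ∈ S, ∀ b ∈ S, (G.Adj a b ↔ G'.Adj a b)) (hT : T ⊆ S) {a b : V}
    (hc : Cn G T a b) : Cn G' T a b :=
  Cn.induct (p := fun x => Cn G' T a x) hc (Cn.refl hc.left) fun x y hx hxy hy hp =>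
    hp.tail ((h x (hT hx.right) y (hT hy)).1 hxy) hy

theorem sym (h : ∀ a ∈ S, ∀ b ∈ S, (G.Adj a b ↔ G'.Adj a b)) :
    ∀ a ∈ S, ∀ b ∈ S, (G'.Adj a b ↔ G.Adj a b) := fun a ha b hb => (h a ha b hb).symm

theorem sub (h : ∀ a ∈ S, ∀ b ∈ S, (G.Adj a b ↔ G'.Adj a b)) (hT : T ⊆ S) :
    ∀ a ∈ T, ∀ b ∈ T, (G.Adj a b ↔ G'.Adj a b) := fun a ha b hb => h a (hT ha) b (hT hb)

theorem cmp_eq' (h : ∀ a ∈ S, ∀ b ∈ S, (G.Adj a b ↔ G'.Adj a b)) (a : V) :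
    cmp G S a = cmp G' S a := by
  ext b
  exact ⟨fun hb => cn h subset_rfl hb, fun hb => cn (sym h) subset_rfl hb⟩

theorem two (h : ∀ a ∈ S, ∀ b ∈ S, (G.Adj a b ↔ G'.Adj a b)) (hT : T ⊆ S) (ht : TwoCon G T) :
    TwoCon G' T :=
  ⟨ht.1, fun a ha b hb => cn h hT (ht.2.1 a ha b hb), fun w hw a ha b hb =>
    cn h (sdiff_subset.trans hT) (ht.2.2 w hw a ha b hb)⟩

theorem un (h : ∀ a ∈ S, ∀ b ∈ S, (G.Adj a b ↔ G'.Adj a b)) (hT : T ⊆ S) {k : ℕ}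
    (hu : Un G k T) : Un G' k T :=
  fun F hF a ha b hb => cn h (sdiff_subset.trans hT) (hu F hF a ha b hb)

theorem blk (h : ∀ a ∈ S, ∀ b ∈ S, (G.Adj a b ↔ G'.Adj a b)) {B : Set V} (hB : BlkOn G S B) :
    BlkOn G' S B :=
  ⟨hB.1, two h hB.1 hB.2.1, fun B' h1 h2 h3 => hB.2.2 B' h1 (two (sym h) h1 h2) h3⟩

theorem loc0 (s : ℕ → ℕ) : LocalK (CompK (HCK.{u} s)) := by
  intro V G G' S h hK a ha
  have e := cmp_eq' h a
  have h1 := hK a ha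
  rw [← e]
  exact ⟨h1.1, un h cmp_subset h1.2⟩

theorem locDel (m : ℕ) (K : Kd.{u}) (hK : LocalK K) : LocalK (DelK m K) := by
  rintro V G G' S h ⟨F, hF, hF'⟩
  exact ⟨F, hF, hK V G G' _ (sub h sdiff_subset) hF'⟩

theorem locBlk (K : Kd.{u}) (hK : LocalK K) : LocalK (BlkK K) := by
  intro V G G' S h hb B hB
  exact hK V G G' B (sub h hB.1) (hb B (blk (sym h) hB))

theorem loc (s : ℕ → ℕ) (m k : ℕ) : LocalK (RedK.{u} s m k) := by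
  induction k with
  | zero => exact loc0 s
  | succ k ih => exact locBlk _ (locDel m _ ih)

end HX_LOC

/-- Item LOC. -/
theorem prH_LOC : H_LOC.{u} := fun s m k =>
  ⟨HX_LOC.loc s m k, HX_LOC.locDel m _ (HX_LOC.loc s m k)⟩

end Pool.MP_0d2ef4_co
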