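import Pool.Agent.Work.MP_0d2ef4_co.HC.Defs

/-!
# Block HC: statements with complete proofs (captain helper42, proof note 4750)

Item `X`: statement `H_X`, file `HC/I_X.lean`, theorem `prH_X`, auxiliary lemmas in the namespace
`Pool.MP_0d2ef4_co.HX_X`. Facts of the block WQ (`WQ/Basic.lean`, `WQ/Arr.lean`, `WQ/GP.lean`, the
Props `FamStmt`, `MBAStmt`, `DomFacts`, `TwoConStmt`, `RayStmt` of `WQ/Defs.lean`) may be used; the
Props are taken as hypotheses.
-/

set_option autoImplicit false

namespace Pool.MP_0d2ef4_co

open Set Filter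

universe u v

/-! ### Arrays -/

/-- BND (MEDIUM). Bounded growth on tails makes an array of numbers bounded.
Proof. Suppose there are no `D, c` as in the conclusion. (1) Let `t` be a finite set, `D` infinite, all
elements of `t` below all elements of `D`, `t ∪ D ⊆ C`, `c : ℕ`. There is no infinite `D' ⊆ D` with
`h (t ∪ Y) ≤ c` for all infinite `Y ⊆ D'`: `tl` removes the elements of `t` one after the other
(induction on the number of elements of `t`), so `h Y ≤ N^[|t|] c` for all infinite `Y ⊆ D'` (`N` monotone,
`h (tl X) < N (h X)`). (2) `{Y | h (t ∪ Y) ≤ c}` is measurable (`Y ↦ t ∪ Y` is measurable), so by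
`gp_pred` there is an infinite `D' ⊆ D` with `c < h (t ∪ Y)` for all infinite `Y ⊆ D'`. (3) Choose
recursively `b 0 < b 1 < ...` and infinite `D 0 = C, D (j+1) ⊆ D j`, `b j = min (D j)`, all elements of
`D (j+1)` above `b j`, `j < h ({b 0, .., b j} ∪ Y)` for all infinite `Y ⊆ D (j+1)`. The set
`X = {b 0, b 1, ..}` has `j < h X` for all `j`: contradiction. -/
def H_BND : Prop := ∀ (C : Set ℕ), C.Infinite → ∀ (h : Set ℕ → ℕ),
  (∀ n, MeasurableSet {X | h X = n}) → ∀ N : ℕ → ℕ, Monotone N →
  (∀ X, X ⊆ C → X.Infinite → h (tl X) < N (h X)) →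
  ∃ D, D ⊆ C ∧ D.Infinite ∧ ∃ c, ∀ X, X ⊆ D → X.Infinite → h X ≤ c

/-- TUP (EASY). Tuples of fixed length. Proof. Given an array of tuples on `B`, apply `NB.perfect` to
the coordinates one after the other: for every finite set of coordinates (induction) there is an
infinite `C ⊆ B` on which these coordinates are perfect. -/
def H_TUP : Prop := ∀ (n : ℕ) (Q : Type v) (le : Q → Q → Prop) (P : Set ℕ → Q → Prop) (A : Set ℕ),
  NB le P A → NB (fun a b : Fin n → Q => ∀ i, le (a i) (b i)) (fun X a => ∀ i, P X (a i)) A

/-- PRD (EASY). Products with a finite set (here `Prop`) and optional elements. Proof. For an array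
`f` use `exists_const` for the second component (for `isSome` of `f X` in the second part), then
`NB` for the first component. In the second part, if all values are `none` every `X` will do; if all
are `some` apply `NB` to `X ↦ (f X).getD q` for a fixed value `q`. -/
def H_PRD : Prop := ∀ (Q : Type v) (le : Q → Q → Prop) (P : Set ℕ → Q → Prop) (A : Set ℕ),
  NB le P A →
  NB (fun a b : Q × Prop => le a.1 b.1 ∧ (a.2 ↔ b.2)) (fun X a => P X a.1) A ∧
  NB (OptLe le) (fun X o => ∀ q, o = some q → P X q) A

/-! ### Linkage (finite graphs) -/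

/-- L1 (MEDIUM). The step of Mader. `ed G S` is twice the number of edges inside `S`.
Proof by strong induction on `|S|`. Write `N(U)` for the set of the vertices of `S \ U` with a
neighbour in `U`. Call `U ⊆ S` fine if it is nonempty, connected (`Cn G U`) and
`2 d (|S \ U| + 1) ≤ ed G (S \ U) + 2 |N(U)|`. `{v}` is fine for `v ∈ S`
(`ed G S = ed G (S \ v) + 2 dg G (S \ v) v`). Take a fine `U` of maximal size. If `N(U)` is empty then
`S \ U` is nonempty (`ed ∅ = 0`) and `2 d |S \ U| ≤ ed G (S \ U)`: induction. Otherwise let
`v ∈ N(U)`: `U ∪ {v}` is connected, `N(U ∪ v) = (N(U) \ v) ∪ (neighbours of v in S \ U \ v)`, so passing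
from `U` to `U ∪ v` changes `ed G (S \ U) + 2 |N(U)|` by
`- 2 dg (S \ U) v - 2 + 2 |nbrs of v in S \ U outside N(U)| = - 2 - 2 dg (N(U)) v`, and the left side by
`- 2 d`. As `U ∪ v` is not fine, `d ≤ dg G (N(U)) v`. Take `H = N(U)`. -/
def H_L1 : Prop := ∀ {V : Type} [Finite V] (G : SimpleGraph V) (d : ℕ) (S : Finset V), 1 ≤ d →
  S.Nonempty → 2 * d * S.card ≤ ed G S →
  ∃ U H : Finset V, U ⊆ S ∧ H ⊆ S ∧ Disjoint U H ∧ U.Nonempty ∧ H.Nonempty ∧
    (∀ a ∈ U, ∀ b ∈ U, Cn G ↑U a b) ∧ (∀ x ∈ H, ∃ y ∈ U, G.Adj x y) ∧ ∀ x ∈ H, d ≤ dg G H x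

/-- L2 (MEDIUM). Topological complete graphs. Proof by induction on the finite set `E ⊆ prs r` (for
all `S`): if `2 (r + 1) 2^|E| |S| ≤ ed G S`, `S` nonempty, then `TKp G S r E b p` for some `b, p`.
`E = ∅`: `ed G S ≤ |S| (|S| - 1)` gives `r ≤ |S|`, choose `b` injective. Step `insert (i, j) E`,
`i < j`: `H_L1` with `d = (r + 1) 2^(|E| + 1)` gives `U, H`; `ed G H = ∑_(x ∈ H) dg G H x ≥ d |H|`, so
the induction hypothesis holds for `H`; take `b, p` for `H, E`. `b i` and `b j` have neighbours `x, y`
in `U`, join them by a path inside `U` (from `Cn G U x y` a nodup chain, by induction or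
`SimpleGraph.Walk`); `p i j := b i :: path ++ [b j]`. It meets `H` only in `b i, b j`. -/
def H_L2 : Prop := ∀ r : ℕ, ∃ D : ℕ, ∀ {V : Type} [Finite V] (G : SimpleGraph V) (S : Finset V),
  S.Nonempty → D * S.card ≤ ed G S →
  ∃ (b : Fin r → V) (p : Fin r → Fin r → List V), TKp G ↑S r (prs r) b p

/-- L3 (EASY). Unseparable graphs have large degrees. Proof. Let `v` be a vertex and
`F` its set of neighbours. If `|F| < K - 1` there is a vertex `u ∉ F`, `u ≠ v` (there are at least `K`
vertices), and `v, u` are not joined in `univ \ F` (`v` has no neighbour there): contradiction to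
`Un G K univ`. So `K - 1 ≤ dg G univ v` for all `v`, and `ed G univ = ∑_v dg G univ v`. -/
def H_L3 : Prop := ∀ {V : Type} [Fintype V] (G : SimpleGraph V) (K : ℕ), K ≤ Fintype.card V →
  Un G K univ → (K - 1) * Fintype.card V ≤ ed G Finset.univ

/-- L4 (EASY-MEDIUM). Menger. Proof. `BiP4.menger` (`MP_d76268_co/Menger.lean`, statement in
`MP_d76268_co/Stmts.lean`) for `E = G.Adj`, `A = range z`, `B = U`, `k = n`: if a finite set `T` with
`|T| < n` met all walks from `range z` to `U`, choose `z i ∉ T`, `u ∈ U \ T` (`n ≤ |U|`, `z` injective);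
`Un` joins them inside `univ \ T`, a contradiction. The `n` disjoint walks start in different `z i`,
so renumber them (a bijection of `Fin n`) such that the i-th one starts in `z i`. Cut each path at
its first vertex in `U` (and make it nodup: `Menger.Wk.simple` or `IsAB` gives it already). -/
def H_L4 : Prop := ∀ {V : Type} [Fintype V] (G : SimpleGraph V) (n : ℕ) (z : Fin n → V)
  (U : Set V), Function.Injective z → Un G n univ → n ≤ U.ncard →
  ∃ (e : Fin n → V) (q : Fin n → List V), PthS G n z U e q

/-- L5 (MEDIUM-HARD). Rerouting: a topological complete graph with `n + n^2` branch vertices and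
disjoint paths from the `z i` to its branch vertices give a rooted complete minor.
Proof. Call an edge marked if it joins consecutive vertices of some `p a a'`, `(a, a') ∈ prs R`,
`R = n + n^2`. Among all systems `PthS G n z (range b) e q` take one for which the number of the
unmarked pairs `(x, y)` which are consecutive in some `q i` is minimal (well founded induction on
this number, or `Nat.find`). Let `e i = b (ε i)`; `ε` is injective (the paths are disjoint). For
`w : Fin R` not in the range of `ε` and `i : Fin n` let `l` be the path `p (ε i) w` (the reverse of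
`p w (ε i)` if `w < ε i`), from `b (ε i)` to `b w`; write `l = l1 ++ y :: l2`, where `y` is the last vertex
of `l` that lies on some `q j`. Claim: `j = i`. Suppose `j ≠ i`. `y` is no branch vertex: it would be
`b (ε i)`, which lies on `q i`, or `b w`, which as a vertex of `q j` would be `e j = b (ε j)`, `w = ε j`.
Write `q j = m1 ++ y :: m2`. (i) `y :: m2` has an unmarked pair of consecutive vertices: otherwise all
its vertices are inner vertices of `l`, by induction: if `x` is an inner vertex of `l` and the pair
`x, x'` is marked, then it lies on a `p a a'` that contains the non-branch vertex `x`, so it is `l`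
(`TKp.dis`); and `x'` is no branch vertex, as it would be `b (ε i) ∈ q i` or `b w`, again impossible on
`q j`. But the last vertex of `q j` is a branch vertex. (ii) `m1 ++ y :: l2` is a path from `z j`
which meets `range b` only in its end `b w` (`m1`: `only`), `l2` does not meet any `q k`; so replacing
`q j` by it gives a system with fewer unmarked pairs (those of `m1 ++ [y]` are kept, those of `y :: l2` are
marked, an unmarked pair of `y :: m2` is lost and does not occur elsewhere since the paths are nodup and
disjoint). Contradiction. So for all `i, w` the rest `y :: l2` starts on `q i` and `l2` meets no `q k`.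
Choose distinct `w i j`, `i < j`, outside the range of `ε` (there are at least `n^2` such indices) and
put `M i =` the vertices of `q i`, the vertices of `y :: l2` other than `b w` for the paths
`p (ε i) (w i j)` and `p (ε i) (w j i)`, and the vertices `b (w i j)` with `i < j`. Connected: each rest
is attached to `q i` in `y`, `b (w i j)` to the rest of the path of `i`. Disjoint: `TKp.br`, `TKp.dis`.
`M i` and `M j` are adjacent for `i < j`: `b (w i j)` is adjacent to the vertex before it on the path of
`j`, which is in the rest `y :: l2` of `j` (`y ≠ b w`). -/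
def H_L5 : Prop := ∀ {V : Type} [Finite V] (G : SimpleGraph V) (n : ℕ) (z : Fin n → V)
  (b : Fin (n + n ^ 2) → V) (p : Fin (n + n ^ 2) → Fin (n + n ^ 2) → List V),
  TKp G univ (n + n ^ 2) (prs (n + n ^ 2)) b p →
  (∃ (e : Fin n → V) (q : Fin n → List V), PthS G n z (range b) e q) →
  RootK G univ z

/-- LNK (EASY-MEDIUM). Assembly of the linkage. Proof. Let `R = n + n^2`, `D` from `H_L2` for `R`,
`K = D + n + 2 + R`. Move everything to `V₀ = Fin S.ncard` (or `Fin` of the cardinality) by a bijection
`S ≃ Fin ..` (`SimpleGraph.comap`): the graph `G₀` on `V₀` has `Un G₀ K univ`, so by `H_L3`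
`D |V₀| ≤ (K - 1) |V₀| ≤ ed G₀ univ`; `H_L2` gives a topological complete graph, `H_L4` for `U = range b`
(`Un` for `n ≤ K`) the paths, `H_L5` the rooted complete minor; move it back. The index set `I` is
moved to `Fin n`. -/
def H_LNK : Prop := ∀ n : ℕ, ∃ K : ℕ, ∀ (V : Type u) (G : SimpleGraph V) (S : Set V), S.Finite →
  K ≤ S.ncard → Un G K S → ∀ (I : Type u) [Finite I], Nat.card I = n → ∀ z : I → V,
  Function.Injective z → (∀ i, z i ∈ S) → RootK G S z

/-! ### Good classes -/

/-- HCN (MEDIUM). Highly connected finite sets are good.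
Proof. Let `f` be an array on `B` with values in the kind; suppose `CM` fails for all `X ⊆ B`. (1) Apply
`FamStmt` to the families `(f X).S → L` of labels and `NB.perfect`: there is `C ⊆ B` such that for all
`X ⊆ C` there is an injection `σ` from `(f X).S` to `(f (tl X)).S` with `leL (lab a) (lab (σ a))`. (2) Let
`K n` be from `H_LNK` and let `N` be monotone such that `t ≥ N n` implies `K n ≤ t` and `K n ≤ s t`
(`s → ∞`). If `N (h X) ≤ h (tl X)`, `h X = (f X).S.ncard`, then `H_LNK` with the roots `σ a` (index type
the subtype `(f X).S`) gives branch sets, and `CM (f X) (f (tl X))` holds: contradiction. So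
`h (tl X) < N (h X)` for all `X ⊆ C`. (3) `H_BND`: `h` is bounded on `D ⊆ C`; by `exists_const` (finite
colouring, for instance of `min (h X) (c + 1)`) `h X = n` on `E ⊆ D`. (4) Choose for every value an
enumeration of `S` by `Fin n` (an arbitrary choice function of the value, so that compositions are
arrays, `IsArr.comp`); the adjacency relation on `Fin n` takes finitely many values: constant on a
smaller set; the tuple of the labels is not bad (`H_TUP`). So for some `X` the map from `(f X).S` to
`(f (tl X)).S` given by the enumerations is an isomorphism increasing the labels: `CM`. -/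
def H_HCN : Prop := ∀ s : ℕ → ℕ, Tendsto s atTop atTop → Good (HCK.{u} s)

/-- DEL1 (EASY-MEDIUM). Deletion of one vertex. Proof. Let `f` be an array with values in
`Del1K K`. By `gp_pred` either `K` holds for all values on a smaller set: apply `Good K`; or for none: then
choose for every value `c` (classical choice, a function of the value) a `v_c ∈ c.S` with
`K (c.S \ {v_c})`. The labels of `v_c` are perfect on a smaller set `C` (`NB.perfect`). Apply `Good K`
with the labels `L × Prop` (`H_PRD`, first part) to `c' = (W, H, S \ {v_c}, w ↦ (lab w, H.Adj w v_c))` on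
`C`: some `X ⊆ C` with `CM c'_X c'_(tl X)`, branch sets `M`. Put `M' v_c = {v'}`, `M' = M` otherwise
(`v' = v_(f (tl X))`). An edge `a v_c`: the vertex `p ∈ M a` with label above that of `a` is adjacent to
`v'`. -/
def H_DEL1 : Prop := ∀ K : Kd.{u}, Good K → Good (Del1K K)

/-- DEL (EASY). Proof. `DelK 0 K V G S ↔ K V G S` and `DelK (m + 1) K V G S → Del1K (DelK m K) V G S`: if
`|F| ≤ m` take `F`; otherwise `v ∈ F`: if `v ∉ S` then `S \ F = S \ (F \ v)`, left alternative; if
`v ∈ S` then `S \ F = (S \ {v}) \ (F \ v)`. `Good` is antitone in the kind. Induction with `H_DEL1`. -/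
def H_DEL : Prop := ∀ (m : ℕ) (K : Kd.{u}), Good K → Good (DelK m K)

/-- CMP (EASY-MEDIUM, compare `isMinor_of_fam` in `WQ/Top.lean`). Components. Proof. To `c` assign the
family indexed by `{C // ∃ a ∈ c.S, C = cmp c.H c.S a}` of the labelled graphs `(W, H, C, lab)`.
`Good K` and `FamStmt` give `X` and an injection `σ` of the index sets with `CM` for the members. Put
`M a =` the branch set of `a` for its component. Different components go to different, hence disjoint
components; edges are inside components. -/
def H_CMP : Prop := ∀ K : Kd.{u}, Good K → Good (CompK K)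

/-- LOC (EASY). Locality. Proof. `Cn G T a b ↔ Cn G' T a b` for `T ⊆ S` if `G, G'` agree on `S`; so
`Un`, `cmp G S a`, `TwoCon` and `BlkOn` agree; induction on `k`. -/
def H_LOC : Prop := ∀ (s : ℕ → ℕ) (m k : ℕ), LocalK (RedK.{u} s m k) ∧
  LocalK (DelK m (RedK.{u} s m k))

/-- MAXB (EASY-MEDIUM). Blocks at the root are maximal. Proof. Two-connectedness is `TwoConStmt`. Let
`S'` be two-connected, `insert v C ⊆ S'`, `C = cmp G (Ch G r v) c`, and `x ∈ S'`, `x ≠ v`. (1) `x` and `c` are
joined inside `S' \ {v}` (`c ≠ v`), and all vertices of this connection are in `dom G r v` and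
different from `v` (`bdry`, induction from `c`). (2) So every `x ∈ S'`, `x ≠ v`, is in `dom G r v`; by
`child` `x ∈ dom G r w`, `w ∈ Ch G r v`. If `x ≠ w`, join `x` to `v` inside `S' \ {w}` (if `w ∉ S'`, inside
`S'`): all vertices stay in `dom G r w` (`bdry`), so `v ∈ dom G r w`, with `w ∈ dom G r v` and
`antisymm` `v = w`, but `w ≠ v`. So `x = w ∈ Ch G r v`. (3) The connection in (1) lies in `Ch G r v`, so
`x ∈ C`. -/
def H_MAXB : Prop := ∀ (V : Type u) (G : SimpleGraph V) (r v c : V), c ∈ Ch G r v →
  BlkOn G univ (insert v (cmp G (Ch G r v) c))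

/-- GLU (MEDIUM, compare `WQ/I_GLUE.lean`). Gluing. Proof. Let `σ` be the injection, `M_C` the branch
sets in `insert y.v (σ C)` for the block `insert x.v C` (labels `OptLe`). `y.v ∈ M_C x.v`: the branch set
of `x.v` (label `none`) contains a vertex with label `none`, this is `y.v`. For `w ∈ C` choose
`p w ∈ M_C w` with a label above that of `w`: `p w ≠ y.v`, `p w ∈ σ C`, and branch sets `R w` of
`dom w` in `dom (p w)`, `p w ∈ R w w`. Define `M a = R w a` for `a ∈ dom w`, `a ≠ w` (`w` the child with
`a ∈ dom w`, `child`, `child_unique`), `M w = R w w ∪ M_C w`, `M x.v = {y.v} ∪ ⋃_C M_C x.v`.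
Disjoint: `R w a ⊆ dom (p w)`, which contains only the child `p w` (`child_unique`) and not `y.v`; the
`p w` are distinct (`M_C` disjoint, `σ` injective, different components are disjoint). Edges: an edge
between `dom w` and its complement contains `w` (`bdry`); children in different components are not
adjacent (`cmp_closed`); a neighbour of `x.v` in `dom w` is `w`. Labels: clear, for `x.v` take `y.v`. -/
def H_GLU : Prop := ∀ (L : Type (u + 1)) (leL : L → L → Prop) (x y : LRG.{u} L),
  Cn x.G univ x.r x.v → Cn y.G univ y.r y.v → leL (x.lab x.v) (y.lab y.v) →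
  Fam.le (CM.{u} (OptLe (LRM leL))) x.fam y.fam → LRM leL x y

/-- LTL (EASY, copy of `WQ/I_LT.lean`). Proof. As `lt_holds`; the branch sets only grow, so the
condition on the labels is kept. -/
def H_LTL : Prop := ∀ (L : Type (u + 1)) (leL : L → L → Prop), LLtFacts.{u} L leL

/-- RGL (EASY-MEDIUM, compare `WQ/RG2.lean`). Labelled rooted graphs. Proof. Suppose not; `MBAStmt` for
`le = LRM leL`, `lt = LRG.lt`, predicate `LRP K P` (it is inherited: the same graph, root and labels)
gives a minimal bad `g` on `B ⊆ A`. The labels of the roots, `X ↦ (g X).lab (g X).v`, are perfect on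
`C ⊆ B` (`NB.perfect`). `H_PRD` (second part), applied to `NB (LRM leL) (fun X q => LRG.lt q (g X)) B`, gives
optional labels; `Good K` for these labels: `NB` of `CM (OptLe ..)`; `FamStmt` for the families
`(g X).fam` on `C`: rayless, the block is of kind `K` by `H_MAXB` and `LRP`, the labels are `none` or
`some (dom w)` with `LRG.lt`. We get `X ⊆ C` with `Fam.le`, and `H_GLU` contradicts badness. -/
def H_RGL : Prop := ∀ K : Kd.{u}, Good K → ∀ (L : Type (u + 1)) (leL : L → L → Prop)
  (P : Set ℕ → L → Prop) (A : Set ℕ), NB leL P A → NB (LRM.{u} leL) (LRP K P) A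

/-- TOPL (EASY-MEDIUM, compare `WQ/Top.lean`). From rooted graphs to sets. Proof. For a labelled graph
`c` let `G` be the graph with `G.Adj a b ↔ c.H.Adj a b ∧ a ∈ c.S ∧ b ∈ c.S`. To `c` assign the family
indexed by `{C // ∃ a ∈ c.S, C = cmp c.H c.S a}` of the rooted graphs `(W, G, a, a, lab)`, `a` a chosen
vertex of `C` (`dom G a a = cmp G univ a = C`). They satisfy `LRP K P X`: rayless, `BlkOn G univ B`, `B`
inside the component, implies `BlkOn c.H c.S B` (the same `Cn` inside subsets of `c.S`), so `K c.H B`,
and `LocalK K` gives `K G B`. `H_RGL`, `FamStmt`, and the union of the branch sets. -/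
def H_TOPL : Prop := ∀ K : Kd.{u}, Good K → LocalK K → Good (BlkK K)

/-- EQV (EASY). The definitions of the statement. Proof. `cn_of_reachable`, `reachable_of_cn`,
`connected_of_cn`, `twoCon_iff` of `WQ/Top.lean`; a component in the sense of `IsComp` is
`cmp G S a` for each of its vertices `a`, and conversely; induction on `k`. -/
def H_EQV : Prop := ∀ (s : ℕ → ℕ) (m k : ℕ) (V : Type u) (G : SimpleGraph V) (S : Set V),
  Red s m G k S → RedK.{u} s m k V G S

/-- ASM (EASY). Proof. `Good (RedK s m k)` by induction on `k`: `H_HCN` and `H_CMP`; `H_TOPL`, `H_DEL`,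
`H_LOC`. Apply it with `L = PUnit`, `P = True` to the array `X ↦ (V (c X), G (c X), univ, PUnit.unit)`
(`rayless_iff`, `H_EQV`, `connected_of_cn`); the last part is the case `c X = sInf X`
(`measurable_sInf'`, `sInf_lt_sInf_tl` of `WQ/Top.lean`). -/
def H_ASM : Prop := ∀ (s : ℕ → ℕ), Tendsto s atTop atTop → ∀ (m k : ℕ) (V : ℕ → Type u)
  (G : ∀ n, SimpleGraph (V n)), (∀ n, Rayless (G n) ∧ Red s m (G n) k univ) →
  (∀ c : Set ℕ → ℕ, Measurable c →
    ∃ X : Set ℕ, X.Infinite ∧ IsMinor (G (c X)) (G (c (X \ {sInf X})))) ∧
  ∃ i j, i < j ∧ IsMinor (G i) (G j)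

end Pool.MP_0d2ef4_co
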